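import Pool.Agent.TH685.TI.Gen
import Pool.Agent.Helper601.BT

set_option autoImplicit false
set_option maxHeartbeats 1000000

/-! # Even numbers `2 n = p + q` and few candidates `q`: union bound in short intervals -/

namespace Pool.Agent.TH685.Gen

open Finset

theorem cover_bt : ∃ C : ℝ, 0 < C ∧ ∀ X : ℕ, 3 ≤ X → ∀ Y : ℕ, ∀ S : Finset ℕ,
    ∃ B : Finset ℕ, (B.card : ℝ) ≤ C * (S.card * (X / Real.log X)) ∧
      ∀ n : ℕ, Y < n → n ≤ Y + X → n ∉ B → ∀ s t : ℕ, t.Prime → t + s = 2 * n → s ∉ S := by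
  obtain ⟨C, hC, hbt⟩ := Pool.Agent.Helper601.brun_titchmarsh
  refine ⟨2 * C, by linarith, fun X hX Y S => ?_⟩
  have hXr : (3 : ℝ) ≤ X := by exact_mod_cast hX
  obtain ⟨E, hE⟩ : ∃ E : ℕ → Finset ℕ, ∀ s : ℕ, E s =
      (Ioc Y (Y + X)).filter (fun n : ℕ => s ≤ 2 * n ∧ Nat.Prime (2 * n - s)) := ⟨_, fun _ => rfl⟩
  have hEc : ∀ s : ℕ, ((E s).card : ℝ) ≤ 2 * C * (X / Real.log X) := by
    intro s
    obtain ⟨a, ha⟩ : ∃ a : ℕ, a = 2 * Y + 1 - s := ⟨_, rfl⟩
    have h1 : (E s).card ≤ ((range (2 * X)).filter (fun k : ℕ => Nat.Prime (a + k * 1))).card := by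
      apply card_le_card_of_injOn (fun n => 2 * n - s - a)
      · intro n hn
        rw [mem_coe, hE, mem_filter, mem_Ioc] at hn
        obtain ⟨⟨hn1, hn2⟩, hn3, hn4⟩ := hn
        have hpos := hn4.pos
        rw [mem_coe, mem_filter, mem_range]
        have e : a + (2 * n - s - a) * 1 = 2 * n - s := by omega
        refine ⟨?_, ?_⟩
        · show 2 * n - s - a < 2 * X
          omega
        · show Nat.Prime (a + (2 * n - s - a) * 1)
          rw [e]
          exact hn4
      · intro n hn n' hn' h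
        rw [mem_coe, hE, mem_filter, mem_Ioc] at hn hn'
        have hp := hn.2.2.pos
        have hp' := hn'.2.2.pos
        have h' : 2 * n - s - a = 2 * n' - s - a := h
        omega
    have h2 := hbt a 1 (2 * X) (by omega) (Or.inl rfl)
    have h3 : Real.log X ≤ Real.log ((2 * X : ℕ) : ℝ) := by
      apply Real.log_le_log (by linarith)
      push_cast
      linarith
    have hl : 0 < Real.log X := Real.log_pos (by linarith)
    calc ((E s).card : ℝ) ≤ (((range (2 * X)).filter (fun k : ℕ => Nat.Prime (a + k * 1))).card : ℝ) := by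
          exact_mod_cast h1
      _ ≤ C * ((2 * X : ℕ) : ℝ) / Real.log ((2 * X : ℕ) : ℝ) := h2
      _ ≤ C * ((2 * X : ℕ) : ℝ) / Real.log X := by gcongr
      _ = 2 * C * (X / Real.log X) := by push_cast; ring
  refine ⟨S.biUnion E, ?_, ?_⟩
  · have h1 : ((S.biUnion E).card : ℝ) ≤ ∑ s ∈ S, ((E s).card : ℝ) := by
      exact_mod_cast card_biUnion_le
    refine h1.trans ((sum_le_sum fun s _ => hEc s).trans ?_)
    rw [sum_const, nsmul_eq_mul]
    apply le_of_eq
    ring
  · intro n hn1 hn2 hnB s t ht hst hs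
    apply hnB
    rw [mem_biUnion]
    refine ⟨s, hs, ?_⟩
    rw [hE, mem_filter, mem_Ioc]
    refine ⟨⟨hn1, hn2⟩, by omega, ?_⟩
    have e : 2 * n - s = t := by omega
    rw [e]
    exact ht

/-- the first elements of a set -/
theorem first_card (U : ℕ → Prop) (R : ℝ) (hR : 0 ≤ R) (N : ℕ) : ∃ S : Finset ℕ,
    (S.card : ℝ) ≤ R + 1 ∧ ∀ m : ℕ, m < N → 1 ≤ m → U m → m ∉ S → R < cn U m := by
  classical
  refine ⟨(range N).filter (fun m => 1 ≤ m ∧ U m ∧ (cn U m : ℝ) ≤ R), ?_, ?_⟩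
  · have h1 : ((range N).filter (fun m => 1 ≤ m ∧ U m ∧ (cn U m : ℝ) ≤ R)).card ≤
        (range (⌊R⌋₊ + 1)).card := by
      have key : ∀ i j : ℕ, 1 ≤ i → U i → i < j → cn U i < cn U j := by
        intro i j hi hip hij
        unfold cn
        apply Set.ncard_lt_ncard _ (fin_lt U j)
        have hsb : {a : ℕ | 1 ≤ a ∧ a < i ∧ U a} ⊆ {a : ℕ | 1 ≤ a ∧ a < j ∧ U a} :=
          fun a ha => ⟨ha.1, ha.2.1.trans hij, ha.2.2⟩
        rw [Set.ssubset_iff_of_subset hsb]
        exact ⟨i, ⟨hi, hij, hip⟩, fun h => lt_irrefl _ h.2.1⟩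
      apply card_le_card_of_injOn (fun t => cn U t)
      · intro t ht
        rw [mem_coe, mem_filter] at ht
        rw [mem_coe, mem_range]
        have := Nat.le_floor ht.2.2.2
        show cn U t < ⌊R⌋₊ + 1
        omega
      · intro t ht t' ht' heq
        rw [mem_coe, mem_filter] at ht ht'
        have heq' : cn U t = cn U t' := heq
        rcases lt_trichotomy t t' with h | h | h
        · have := key t t' ht.2.1 ht.2.2.1 h
          omega
        · exact h
        · have := key t' t ht'.2.1 ht'.2.2.1 h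
          omega
    rw [card_range] at h1
    have h2 : (((range N).filter (fun m => 1 ≤ m ∧ U m ∧ (cn U m : ℝ) ≤ R)).card : ℝ) ≤
        (⌊R⌋₊ : ℝ) + 1 := by exact_mod_cast h1
    have h3 := Nat.floor_le hR
    linarith
  · intro m hmN hm hUm hmS
    by_contra hcon
    push Not at hcon
    apply hmS
    rw [mem_filter, mem_range]
    exact ⟨hmN, hm, hUm, hcon⟩

/-- many primes below `q`: then `q` is large -/
theorem prime_big (c₀ : ℝ) (hc₀ : 0 < c₀) : ∃ c : ℝ, 0 < c ∧ ∃ X₀ : ℕ, ∀ X : ℕ, X₀ ≤ X →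
    ∀ q : ℕ, c₀ * Real.log X < cn (fun j => j.Prime) q →
      c * (Real.log X * Real.log (Real.log X)) < q := by
  obtain ⟨C, hC, hbt⟩ := Pool.Agent.Helper601.brun_titchmarsh
  refine ⟨c₀ / (4 * C), by positivity, ⌈Real.exp (max (max 3 (3 / c₀)) ((1 / c₀) ^ 2))⌉₊,
    fun X hX q h4 => ?_⟩
  have hX1 : Real.exp (max (max 3 (3 / c₀)) ((1 / c₀) ^ 2)) ≤ X := Nat.ceil_le.1 hX
  have hL : max (max 3 (3 / c₀)) ((1 / c₀) ^ 2) ≤ Real.log X := by
    rw [← Real.log_exp (max (max 3 (3 / c₀)) ((1 / c₀) ^ 2))]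
    exact Real.log_le_log (Real.exp_pos _) hX1
  obtain ⟨L, hLd⟩ : ∃ L : ℝ, L = Real.log X := ⟨_, rfl⟩
  rw [← hLd] at hL h4 ⊢
  have hL3 : 3 ≤ L := (le_max_left _ _).trans ((le_max_left _ _).trans hL)
  have hLc : 3 ≤ c₀ * L := by
    have h1 : 3 / c₀ ≤ L := (le_max_right _ _).trans ((le_max_left _ _).trans hL)
    rw [div_le_iff₀ hc₀] at h1
    linarith
  have hLq : 1 ≤ c₀ ^ 2 * L := by
    have h1 : (1 / c₀) ^ 2 ≤ L := (le_max_right _ _).trans hL
    rw [div_pow, one_pow, div_le_iff₀ (by positivity)] at h1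
    linarith
  have hl : 1 ≤ Real.log L := by
    rw [Real.le_log_iff_exp_le (by linarith)]
    have := Real.exp_one_lt_d9
    linarith
  have hlB : Real.log L / 2 ≤ Real.log (c₀ * L) := by
    have h1 : L ≤ (c₀ * L) ^ 2 := by
      have : L * 1 ≤ L * (c₀ ^ 2 * L) := mul_le_mul_of_nonneg_left hLq (by linarith)
      nlinarith
    have h2 := Real.log_le_log (by linarith) h1
    rw [Real.log_pow] at h2
    push_cast at h2
    linarith
  -- the primes below `q`
  have hcnq : cn (fun j => j.Prime) q ≤ ((range q).filter (fun k : ℕ => Nat.Prime (0 + k * 1))).card := by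
    have h1 : {j : ℕ | 1 ≤ j ∧ j < q ∧ j.Prime} ⊆
        (((range q).filter (fun k : ℕ => Nat.Prime (0 + k * 1)) : Finset ℕ) : Set ℕ) := by
      rintro j ⟨-, h2, h3⟩
      rw [mem_coe, mem_filter, mem_range, zero_add, mul_one]
      exact ⟨h2, h3⟩
    have h2 := Set.ncard_le_ncard h1 (Finset.finite_toSet _)
    rwa [Set.ncard_coe_finset] at h2
  have hcq : (cn (fun j => j.Prime) q : ℝ) ≤ q := by
    have h1 := hcnq.trans (card_filter_le _ _)
    rw [card_range] at h1
    exact_mod_cast h1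
  have hq3 : (3 : ℝ) ≤ q := by linarith
  have hq2 : 2 ≤ q := by
    have : (2 : ℝ) ≤ q := by linarith
    exact_mod_cast this
  have h5 := hbt 0 1 q hq2 (Or.inl rfl)
  have h6 : c₀ * L < C * q / Real.log q := by
    refine lt_of_lt_of_le h4 (le_trans ?_ h5)
    exact_mod_cast hcnq
  have hlq : 0 < Real.log q := Real.log_pos (by linarith)
  rw [lt_div_iff₀ hlq] at h6
  have h7 : Real.log (c₀ * L) ≤ Real.log q := Real.log_le_log (by linarith) (by linarith)
  have h8 : c₀ * L * (Real.log L / 2) ≤ c₀ * L * Real.log q := by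
    apply mul_le_mul_of_nonneg_left (by linarith) (by linarith)
  have h9 : c₀ * L * (Real.log L / 2) < C * q := lt_of_le_of_lt h8 h6
  have h10 : c₀ / (4 * C) * (L * Real.log L) = (c₀ * L * (Real.log L / 2)) / (2 * C) := by
    field_simp
    ring
  rw [h10, div_lt_iff₀ (by positivity)]
  nlinarith

end Pool.Agent.TH685.Gen
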