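import Pool.Agent.TH685.TI.Cs

set_option autoImplicit false
set_option maxHeartbeats 1000000

/-! # A positive proportion of the integers are sums of an almost missing integer and a very small one -/

namespace Pool.Agent.TH685.TI

open Finset Filter Pool.Agent.H373R2.T7 Pool.Agent.W123.RP
open Pool.Agent.Results.MP_3509fd_nt.NeighboursOfAlmostMissing (AlmostMissing many)

/-- sums over the differences of a set, in terms of the numbers of pairs with given difference -/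
lemma sum_offDiag_le (S : Finset ℕ) (Y : ℕ) (hS : ∀ a ∈ S, ∀ b ∈ S, a ≠ b → Nat.dist a b ∈ Icc 1 Y)
    (F : ℕ → ℝ) (hF : ∀ n, 0 ≤ F n) :
    ∑ z ∈ S.offDiag, F (Nat.dist z.1 z.2) ≤
      ∑ h ∈ Icc 1 Y, 2 * (F h * (#(S.filter (fun m => m + h ∈ S)) : ℝ)) := by
  classical
  have hmap : ∀ z ∈ S.offDiag, Nat.dist z.1 z.2 ∈ Icc 1 Y := by
    intro z hz
    rw [mem_offDiag] at hz
    exact hS _ hz.1 _ hz.2.1 hz.2.2
  rw [← Finset.sum_fiberwise_of_maps_to hmap]
  apply Finset.sum_le_sum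
  intro h hh
  have h1 : ∑ z ∈ S.offDiag.filter (fun z => Nat.dist z.1 z.2 = h), F (Nat.dist z.1 z.2) =
      #(S.offDiag.filter (fun z => Nat.dist z.1 z.2 = h)) * F h := by
    rw [← nsmul_eq_mul, ← Finset.sum_const]
    apply Finset.sum_congr rfl
    intro z hz
    rw [(mem_filter.1 hz).2]
  rw [h1]
  have h2 : #(S.offDiag.filter (fun z => Nat.dist z.1 z.2 = h)) ≤
      2 * #(S.filter (fun m => m + h ∈ S)) := by
    have h3 : S.offDiag.filter (fun z => Nat.dist z.1 z.2 = h) ⊆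
        (S.filter (fun m => m + h ∈ S)).image (fun m => (m, m + h)) ∪
        (S.filter (fun m => m + h ∈ S)).image (fun m => (m + h, m)) := by
      intro z hz
      rw [mem_filter, mem_offDiag] at hz
      obtain ⟨⟨hz1, hz2, hz3⟩, hz4⟩ := hz
      rw [mem_union, mem_image, mem_image]
      rcases lt_or_gt_of_ne hz3 with hlt | hlt
      · left
        have e : Nat.dist z.1 z.2 = z.2 - z.1 := Nat.dist_eq_sub_of_le hlt.le
        have e2 : z.1 + h = z.2 := by omega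
        refine ⟨z.1, ?_, ?_⟩
        · rw [mem_filter, e2]
          exact ⟨hz1, hz2⟩
        · rw [e2]
      · right
        have e : Nat.dist z.1 z.2 = z.1 - z.2 := Nat.dist_eq_sub_of_le_right hlt.le
        have e2 : z.2 + h = z.1 := by omega
        refine ⟨z.2, ?_, ?_⟩
        · rw [mem_filter, e2]
          exact ⟨hz2, hz1⟩
        · rw [e2]
    have h4 := (card_le_card h3).trans (card_union_le _ _)
    have h5 := card_image_le (s := S.filter (fun m => m + h ∈ S)) (f := fun m => (m, m + h))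
    have h6 := card_image_le (s := S.filter (fun m => m + h ∈ S)) (f := fun m => (m + h, m))
    omega
  have h3 : (#(S.offDiag.filter (fun z => Nat.dist z.1 z.2 = h)) : ℝ) ≤
      2 * (#(S.filter (fun m => m + h ∈ S)) : ℝ) := by exact_mod_cast h2
  calc (#(S.offDiag.filter (fun z => Nat.dist z.1 z.2 = h)) : ℝ) * F h ≤
        (2 * (#(S.filter (fun m => m + h ∈ S)) : ℝ)) * F h := mul_le_mul_of_nonneg_right h3 (hF h)
    _ = _ := by ring

lemma ev_L2 : ∀ᶠ L : ℝ in atTop, Real.log L ^ 2 ≤ L ∧ 2 * L ^ 3 ≤ Real.exp L := by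
  have h1 := (Real.isLittleO_pow_log_id_atTop (n := 2)).bound (by norm_num : (0 : ℝ) < 1)
  have h2 := (Real.tendsto_exp_div_pow_atTop 3).eventually_ge_atTop 2
  filter_upwards [h1, h2, eventually_ge_atTop 1] with L h h2 hL
  have hl : 0 ≤ Real.log L := Real.log_nonneg hL
  rw [Real.norm_of_nonneg (by positivity)] at h
  simp only [id] at h
  rw [Real.norm_of_nonneg (by linarith), one_mul] at h
  refine ⟨h, ?_⟩
  rw [le_div_iff₀ (by positivity)] at h2
  linarith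

lemma exp_two_le (Y : ℝ) (hY : 1 ≤ Y) : (3 * Y + 1) * Real.exp 2 ≤ 32 * Y := by
  have he : Real.exp 2 ≤ 8 := by
    have h7 := Real.exp_one_lt_d9
    have h8 : Real.exp 2 = Real.exp 1 ^ 2 := by
      rw [← Real.exp_nat_mul]; norm_num
    have h9 := Real.exp_pos 1
    rw [h8]
    nlinarith
  have : (3 * Y + 1) * Real.exp 2 ≤ (4 * Y) * 8 := by
    apply mul_le_mul (by linarith) he (Real.exp_pos 2).le (by linarith)
  linarith

open Classical in
/-- **A positive proportion of the integers** are sums of an almost missing integer and of one of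
the size `(log X)² (log log X)²`. -/
theorem sums_pos : ∃ r : ℕ, 2 ≤ r ∧ ∃ c : ℝ, 0 < c ∧ ∃ X₀ : ℕ, ∀ X : ℕ, X₀ ≤ X →
    ∃ Y : ℕ, 12 ≤ Y ∧ (Y : ℝ) ≤ Real.log X ^ 2 * Real.log (Real.log X) ^ 2 ∧ 2 * Y ≤ X ∧
    ∃ I : Finset ℕ, (∀ n ∈ I, ∃ k m : ℕ, k + m = n ∧ X < k ∧ k ≤ 2 * X ∧ AlmostMissing r X k ∧
      Y < m ∧ m ≤ 2 * Y ∧ AlmostMissing r Y m) ∧ c * X ≤ #I := by
  obtain ⟨r1, hr1, hpair⟩ := pair_bound
  obtain ⟨r2, hr2, hmany⟩ := many
  refine ⟨max r1 r2, hr1.trans (le_max_left _ _), ?_⟩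
  obtain ⟨C, hC, X₁, hpair⟩ := hpair (max r1 r2) (le_max_left _ _)
  obtain ⟨κ, hκ, hmany⟩ := hmany (max r1 r2) (le_max_right _ _)
  obtain ⟨r, hr⟩ : ∃ r : ℕ, r = max r1 r2 := ⟨_, rfl⟩
  rw [← hr] at hpair hmany ⊢
  obtain ⟨X₂, hmany⟩ := eventually_atTop.1 hmany
  obtain ⟨W, hW⟩ : ∃ W : ℝ, W = Real.log (12 : ℕ) ^ 2 := ⟨_, rfl⟩
  have hW0 : 0 ≤ W := by rw [hW]; positivity
  obtain ⟨c1, hc1⟩ : ∃ c1 : ℝ, c1 = κ ^ 2 / 32 := ⟨_, rfl⟩
  have hc10 : 0 < c1 := by rw [hc1]; positivity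
  obtain ⟨C2, hC2⟩ : ∃ C2 : ℝ, C2 = C * W * (64 * C * W) := ⟨_, rfl⟩
  have hC20 : 0 ≤ C2 := by rw [hC2]; positivity
  refine ⟨c1 / (1 + C2 / c1), by positivity, ?_⟩
  have hlogt : Tendsto (fun x : ℕ => Real.log (x : ℝ)) atTop atTop :=
    Real.tendsto_log_atTop.comp tendsto_natCast_atTop_atTop
  have hl1 := Real.tendsto_log_atTop
  have ev : ∀ᶠ L : ℝ in atTop, (Real.log L ^ 2 ≤ L ∧ 2 * L ^ 3 ≤ Real.exp L) ∧
      3 ≤ Real.log L ∧ (X₁ : ℝ) + X₂ + 12 ≤ L := by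
    filter_upwards [ev_L2, hl1.eventually_ge_atTop 3, eventually_ge_atTop ((X₁ : ℝ) + X₂ + 12)]
      with L h1 h2 h3
    exact ⟨h1, h2, h3⟩
  obtain ⟨X₀, hX₀⟩ := eventually_atTop.mp ((hlogt.eventually ev).and
    ((eventually_ge_atTop (max X₁ X₂)).and (eventually_ge_atTop 10)))
  refine ⟨X₀, fun X hX => ?_⟩
  obtain ⟨⟨⟨f1, f1'⟩, f2, f3⟩, hXX, hX10⟩ := hX₀ X hX
  have hXX₁ : X₁ ≤ X := (le_max_left _ _).trans hXX
  have hXX₂ : X₂ ≤ X := (le_max_right _ _).trans hXX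
  have hXr : (10 : ℝ) ≤ X := by exact_mod_cast hX10
  have hXpos : (0 : ℝ) < X := by linarith
  have hexp : Real.exp (Real.log X) = X := Real.exp_log hXpos
  rw [hexp] at f1'
  have hpairX := hpair X hXX₁
  have hK := hmany X hXX₂
  obtain ⟨L, hL⟩ : ∃ L : ℝ, L = Real.log (X : ℝ) := ⟨_, rfl⟩
  rw [← hL] at f1 f1' f2 f3 hK hpairX ⊢
  have hX10' : (0 : ℝ) ≤ X₁ := Nat.cast_nonneg _
  have hX20' : (0 : ℝ) ≤ X₂ := Nat.cast_nonneg _
  have hL12 : (12 : ℝ) ≤ L := by linarith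
  have hLpos : 0 < L := by linarith
  obtain ⟨l, hl⟩ : ∃ l : ℝ, l = Real.log L := ⟨_, rfl⟩
  rw [← hl] at f1 f2 ⊢
  have hlpos : 0 < l := by linarith
  obtain ⟨Y, hY⟩ : ∃ Y : ℕ, Y = ⌊L ^ 2 * l ^ 2⌋₊ := ⟨_, rfl⟩
  have hYle : (Y : ℝ) ≤ L ^ 2 * l ^ 2 := by
    rw [hY]; exact Nat.floor_le (by positivity)
  have hl9 : 9 ≤ l ^ 2 := by
    calc (9 : ℝ) = 3 ^ 2 := by norm_num
      _ ≤ l ^ 2 := pow_le_pow_left₀ (by norm_num) f2 2
  have hL144 : 144 ≤ L ^ 2 := by
    calc (144 : ℝ) = 12 ^ 2 := by norm_num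
      _ ≤ L ^ 2 := pow_le_pow_left₀ (by norm_num) hL12 2
  have hLl : L ^ 2 * 9 ≤ L ^ 2 * l ^ 2 := mul_le_mul_of_nonneg_left hl9 (by positivity)
  have hYge : L ^ 2 * l ^ 2 / 2 ≤ Y := by
    have := Nat.lt_floor_add_one (L ^ 2 * l ^ 2)
    rw [← hY] at this
    linarith
  have hLL : L * 12 ≤ L * L := mul_le_mul_of_nonneg_left hL12 hLpos.le
  have hLL' : L * L = L ^ 2 := by ring
  have hYL : L ≤ Y := by linarith
  have hY12 : 12 ≤ Y := by
    have : (12 : ℝ) ≤ Y := by linarith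
    exact_mod_cast this
  have hYX₁ : X₁ ≤ Y := by
    have : (X₁ : ℝ) ≤ Y := by linarith
    exact_mod_cast this
  have hYX₂ : X₂ ≤ Y := by
    have : (X₂ : ℝ) ≤ Y := by linarith
    exact_mod_cast this
  have hYL3 : (Y : ℝ) ≤ L ^ 3 := by
    calc (Y : ℝ) ≤ L ^ 2 * l ^ 2 := hYle
      _ ≤ L ^ 2 * L := mul_le_mul_of_nonneg_left f1 (by positivity)
      _ = L ^ 3 := by ring
  have hYX : 2 * Y ≤ X := by
    have : 2 * (Y : ℝ) ≤ X := by linarith
    exact_mod_cast this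
  have hYpos : (0 : ℝ) < Y := by linarith
  have hlogY : Real.log Y ≤ 3 * l := by
    have : Real.log Y ≤ Real.log (L ^ 3) := Real.log_le_log hYpos hYL3
    rw [Real.log_pow, ← hl] at this
    exact_mod_cast this
  have hlogY1 : l ≤ Real.log Y := by
    rw [hl]
    exact Real.log_le_log hLpos hYL
  have hlogY0 : 0 < Real.log Y := by linarith
  -- the sets
  obtain ⟨K, hKd⟩ : ∃ K : Finset ℕ, K = (Ioc X (2 * X)).filter (fun m => AlmostMissing r X m) :=
    ⟨_, rfl⟩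
  rw [← hKd] at hK
  have hS := hmany Y hYX₂
  obtain ⟨S, hSd⟩ : ∃ S : Finset ℕ, S = (Ioc Y (2 * Y)).filter (fun m => AlmostMissing r Y m) :=
    ⟨_, rfl⟩
  rw [← hSd] at hS
  have hSL : κ * L ^ 2 / 32 ≤ #S := by
    refine le_trans ?_ hS
    rw [div_le_div_iff₀ (by norm_num) (by positivity)]
    have h1 : Real.log Y ^ 2 ≤ 9 * l ^ 2 := by
      have := pow_le_pow_left₀ hlogY0.le hlogY 2
      calc Real.log Y ^ 2 ≤ (3 * l) ^ 2 := this
        _ = 9 * l ^ 2 := by ring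
    calc κ * L ^ 2 * Real.log Y ^ 2 ≤ κ * L ^ 2 * (9 * l ^ 2) :=
          mul_le_mul_of_nonneg_left h1 (by positivity)
      _ = κ * (18 * (L ^ 2 * l ^ 2 / 2)) := by ring
      _ ≤ κ * (18 * Y) := by gcongr
      _ ≤ κ * Y * 32 := by
        have : 0 ≤ κ * Y := by positivity
        linarith
  -- pairs in `S`
  have hsumS : ∑ z ∈ S.offDiag, g3 12 (Nat.dist z.1 z.2) ≤ 64 * C * W * L ^ 4 := by
    have h1 := sum_offDiag_le S Y (by
      intro a ha b hb hab
      rw [hSd, mem_filter, mem_Ioc] at ha hb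
      rw [mem_Icc]
      have h2 := Nat.dist_pos_of_ne hab
      have h3 : Nat.dist a b ≤ Y := by
        unfold Nat.dist
        omega
      exact ⟨h2, h3⟩) (g3 12) (fun n => by linarith [one_le_g3 12 n])
    refine h1.trans ?_
    have h2 : ∀ h ∈ Icc 1 Y, 2 * (g3 12 h * (#(S.filter (fun m => m + h ∈ S)) : ℝ)) ≤
        2 * C * W * (Y / Real.log Y ^ 4) * g3 12 h ^ 2 := by
      intro h hh
      have hg := one_le_g3 12 h
      have h3 : (#(S.filter (fun m => m + h ∈ S)) : ℝ) ≤ C * (Y / Real.log Y ^ 4) * (W * g3 12 h) := by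
        have h4 := hpair Y hYX₁ 12 h (by norm_num) (mem_Icc.1 hh).1
        rw [← hW] at h4
        refine le_trans ?_ h4
        have : #(S.filter (fun m => m + h ∈ S)) ≤ ((Ioc Y (2 * Y)).filter
            (fun k => AlmostMissing r Y k ∧ AlmostMissing r Y (k + h))).card := by
          apply card_le_card
          intro k hk
          rw [mem_filter, hSd, mem_filter, mem_filter] at hk
          rw [mem_filter]
          exact ⟨hk.1.1, hk.1.2, hk.2.2⟩
        exact_mod_cast this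
      calc 2 * (g3 12 h * (#(S.filter (fun m => m + h ∈ S)) : ℝ)) ≤
            2 * (g3 12 h * (C * (Y / Real.log Y ^ 4) * (W * g3 12 h))) := by gcongr
        _ = _ := by ring
    refine (Finset.sum_le_sum h2).trans ?_
    rw [← Finset.mul_sum]
    have h3 := (moment_g3 12 2 Y (by norm_num) (by norm_num)).trans
      (exp_two_le Y (by linarith))
    have h4 : (Y : ℝ) ^ 2 / Real.log Y ^ 4 ≤ L ^ 4 := by
      rw [div_le_iff₀ (by positivity)]
      have h5 : (Y : ℝ) ^ 2 ≤ (L ^ 2 * l ^ 2) ^ 2 := pow_le_pow_left₀ hYpos.le hYle 2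
      have h6 : l ^ 4 ≤ Real.log Y ^ 4 := pow_le_pow_left₀ hlpos.le hlogY1 4
      calc (Y : ℝ) ^ 2 ≤ (L ^ 2 * l ^ 2) ^ 2 := h5
        _ = L ^ 4 * l ^ 4 := by ring
        _ ≤ L ^ 4 * Real.log Y ^ 4 := mul_le_mul_of_nonneg_left h6 (by positivity)
    calc 2 * C * W * (Y / Real.log Y ^ 4) * ∑ h ∈ Icc 1 Y, g3 12 h ^ 2 ≤
          2 * C * W * (Y / Real.log Y ^ 4) * (32 * Y) :=
          mul_le_mul_of_nonneg_left h3 (by positivity)
      _ = 64 * C * W * ((Y : ℝ) ^ 2 / Real.log Y ^ 4) := by ring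
      _ ≤ 64 * C * W * L ^ 4 := mul_le_mul_of_nonneg_left h4 (by positivity)
  have hsum : ∑ z ∈ S.offDiag, (#(K.filter (fun k => k + Nat.dist z.1 z.2 ∈ K)) : ℝ) ≤ C2 * X := by
    have h1 : ∀ z ∈ S.offDiag, (#(K.filter (fun k => k + Nat.dist z.1 z.2 ∈ K)) : ℝ) ≤
        C * (X / L ^ 4) * (W * g3 12 (Nat.dist z.1 z.2)) := by
      intro z hz
      rw [mem_offDiag] at hz
      have hd : 1 ≤ Nat.dist z.1 z.2 := Nat.dist_pos_of_ne hz.2.2
      have h4 := hpairX 12 (Nat.dist z.1 z.2) (by norm_num) hd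
      rw [← hW] at h4
      refine le_trans ?_ h4
      have : #(K.filter (fun k => k + Nat.dist z.1 z.2 ∈ K)) ≤ ((Ioc X (2 * X)).filter
          (fun k => AlmostMissing r X k ∧ AlmostMissing r X (k + Nat.dist z.1 z.2))).card := by
        apply card_le_card
        intro k hk
        rw [mem_filter, hKd, mem_filter, mem_filter] at hk
        rw [mem_filter]
        exact ⟨hk.1.1, hk.1.2, hk.2.2⟩
      exact_mod_cast this
    refine (Finset.sum_le_sum h1).trans ?_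
    rw [← Finset.mul_sum, ← Finset.mul_sum]
    calc C * (X / L ^ 4) * (W * ∑ z ∈ S.offDiag, g3 12 (Nat.dist z.1 z.2)) ≤
          C * (X / L ^ 4) * (W * (64 * C * W * L ^ 4)) := by gcongr
      _ = C2 * X := by
        rw [hC2]
        field_simp
  have hcs := cs K S
  obtain ⟨I, hI⟩ : ∃ I : Finset ℕ, I = (S ×ˢ K).image (fun z => z.1 + z.2) := ⟨_, rfl⟩
  rw [← hI] at hcs
  obtain ⟨t, ht⟩ : ∃ t : ℝ, t = (#S : ℝ) * #K := ⟨_, rfl⟩
  rw [← ht] at hcs
  have ht1 : c1 * X ≤ t := by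
    rw [ht]
    calc c1 * X = (κ * L ^ 2 / 32) * (κ * X / L ^ 2) := by
          rw [hc1]
          field_simp
      _ ≤ (#S : ℝ) * #K := mul_le_mul hSL hK (by positivity) (Nat.cast_nonneg _)
  have htpos : 0 < t := lt_of_lt_of_le (by positivity) ht1
  refine ⟨Y, hY12, hYle, hYX, I, ?_, ?_⟩
  · intro n hn
    rw [hI, mem_image] at hn
    obtain ⟨z, hz, rfl⟩ := hn
    rw [mem_product, hKd, hSd, mem_filter, mem_filter, mem_Ioc, mem_Ioc] at hz
    exact ⟨z.2, z.1, by omega, hz.2.1.1, hz.2.1.2, hz.2.2, hz.1.1.1, hz.1.1.2, hz.1.2⟩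
  · have h1 : t ^ 2 ≤ #I * (t * (1 + C2 / c1)) := by
      refine hcs.trans ?_
      apply mul_le_mul_of_nonneg_left _ (Nat.cast_nonneg _)
      have h2 : C2 * X ≤ t * (C2 / c1) := by
        calc C2 * X = (c1 * X) * (C2 / c1) := by field_simp
          _ ≤ t * (C2 / c1) := mul_le_mul_of_nonneg_right ht1 (by positivity)
      calc t + ∑ z ∈ S.offDiag, (#(K.filter (fun k => k + Nat.dist z.1 z.2 ∈ K)) : ℝ)
          ≤ t + t * (C2 / c1) := by linarith
        _ = t * (1 + C2 / c1) := by ring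
    have h2 : t ≤ #I * (1 + C2 / c1) := by
      have h3 : t * t ≤ t * (#I * (1 + C2 / c1)) := by
        calc t * t = t ^ 2 := by ring
          _ ≤ #I * (t * (1 + C2 / c1)) := h1
          _ = t * (#I * (1 + C2 / c1)) := by ring
      exact le_of_mul_le_mul_left h3 htpos
    have h4 : 0 < 1 + C2 / c1 := by positivity
    rw [div_mul_eq_mul_div, div_le_iff₀ h4]
    linarith

end Pool.Agent.TH685.TI
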