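import Pool.Agent.W38.PRb
import Pool.Agent.W735.DP.Sieve

set_option autoImplicit false
set_option maxHeartbeats 1000000

/-! # Indices of twin primes below `m` -/

namespace Pool.Agent.TH685.TI

open Finset

/-- the indices `j < m` with `p_j + 2` prime, `p_j` the `j`-th prime -/
noncomputable def tw (m : ℕ) : Finset ℕ :=
  (Finset.Ico 1 m).filter (fun j => (Nat.nth Nat.Prime (j - 1) + 2).Prime)

theorem tw_le (m : ℕ) :
    (tw m).card ≤ (Pool.Agent.W735.DP.prs 2 (Nat.nth Nat.Prime (m - 1))).card := by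
  apply card_le_card_of_injOn (fun j => Nat.nth Nat.Prime (j - 1))
  · intro j hj
    rw [mem_coe, tw, mem_filter, mem_Ico] at hj
    obtain ⟨⟨h1, h2⟩, h3⟩ := hj
    rw [mem_coe, Pool.Agent.W735.DP.prs, mem_filter, mem_range]
    refine ⟨?_, Nat.prime_nth_prime _, h3⟩
    have := (Nat.nth_strictMono Nat.infinite_setOf_prime).monotone (show j - 1 ≤ m - 1 by omega)
    exact Nat.lt_succ_of_le this
  · intro i hi j hj h
    rw [mem_coe, tw, mem_filter, mem_Ico] at hi hj
    have := (Nat.nth_strictMono Nat.infinite_setOf_prime).injective h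
    omega

theorem pi_nth (m : ℕ) (hm : 1 ≤ m) :
    Nat.primeCounting (Nat.nth Nat.Prime (m - 1)) = m := by
  unfold Nat.primeCounting Nat.primeCounting'
  rw [Nat.count_succ, Nat.count_nth_of_infinite Nat.infinite_setOf_prime,
    if_pos (Nat.prime_nth_prime _)]
  omega

/-- if there are many twin prime indices below `m` then `m` is larger by a logarithm -/
theorem index_large : ∃ c : ℝ, 0 < c ∧ ∀ m : ℕ, 1 ≤ m → ∀ B : ℝ, 3 ≤ B → B < (tw m).card →
    c * (B * Real.log B) ≤ m := by
  obtain ⟨C, hC, hs⟩ := Pool.Agent.W735.DP.sieve_h 2 (by norm_num)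
  obtain ⟨c₁, hc₁, hch⟩ := Pool.Agent.W38.PR.cheb
  refine ⟨c₁ / (C + 1), by positivity, fun m hm B hB hBt => ?_⟩
  obtain ⟨q, hq⟩ : ∃ q : ℕ, q = Nat.nth Nat.Prime (m - 1) := ⟨_, rfl⟩
  have hqp : q.Prime := by rw [hq]; exact Nat.prime_nth_prime _
  have hq2 : (2 : ℝ) ≤ q := by exact_mod_cast hqp.two_le
  have h1 := tw_le m
  have h2 := pi_nth m hm
  rw [← hq] at h1 h2
  have h3 := hs q hqp.two_le
  have h4 := hch q hq2
  rw [Nat.floor_natCast, h2] at h4
  have hlq : 0 < Real.log q := Real.log_pos (by linarith)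
  have h5 : B < C * (q / Real.log q ^ 2) :=
    lt_of_lt_of_le hBt (le_trans (by exact_mod_cast h1) h3)
  have hBq : B ≤ q := by
    have h6 : (tw m).card ≤ (Pool.Agent.W735.DP.prs 2 q).card := h1
    have h7 : (Pool.Agent.W735.DP.prs 2 q).card ≤ q := by
      have : Pool.Agent.W735.DP.prs 2 q ⊆ Icc 1 q := by
        intro p hp
        rw [Pool.Agent.W735.DP.prs, mem_filter, mem_range] at hp
        rw [mem_Icc]
        exact ⟨hp.2.1.one_lt.le, by omega⟩
      have := card_le_card this
      rwa [Nat.card_Icc, Nat.add_sub_cancel] at this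
    have h8 : ((tw m).card : ℝ) ≤ q := by exact_mod_cast h6.trans h7
    linarith
  have hlB : 0 < Real.log B := Real.log_pos (by linarith)
  have h6 : Real.log B ≤ Real.log q := Real.log_le_log (by linarith) hBq
  have h7 : 0 ≤ (q : ℝ) / Real.log q ^ 2 := by positivity
  have h8 : B ≤ (C + 1) * (q / Real.log q ^ 2) := by linarith
  have h9 : B * Real.log B ≤ (C + 1) * (q / Real.log q) := by
    calc B * Real.log B ≤ ((C + 1) * (q / Real.log q ^ 2)) * Real.log q :=
          mul_le_mul h8 h6 hlB.le (by positivity)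
      _ = (C + 1) * (q / Real.log q) := by
          field_simp
  calc c₁ / (C + 1) * (B * Real.log B) ≤ c₁ / (C + 1) * ((C + 1) * (q / Real.log q)) := by gcongr
    _ = c₁ * (q / Real.log q) := by field_simp
    _ ≤ m := h4

end Pool.Agent.TH685.TI
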