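import Pool.Agent.H197R2.PG2
import Pool.Agent.TH685.TI.Index

set_option autoImplicit false
set_option maxHeartbeats 1000000

/-! # Sums `n = k + m` with `6 k ± 1` prime and few candidates `m` cover few integers `n` -/

namespace Pool.Agent.TH685.TI

open Finset Filter Pool.Agent.H197R2.PG

theorem twin_interval : ∃ C : ℝ, 0 < C ∧ ∃ X₀ : ℕ, 3 ≤ X₀ ∧ ∀ X : ℕ, X₀ ≤ X → ∀ a : ℕ,
    (((Ioc a (a + X)).filter (fun k => (6 * k - 1).Prime ∧ (6 * k + 1).Prime)).card : ℝ) ≤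
      C * (X / Real.log X ^ 2) := by
  obtain ⟨C, hC, u0, hs⟩ := pair_sieve_sharp
  have hg := one_le_gg (2 * 2)
  refine ⟨6 * (C * gg (2 * 2)), by positivity, max (max u0 (4 ^ 16)) 3, le_max_right _ _,
    fun X hX a => ?_⟩
  have hX1 : u0 ≤ X := (le_max_left _ _).trans ((le_max_left _ _).trans hX)
  have hX2 : 4 ^ 16 ≤ X := (le_max_right _ _).trans ((le_max_left _ _).trans hX)
  have hX2r : (4 : ℝ) ^ 16 ≤ X := by exact_mod_cast hX2
  have hX0 : (0 : ℝ) < X := lt_of_lt_of_le (by positivity) hX2r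
  have hX3 : (1 : ℝ) < X := lt_of_lt_of_le (by norm_num) hX2r
  have h1 := hs 2 (6 * a) (6 * X) (by norm_num) (by omega) (by
    push_cast
    have h2 : (4 : ℝ) = ((4 : ℝ) ^ (16 : ℝ)) ^ (1 / 16 : ℝ) := by
      rw [← Real.rpow_mul (by norm_num)]; norm_num
    have h3 : ((4 : ℝ) ^ (16 : ℝ)) ^ (1 / 16 : ℝ) ≤ (6 * (X : ℝ)) ^ (1 / 16 : ℝ) := by
      apply Real.rpow_le_rpow (by positivity) _ (by norm_num)
      have : (4 : ℝ) ^ (16 : ℝ) = (4 : ℝ) ^ 16 := by norm_cast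
      rw [this]
      linarith
    linarith)
  have h2 : ((Ioc a (a + X)).filter (fun k => (6 * k - 1).Prime ∧ (6 * k + 1).Prime)).card ≤
      ((Ioc (6 * a) (6 * a + 6 * X)).filter (fun n => n.Prime ∧ (n + 2).Prime)).card := by
    apply card_le_card_of_injOn (fun k => 6 * k - 1)
    · intro k hk
      rw [mem_coe, mem_filter, mem_Ioc] at hk
      show 6 * k - 1 ∈ (_ : Set ℕ)
      rw [mem_coe, mem_filter, mem_Ioc]
      refine ⟨⟨by omega, by omega⟩, hk.2.1, ?_⟩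
      have : 6 * k - 1 + 2 = 6 * k + 1 := by omega
      rw [this]
      exact hk.2.2
    · intro k hk l hl h
      rw [mem_coe, mem_filter, mem_Ioc] at hk hl
      simp only at h
      omega
  have h3 : (((Ioc a (a + X)).filter (fun k => (6 * k - 1).Prime ∧ (6 * k + 1).Prime)).card : ℝ) ≤
      C * gg (2 * 2) * ((6 * X : ℕ) : ℝ) / Real.log ((6 * X : ℕ) : ℝ) ^ 2 :=
    le_trans (by exact_mod_cast h2) h1
  have hl : 0 < Real.log X := Real.log_pos hX3
  have hl2 : Real.log X ≤ Real.log ((6 * X : ℕ) : ℝ) := by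
    apply Real.log_le_log hX0
    push_cast
    linarith
  refine h3.trans ?_
  have h4 : C * gg (2 * 2) * ((6 * X : ℕ) : ℝ) / Real.log ((6 * X : ℕ) : ℝ) ^ 2 ≤
      C * gg (2 * 2) * ((6 * X : ℕ) : ℝ) / Real.log X ^ 2 := by
    apply div_le_div_of_nonneg_left (by positivity) (by positivity)
    exact pow_le_pow_left₀ hl.le hl2 2
  refine h4.trans (le_of_eq ?_)
  push_cast
  ring

/-- the integers `n` of an interval which are of the form `k + m` with `6 k ± 1` prime and `m`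
in a finite set `S` -/
theorem cover_few : ∃ C : ℝ, 0 < C ∧ ∃ X₀ : ℕ, 3 ≤ X₀ ∧ ∀ X : ℕ, X₀ ≤ X → ∀ Y : ℕ,
    ∀ S : Finset ℕ, ∃ B : Finset ℕ, (B.card : ℝ) ≤ C * (S.card * (X / Real.log X ^ 2)) ∧
      ∀ n : ℕ, Y < n → n ≤ Y + X → n ∉ B → ∀ k m : ℕ, 1 ≤ k → k + m = n →
        (6 * k - 1).Prime → (6 * k + 1).Prime → m ∉ S := by
  obtain ⟨C, hC, X₀, hX₀, hs⟩ := twin_interval
  refine ⟨C, hC, X₀, hX₀, fun X hX Y S => ?_⟩
  refine ⟨S.biUnion (fun m => ((Ioc (Y - m) (Y - m + X)).filter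
    (fun k => (6 * k - 1).Prime ∧ (6 * k + 1).Prime)).image (fun k => k + m)), ?_, ?_⟩
  · have h1 : ((S.biUnion (fun m => ((Ioc (Y - m) (Y - m + X)).filter
        (fun k => (6 * k - 1).Prime ∧ (6 * k + 1).Prime)).image (fun k => k + m))).card : ℝ) ≤
        ∑ m ∈ S, (((Ioc (Y - m) (Y - m + X)).filter
          (fun k => (6 * k - 1).Prime ∧ (6 * k + 1).Prime)).card : ℝ) := by
      have := card_biUnion_le (s := S) (t := fun m => ((Ioc (Y - m) (Y - m + X)).filter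
        (fun k => (6 * k - 1).Prime ∧ (6 * k + 1).Prime)).image (fun k => k + m))
      have h2 : ∑ m ∈ S, (((Ioc (Y - m) (Y - m + X)).filter
          (fun k => (6 * k - 1).Prime ∧ (6 * k + 1).Prime)).image (fun k => k + m)).card ≤
          ∑ m ∈ S, ((Ioc (Y - m) (Y - m + X)).filter
            (fun k => (6 * k - 1).Prime ∧ (6 * k + 1).Prime)).card :=
        sum_le_sum fun m _ => card_image_le
      exact_mod_cast this.trans h2
    refine h1.trans ?_
    have h2 : ∑ m ∈ S, (((Ioc (Y - m) (Y - m + X)).filter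
          (fun k => (6 * k - 1).Prime ∧ (6 * k + 1).Prime)).card : ℝ) ≤
        ∑ m ∈ S, C * ((X : ℝ) / Real.log X ^ 2) := sum_le_sum fun m _ => hs X hX _
    refine h2.trans (le_of_eq ?_)
    rw [sum_const, nsmul_eq_mul]
    ring
  · intro n hn1 hn2 hnB k m hk hkm h1 h2 hm
    apply hnB
    rw [mem_biUnion]
    refine ⟨m, hm, ?_⟩
    rw [mem_image]
    refine ⟨k, ?_, hkm⟩
    rw [mem_filter, mem_Ioc]
    exact ⟨⟨by omega, by omega⟩, h1, h2⟩

end Pool.Agent.TH685.TI
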