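import Pool.Agent.TH685.TI.Pb

set_option autoImplicit false
set_option maxHeartbeats 1000000

/-! # Cauchy-Schwarz for sumsets and the upper bound for pairs -/

namespace Pool.Agent.TH685.TI

open Finset Filter Pool.Agent.H373R2.T7 Pool.Agent.W123.RP
open Pool.Agent.Results.MP_3509fd_nt.NeighboursOfAlmostMissing (AlmostMissing not_Q many)

lemma cnt_le (K : Finset ℕ) (a b : ℕ) (hab : b < a) :
    ∑ q ∈ K, #(K.filter (fun q' => b + q' = a + q)) ≤ #(K.filter (fun q => q + (a - b) ∈ K)) := by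
  classical
  rw [Finset.card_filter]
  apply Finset.sum_le_sum
  intro q _
  split_ifs with h
  · apply Finset.card_le_one.mpr
    intro u hu v hv
    have h2 := (mem_filter.mp hu).2
    have h3 := (mem_filter.mp hv).2
    omega
  · rw [Nat.le_zero, Finset.card_eq_zero, Finset.filter_eq_empty_iff]
    intro q' hq' h4
    apply h
    have h5 : q + (a - b) = q' := by omega
    rw [h5]
    exact hq'

lemma cnt_swap (K : Finset ℕ) (a b : ℕ) :
    ∑ q ∈ K, #(K.filter (fun q' => b + q' = a + q)) =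
      ∑ q ∈ K, #(K.filter (fun q' => a + q' = b + q)) := by
  classical
  simp only [Finset.card_filter]
  rw [Finset.sum_comm]
  apply Finset.sum_congr rfl
  intro q _
  apply Finset.sum_congr rfl
  intro q' _
  simp only [eq_comm]

lemma cnt_self (K : Finset ℕ) (a : ℕ) :
    ∑ q ∈ K, #(K.filter (fun q' => a + q' = a + q)) ≤ #K := by
  classical
  rw [Finset.card_eq_sum_ones]
  apply Finset.sum_le_sum
  intro q _
  apply Finset.card_le_one.mpr
  intro u hu v hv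
  have h2 := (mem_filter.mp hu).2
  have h3 := (mem_filter.mp hv).2
  omega

theorem cs (K S : Finset ℕ) :
    ((#S : ℝ) * #K) ^ 2 ≤ #((S ×ˢ K).image (fun z => z.1 + z.2)) * ((#S : ℝ) * #K +
      ∑ z ∈ S.offDiag, (#(K.filter (fun k => k + Nat.dist z.1 z.2 ∈ K)) : ℝ)) := by
  classical
  obtain ⟨Pairs, hPairs⟩ : ∃ P : Finset (ℕ × ℕ), P = S ×ˢ K := ⟨_, rfl⟩
  obtain ⟨f, hf⟩ : ∃ f : ℕ × ℕ → ℕ, f = fun z => z.1 + z.2 := ⟨_, rfl⟩
  obtain ⟨I, hI⟩ : ∃ I : Finset ℕ, I = Pairs.image f := ⟨_, rfl⟩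
  obtain ⟨r, hr⟩ : ∃ r : ℕ → ℕ, r = fun m => #(Pairs.filter (fun z => f z = m)) := ⟨_, rfl⟩
  have hcardP : #Pairs = ∑ m ∈ I, r m := by
    rw [hI, hr]
    exact Finset.card_eq_sum_card_image f Pairs
  have hcardP' : (#Pairs : ℝ) = (#S : ℝ) * #K := by
    rw [hPairs, Finset.card_product]
    push_cast
    rfl
  have hCS : (#Pairs : ℝ) ^ 2 ≤ #I * ∑ m ∈ I, (r m : ℝ) ^ 2 := by
    rw [hcardP]
    push_cast
    exact sq_sum_le_card_mul_sum_sq
  have hmom : ∑ m ∈ I, (r m : ℝ) ^ 2 ≤ (#S : ℝ) * #K +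
      ∑ z ∈ S.offDiag, (#(K.filter (fun k => k + Nat.dist z.1 z.2 ∈ K)) : ℝ) := by
    have e1 : ∑ m ∈ I, (r m) ^ 2 = ∑ z ∈ Pairs, r (f z) := by
      rw [Finset.sum_comp r f, hI]
      apply Finset.sum_congr rfl
      intro m _
      rw [smul_eq_mul, sq, hr]
    have e2 : ∑ z ∈ Pairs, r (f z) = ∑ a ∈ S, ∑ b ∈ S,
        ∑ q ∈ K, #(K.filter (fun q' => b + q' = a + q)) := by
      rw [hPairs, Finset.sum_product]
      apply Finset.sum_congr rfl
      intro a _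
      rw [Finset.sum_comm]
      apply Finset.sum_congr rfl
      intro q _
      simp only [hr, hf, Finset.card_filter, hPairs]
      rw [Finset.sum_product]
    have e3 : ∑ a ∈ S, ∑ b ∈ S, ∑ q ∈ K, #(K.filter (fun q' => b + q' = a + q)) =
        ∑ z ∈ S ×ˢ S, ∑ q ∈ K, #(K.filter (fun q' => z.2 + q' = z.1 + q)) := by
      rw [Finset.sum_product]
    have e4 : ∑ z ∈ S ×ˢ S, ∑ q ∈ K, #(K.filter (fun q' => z.2 + q' = z.1 + q)) =
        ∑ z ∈ S.diag, ∑ q ∈ K, #(K.filter (fun q' => z.2 + q' = z.1 + q)) +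
        ∑ z ∈ S.offDiag, ∑ q ∈ K, #(K.filter (fun q' => z.2 + q' = z.1 + q)) := by
      rw [← Finset.diag_union_offDiag, Finset.sum_union (Finset.disjoint_diag_offDiag S)]
    have e5 : ∑ z ∈ S.diag, ∑ q ∈ K, #(K.filter (fun q' => z.2 + q' = z.1 + q)) ≤ #S * #K := by
      rw [← Finset.diag_card S, ← smul_eq_mul, ← Finset.sum_const]
      apply Finset.sum_le_sum
      intro z hz
      rw [Finset.mem_diag] at hz
      rw [← hz.2]
      exact cnt_self K z.1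
    have e6 : ∀ z ∈ S.offDiag, ∑ q ∈ K, #(K.filter (fun q' => z.2 + q' = z.1 + q)) ≤
        #(K.filter (fun k => k + Nat.dist z.1 z.2 ∈ K)) := by
      intro z hz
      rw [mem_offDiag] at hz
      rcases lt_or_gt_of_ne hz.2.2 with h | h
      · have e : Nat.dist z.1 z.2 = z.2 - z.1 := Nat.dist_eq_sub_of_le h.le
        rw [e, cnt_swap]
        exact cnt_le K z.2 z.1 h
      · have e : Nat.dist z.1 z.2 = z.1 - z.2 := Nat.dist_eq_sub_of_le_right h.le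
        rw [e]
        exact cnt_le K z.1 z.2 h
    have e7 : ∑ m ∈ I, (r m : ℝ) ^ 2 = ((∑ m ∈ I, (r m) ^ 2 : ℕ) : ℝ) := by push_cast; rfl
    rw [e7, e1, e2, e3, e4]
    have e8 := Finset.sum_le_sum e6
    exact_mod_cast Nat.add_le_add e5 e8
  have hmom0 : 0 ≤ ∑ m ∈ I, (r m : ℝ) ^ 2 := Finset.sum_nonneg (fun _ _ => by positivity)
  rw [← hcardP']
  have hI' : (S ×ˢ K).image (fun z => z.1 + z.2) = I := by rw [hI, hPairs, hf]
  rw [hI']
  refine hCS.trans ?_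
  rw [hcardP']
  exact mul_le_mul_of_nonneg_left hmom (Nat.cast_nonneg _)

open Classical in
/-- the upper bound for pairs of almost missing integers -/
theorem pair_bound : ∃ r0 : ℕ, 2 ≤ r0 ∧ ∀ r : ℕ, r0 ≤ r → ∃ C : ℝ, 1 ≤ C ∧ ∃ X₀ : ℕ, ∀ X : ℕ,
    X₀ ≤ X → ∀ w h : ℕ, 3 ≤ w → 1 ≤ h →
    (((Ioc X (2 * X)).filter (fun k => AlmostMissing r X k ∧ AlmostMissing r X (k + h))).card : ℝ) ≤
      C * (X / Real.log X ^ 4) * (Real.log w ^ 2 * g3 w h) := by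
  obtain ⟨K1, x0, hK1, hfund⟩ := sys_fund (2 * 2) (by omega) 1 one_pos
  obtain ⟨C1, hC1, hprod⟩ := prod_two
  obtain ⟨Cv, hCv, hV⟩ := Vq_upper Twin.Q 2 3 (fun p hp h => (Twin.nuB_eq p hp h).ge)
  refine ⟨max K1 2, le_max_right _ _, fun r hr => ?_⟩
  have hr2 : 2 ≤ r := (le_max_right _ _).trans hr
  have hrK : K1 ≤ r := (le_max_left _ _).trans hr
  have hrpos : (0 : ℝ) < r := by exact_mod_cast (by omega : 0 < r)
  obtain ⟨C2, hC2⟩ : ∃ C2 : ℝ, C2 = Cv * (2 * r) ^ 2 := ⟨_, rfl⟩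
  have hC2pos : 0 < C2 := by rw [hC2]; positivity
  refine ⟨4 * C1 * C2 ^ 2 + 1, ?_, ?_⟩
  · have : 0 ≤ 4 * C1 * C2 ^ 2 := by positivity
    linarith
  have hXr : Tendsto (fun X : ℕ => (X : ℝ)) atTop atTop := tendsto_natCast_atTop_atTop
  have hlogt : Tendsto (fun X : ℕ => Real.log (X : ℝ)) atTop atTop :=
    Real.tendsto_log_atTop.comp hXr
  have hpow : Tendsto (fun X : ℕ => (X : ℝ) ^ (1 / (2 * r : ℝ))) atTop atTop :=
    (tendsto_rpow_atTop (by positivity)).comp hXr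
  have hlp : ∀ᶠ X : ℕ in atTop, Real.log X ^ 16 ≤ X := by
    have h := ((isLittleO_log_rpow_rpow_atTop ((16 : ℕ) : ℝ) (by norm_num : (0 : ℝ) < 1)).comp_tendsto
      hXr).bound (by norm_num : (0 : ℝ) < 1)
    filter_upwards [h, eventually_ge_atTop 1] with X hX hX1
    have hX1' : (1 : ℝ) ≤ X := by exact_mod_cast hX1
    have hl := Real.log_nonneg hX1'
    simp only [Function.comp_def, Real.rpow_natCast, Real.rpow_one, one_mul] at hX
    rw [Real.norm_of_nonneg (by positivity), Real.norm_of_nonneg (by positivity)] at hX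
    exact hX
  obtain ⟨X₀, hX₀⟩ := eventually_atTop.1 (((hlogt.eventually_ge_atTop 2).and
    (hpow.eventually_ge_atTop ((x0 : ℝ) + 2))).and (hlp.and (eventually_ge_atTop 3)))
  refine ⟨X₀, fun X hX w h hw hh => ?_⟩
  obtain ⟨⟨hlog2, hxp⟩, hl16, hX3⟩ := hX₀ X hX
  have hX3r : (3 : ℝ) ≤ X := by exact_mod_cast hX3
  have hx00 : (0 : ℝ) ≤ x0 := Nat.cast_nonneg _
  obtain ⟨y, hy⟩ : ∃ y : ℕ, y = ⌊(X : ℝ) ^ (1 / (r : ℝ))⌋₊ := ⟨_, rfl⟩
  obtain ⟨hy1, hy2, -, hy4⟩ := Pool.Agent.W123.RU.level_low r hr2 X (by omega) (by linarith)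
  rw [← hy] at hy1 hy2 hy4
  have hyx0 : x0 ≤ y := by
    have : (x0 : ℝ) ≤ y := by linarith
    exact_mod_cast this
  have hyr : (y : ℝ) ^ r ≤ X := by
    have h1 : (y : ℝ) ≤ (X : ℝ) ^ (1 / (r : ℝ)) := by
      rw [hy]
      exact Nat.floor_le (by positivity)
    calc (y : ℝ) ^ r ≤ ((X : ℝ) ^ (1 / (r : ℝ))) ^ r := pow_le_pow_left₀ (Nat.cast_nonneg _) h1 r
      _ = X := by
        rw [← Real.rpow_natCast, ← Real.rpow_mul (by positivity), one_div,
          inv_mul_cancel₀ hrpos.ne', Real.rpow_one]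
  have hyK : y ^ K1 ≤ 2 * X := by
    have h1 : y ^ K1 ≤ y ^ r := Nat.pow_le_pow_right (by omega) hrK
    have h2 : y ^ r ≤ X := by exact_mod_cast hyr
    omega
  have hyX : y ≤ X := by
    have h2 : y ^ r ≤ X := by exact_mod_cast hyr
    exact (Nat.le_self_pow (by omega) y).trans h2
  have hcard : ((Ioc X (2 * X)).filter (fun k => AlmostMissing r X k ∧ AlmostMissing r X (k + h))).card ≤
      ((Icc 1 (2 * X)).filter (fun m => ∀ p ∈ pz y, ¬ Qh Twin.Q h p m)).card := by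
    apply card_le_card
    intro k hk
    rw [mem_filter, mem_Ioc] at hk
    rw [mem_filter, mem_Icc]
    refine ⟨⟨by omega, hk.1.2⟩, fun p hp => ?_⟩
    rw [hy] at hp
    unfold Qh
    rintro (h1 | h1)
    · exact not_Q r X k hk.2.1 (by rw [← hy]; omega) p hp h1
    · exact not_Q r X (k + h) hk.2.2 (by rw [← hy]; omega) p hp h1
  have hf := (abs_le.1 (hfund (2 * X) y hyx0 hyK (Qh Twin.Q h)
    (perB_Qh Twin.Q 2 Twin.perB h) (2 * X))).2
  have hp := hprod w y h hw hh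
  have hVy : Vq Twin.Q y ≤ C2 / Real.log X ^ 2 := by
    refine (hV _ hy4).trans ?_
    have h1 : (Real.log X / (2 * r)) ^ 2 ≤ Real.log y ^ 2 :=
      pow_le_pow_left₀ (by positivity) hy2 2
    have h0 : 0 < (Real.log X / (2 * r)) ^ 2 := by positivity
    calc Cv / Real.log y ^ 2 ≤ Cv / (Real.log X / (2 * r)) ^ 2 := by
          gcongr
      _ = C2 / Real.log X ^ 2 := by rw [hC2]; field_simp
  have hV0 : 0 ≤ Vq Twin.Q y := Finset.prod_nonneg fun p hp => one_sub_nonneg _ p (mem_pz.1 hp).2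
  have hV2 : Vq Twin.Q y ^ 2 ≤ C2 ^ 2 / Real.log X ^ 4 := by
    calc Vq Twin.Q y ^ 2 ≤ (C2 / Real.log X ^ 2) ^ 2 := pow_le_pow_left₀ hV0 hVy 2
      _ = C2 ^ 2 / Real.log X ^ 4 := by rw [div_pow, ← pow_mul]
  obtain ⟨G, hG⟩ : ∃ G : ℝ, G = Real.log w ^ 2 * g3 w h := ⟨_, rfl⟩
  have hG1 : 1 ≤ G := by
    have h1 := one_le_g3 w h
    have h2 : 1 ≤ Real.log w := by
      rw [Real.le_log_iff_exp_le (by positivity)]
      have := Real.exp_one_lt_d9
      have : (3 : ℝ) ≤ w := by exact_mod_cast hw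
      linarith
    have h3 : 1 ≤ Real.log w ^ 2 := one_le_pow₀ h2
    rw [hG]
    nlinarith
  rw [← hG] at hp ⊢
  obtain ⟨L, hL⟩ : ∃ L : ℝ, L = Real.log X := ⟨_, rfl⟩
  rw [← hL] at hlog2 hl16 hV2 ⊢
  have hsq : √((2 * X : ℕ) : ℝ) ≤ X / L ^ 4 := by
    rw [Real.sqrt_le_left (by positivity)]
    push_cast
    rw [div_pow, ← pow_mul, le_div_iff₀ (by positivity)]
    have h1 : 2 * L ^ (4 * 2) ≤ L ^ 16 := by
      have h2 : (2 : ℝ) ≤ L ^ 8 := by
        calc (2 : ℝ) ≤ 2 ^ 8 := by norm_num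
          _ ≤ L ^ 8 := pow_le_pow_left₀ (by norm_num) hlog2 8
      have h3 : L ^ 16 = L ^ 8 * L ^ 8 := by ring
      have h4 : L ^ (4 * 2) = L ^ 8 := by norm_num
      rw [h3, h4]
      have h5 : 0 ≤ L ^ 8 := by positivity
      nlinarith
    have h6 : 2 * L ^ (4 * 2) ≤ X := h1.trans hl16
    nlinarith
  obtain ⟨P, hP⟩ : ∃ P : ℝ, P = ∏ p ∈ pz y, (1 - (nuB (Qh Twin.Q h) p : ℝ) / p) := ⟨_, rfl⟩
  rw [← hP] at hf hp
  have hP1 : P ≤ C1 * (C2 ^ 2 / L ^ 4 * G) := by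
    refine hp.trans ?_
    apply mul_le_mul_of_nonneg_left _ (by linarith)
    apply mul_le_mul_of_nonneg_right hV2 (by linarith)
  have hcard' : (((Ioc X (2 * X)).filter
      (fun k => AlmostMissing r X k ∧ AlmostMissing r X (k + h))).card : ℝ) ≤
      (((Icc 1 (2 * X)).filter (fun m => ∀ p ∈ pz y, ¬ Qh Twin.Q h p m)).card : ℝ) := by
    exact_mod_cast hcard
  have hpos : 0 < X / L ^ 4 := by positivity
  have hfin : (((Icc 1 (2 * X)).filter (fun m => ∀ p ∈ pz y, ¬ Qh Twin.Q h p m)).card : ℝ) ≤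
      2 * ((2 * X : ℕ) : ℝ) * P + √((2 * X : ℕ) : ℝ) := by
    linarith
  refine hcard'.trans (hfin.trans ?_)
  push_cast
  push_cast at hsq
  calc 2 * (2 * (X : ℝ)) * P + √(2 * (X : ℝ)) ≤
        2 * (2 * (X : ℝ)) * (C1 * (C2 ^ 2 / L ^ 4 * G)) + X / L ^ 4 * G := by
        have h1 : 2 * (2 * (X : ℝ)) * P ≤ 2 * (2 * (X : ℝ)) * (C1 * (C2 ^ 2 / L ^ 4 * G)) :=
          mul_le_mul_of_nonneg_left hP1 (by positivity)
        have h2 : √(2 * (X : ℝ)) ≤ X / L ^ 4 * G := by nlinarith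
        linarith
    _ = (4 * C1 * C2 ^ 2 + 1) * (X / L ^ 4) * G := by ring

end Pool.Agent.TH685.TI
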