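import Pool.Agent.H197R2.PG6
import Pool.Agent.Helper601.BT

set_option autoImplicit false
set_option maxHeartbeats 1000000

/-! # Even numbers as sums of a prime and a very small odd square -/

namespace Pool.Agent.TH685.Sq

open Finset Filter Pool.Agent.H197R2.PG

lemma one_le_pp (s : Finset ℕ) : (1 : ℝ) ≤ ∏ p ∈ s, (1 + 1 / (p : ℝ)) := by
  classical
  induction s using Finset.induction_on with
  | empty => simp
  | insert a s ha ih =>
    rw [Finset.prod_insert ha]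
    have h2 : (1 : ℝ) ≤ 1 + 1 / (a : ℝ) := by
      have : (0 : ℝ) ≤ 1 / (a : ℝ) := by positivity
      linarith
    calc (1 : ℝ) = 1 * 1 := by ring
      _ ≤ _ := mul_le_mul h2 ih (by norm_num) (by linarith)

lemma gg_mul_le (a b : ℕ) (ha : 0 < a) (hb : 0 < b) : gg (a * b) ≤ gg a * gg b := by
  classical
  unfold gg
  rw [Nat.primeFactors_mul ha.ne' hb.ne']
  have h1 := Finset.prod_union_inter (s₁ := a.primeFactors) (s₂ := b.primeFactors)
    (f := fun p : ℕ => (1 + 1 / (p : ℝ)))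
  have h2 := one_le_pp (a.primeFactors ∩ b.primeFactors)
  have h3 := one_le_pp (a.primeFactors ∪ b.primeFactors)
  rw [← h1]
  nlinarith

lemma moment_two : ∃ C : ℝ, 1 ≤ C ∧ ∀ Y : ℕ, ∑ h ∈ Icc 1 Y, gg h ^ 2 ≤ C * Y := by
  obtain ⟨C, hC, hE⟩ := euler_le
  have hl3 : 1 ≤ Real.log ((3 : ℕ) : ℝ) := by
    rw [Real.le_log_iff_exp_le (by norm_num)]
    have := Real.exp_one_lt_d9
    push_cast
    linarith
  refine ⟨(C * Real.log ((3 : ℕ) : ℝ)) ^ 3, ?_, fun Y => ?_⟩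
  · apply one_le_pow₀
    nlinarith
  · have h1 : ∑ h ∈ Icc 1 Y, gg h ^ 2 ≤ ∑ h ∈ Icc 1 Y, gg h ^ 3 := by
      apply Finset.sum_le_sum
      intro h _
      exact pow_le_pow_right₀ (one_le_gg h) (by norm_num)
    refine h1.trans ((moment_le 3 Y).trans ?_)
    rw [mul_comm]
    exact mul_le_mul_of_nonneg_right (hE 3 Y le_rfl) (Nat.cast_nonneg _)

lemma dist_sq (a b : ℕ) : Nat.dist (a ^ 2) (b ^ 2) = Nat.dist a b * (a + b) := by
  rcases le_total a b with h | h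
  · have h2 : a ^ 2 ≤ b ^ 2 := Nat.pow_le_pow_left h 2
    rw [Nat.dist_eq_sub_of_le h, Nat.dist_eq_sub_of_le h2]
    obtain ⟨d, rfl⟩ := Nat.exists_eq_add_of_le h
    have e1 : a + d - a = d := by omega
    rw [e1]
    have e2 : (a + d) ^ 2 = a ^ 2 + d * (a + (a + d)) := by ring
    rw [e2]
    omega
  · have h2 : b ^ 2 ≤ a ^ 2 := Nat.pow_le_pow_left h 2
    rw [Nat.dist_eq_sub_of_le_right h, Nat.dist_eq_sub_of_le_right h2]
    obtain ⟨d, rfl⟩ := Nat.exists_eq_add_of_le h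
    have e1 : b + d - b = d := by omega
    rw [e1]
    have e2 : (b + d) ^ 2 = b ^ 2 + d * (b + d + b) := by ring
    rw [e2]
    omega

/-- the singular factor over the differences of the squares of the elements of a set -/
theorem sq_avg : ∃ C : ℝ, 1 ≤ C ∧ ∀ (M : ℕ) (S : Finset ℕ), S ⊆ Icc 1 M →
    ∑ z ∈ (S.image (fun m => m ^ 2)).offDiag, gg (2 * Nat.dist z.1 z.2) ≤ C * (M : ℝ) ^ 2 := by
  classical
  obtain ⟨C, hC, hmom⟩ := moment_two
  refine ⟨3 * C, by linarith, fun M S hS => ?_⟩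
  have hcardS : (#S : ℝ) ≤ M := by
    have := card_le_card hS
    rw [Nat.card_Icc, Nat.add_sub_cancel] at this
    exact_mod_cast this
  have hinj : ∀ a b : ℕ, a ^ 2 = b ^ 2 → a = b := fun a b h =>
    (Nat.pow_left_injective (n := 2) (by norm_num)) h
  have hsub : (S.image (fun m => m ^ 2)).offDiag ⊆
      S.offDiag.image (fun z : ℕ × ℕ => (z.1 ^ 2, z.2 ^ 2)) := by
    intro z hz
    rw [mem_offDiag, mem_image, mem_image] at hz
    obtain ⟨⟨a, ha, hae⟩, ⟨b, hb, hbe⟩, hne⟩ := hz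
    rw [mem_image]
    refine ⟨(a, b), ?_, ?_⟩
    · rw [mem_offDiag]
      refine ⟨ha, hb, ?_⟩
      rintro h
      apply hne
      have h' : a = b := h
      rw [← hae, ← hbe, h']
    · exact Prod.ext hae hbe
  have h1 : ∑ z ∈ (S.image (fun m => m ^ 2)).offDiag, gg (2 * Nat.dist z.1 z.2) ≤
      ∑ z ∈ S.offDiag.image (fun z : ℕ × ℕ => (z.1 ^ 2, z.2 ^ 2)), gg (2 * Nat.dist z.1 z.2) :=
    Finset.sum_le_sum_of_subset_of_nonneg hsub (fun z _ _ => by linarith [one_le_gg (2 * Nat.dist z.1 z.2)])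
  refine h1.trans ?_
  rw [Finset.sum_image (fun z _ z' _ h => by
    have h2 := congrArg Prod.fst h
    have h3 := congrArg Prod.snd h
    exact Prod.ext (hinj _ _ h2) (hinj _ _ h3))]
  have h2 : ∀ z ∈ S.offDiag, gg (2 * Nat.dist (z.1 ^ 2) (z.2 ^ 2)) ≤
      3 / 4 * (gg (Nat.dist z.1 z.2) ^ 2 + gg (z.1 + z.2) ^ 2) := by
    intro z hz
    rw [mem_offDiag] at hz
    have hz1 := mem_Icc.1 (hS hz.1)
    have hd : 0 < Nat.dist z.1 z.2 := Nat.dist_pos_of_ne hz.2.2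
    rw [dist_sq, ← mul_assoc]
    have h3 := gg_mul_le (2 * Nat.dist z.1 z.2) (z.1 + z.2) (by omega) (by omega)
    have h4 := gg_two_mul_le _ hd
    have h5 := one_le_gg (z.1 + z.2)
    have h6 : gg (2 * Nat.dist z.1 z.2) * gg (z.1 + z.2) ≤
        3 / 2 * gg (Nat.dist z.1 z.2) * gg (z.1 + z.2) :=
      mul_le_mul_of_nonneg_right h4 (by linarith)
    nlinarith [sq_nonneg (gg (Nat.dist z.1 z.2) - gg (z.1 + z.2))]
  refine (Finset.sum_le_sum h2).trans ?_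
  rw [← Finset.mul_sum, Finset.sum_add_distrib]
  have h3 := sum_dist_le S M hS (fun n => gg n ^ 2) (fun n => sq_nonneg _)
  have h4 : ∑ z ∈ S.offDiag, gg (z.1 + z.2) ^ 2 ≤ #S * (C * ((2 * M : ℕ) : ℝ)) := by
    have h5 : ∑ z ∈ S.offDiag, gg (z.1 + z.2) ^ 2 ≤ ∑ z ∈ S ×ˢ S, gg (z.1 + z.2) ^ 2 := by
      apply Finset.sum_le_sum_of_subset_of_nonneg
      · intro z hz
        rw [mem_offDiag] at hz
        rw [mem_product]
        exact ⟨hz.1, hz.2.1⟩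
      · intro z _ _
        positivity
    refine h5.trans ?_
    rw [Finset.sum_product, ← nsmul_eq_mul, ← Finset.sum_const]
    apply Finset.sum_le_sum
    intro a ha
    have ha1 := mem_Icc.1 (hS ha)
    refine le_trans ?_ (hmom (2 * M))
    rw [← Finset.sum_image (f := fun n => gg n ^ 2) (g := fun b => a + b) (fun b _ b' _ h => by
      simp only at h
      omega)]
    apply Finset.sum_le_sum_of_subset_of_nonneg
    · intro n hn
      obtain ⟨b, hb, rfl⟩ := mem_image.1 hn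
      have hb1 := mem_Icc.1 (hS hb)
      rw [mem_Icc]
      omega
    · intro n _ _
      positivity
  have h5 := hmom M
  have hM0 : (0 : ℝ) ≤ M := Nat.cast_nonneg _
  have hC0 : 0 ≤ C := by linarith
  have h6 : 2 * (#S : ℝ) * ∑ h ∈ Icc 1 M, gg h ^ 2 ≤ 2 * M * (C * M) := by
    apply mul_le_mul (by linarith) h5
    · exact Finset.sum_nonneg fun _ _ => sq_nonneg _
    · positivity
  have h7 : (#S : ℝ) * (C * ((2 * M : ℕ) : ℝ)) ≤ M * (C * ((2 * M : ℕ) : ℝ)) :=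
    mul_le_mul_of_nonneg_right hcardS (by positivity)
  push_cast at h4 h7
  have h8 : ∑ z ∈ S.offDiag, gg (Nat.dist z.1 z.2) ^ 2 ≤ 2 * M * (C * M) := h3.trans h6
  calc 3 / 4 * (∑ z ∈ S.offDiag, gg (Nat.dist z.1 z.2) ^ 2 + ∑ z ∈ S.offDiag, gg (z.1 + z.2) ^ 2) ≤
        3 / 4 * (2 * M * (C * M) + M * (C * (2 * M))) := by linarith
    _ = 3 * C * (M : ℝ) ^ 2 := by ring

lemma ev_sq (δ : ℝ) (hδ : 0 < δ) : ∀ᶠ x : ℕ in atTop,
    2 * (δ * Real.log x) ^ 2 ≤ (x : ℝ) ^ (1 / 16 : ℝ) := by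
  have h1 := (isLittleO_log_rpow_atTop (r := 1 / 32) (by norm_num)).bound
    (show (0 : ℝ) < 1 / (2 * δ) by positivity)
  have h2 := (tendsto_natCast_atTop_atTop (R := ℝ)).eventually h1
  filter_upwards [h2, eventually_ge_atTop 1] with x hx hx1
  have hx1r : (1 : ℝ) ≤ x := by exact_mod_cast hx1
  have hx0 : (0 : ℝ) < x := by linarith
  have hl := Real.log_nonneg hx1r
  rw [Real.norm_of_nonneg hl, Real.norm_of_nonneg (by positivity)] at hx
  have h3 : δ * Real.log x ≤ (x : ℝ) ^ (1 / 32 : ℝ) / 2 := by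
    calc δ * Real.log x ≤ δ * (1 / (2 * δ) * (x : ℝ) ^ (1 / 32 : ℝ)) := by gcongr
      _ = (x : ℝ) ^ (1 / 32 : ℝ) / 2 := by field_simp
  have h4 : (x : ℝ) ^ (1 / 16 : ℝ) = ((x : ℝ) ^ (1 / 32 : ℝ)) ^ 2 := by
    rw [← Real.rpow_natCast, ← Real.rpow_mul hx0.le]
    norm_num
  rw [h4]
  have h5 : (δ * Real.log x) ^ 2 ≤ ((x : ℝ) ^ (1 / 32 : ℝ) / 2) ^ 2 :=
    pow_le_pow_left₀ (by positivity) h3 2
  nlinarith [sq_nonneg ((x : ℝ) ^ (1 / 32 : ℝ))]

/-- **A positive proportion** of the even numbers are sums of a prime and the square of a very small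
element of a given set of odd numbers of positive lower density. -/
theorem small_squares (β δ : ℝ) (hβ : 0 < β) (hδ : 0 < δ) : ∃ c : ℝ, 0 < c ∧ ∀ A : Set ℕ,
    (∀ m ∈ A, m % 2 = 1) →
    (∃ y0 : ℕ, ∀ y : ℕ, y0 ≤ y → ∃ S : Finset ℕ, S ⊆ Icc 1 y ∧ (∀ m ∈ S, m ∈ A) ∧
      β * y ≤ #S) →
    ∃ x0 : ℕ, ∀ x : ℕ, x0 ≤ x → ∃ T : Finset ℕ, T ⊆ Icc 3 x ∧ c * x ≤ #T ∧
      ∀ n ∈ T, ∃ m ∈ A, ∃ q : ℕ, q.Prime ∧ (m : ℝ) ≤ δ * Real.log x ∧ m ^ 2 + q = 2 * n := by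
  classical
  obtain ⟨C1, hC1, hsq⟩ := sq_avg
  obtain ⟨C2, hC2, u0, hsm⟩ := second_moment
  obtain ⟨c1, hc1⟩ : ∃ c1 : ℝ, c1 = β * δ / 8 := ⟨_, rfl⟩
  have hc10 : 0 < c1 := by rw [hc1]; positivity
  obtain ⟨D, hD⟩ : ∃ D : ℝ, D = C2 * C1 * δ ^ 2 := ⟨_, rfl⟩
  have hD0 : 0 < D := by rw [hD]; positivity
  refine ⟨c1 / (1 + D / c1), by positivity, fun A hA hd => ?_⟩
  obtain ⟨y0, hd⟩ := hd
  have hlogt : Tendsto (fun x : ℕ => Real.log (x : ℝ)) atTop atTop :=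
    Real.tendsto_log_atTop.comp tendsto_natCast_atTop_atTop
  obtain ⟨x0, hx0⟩ := eventually_atTop.mp ((hlogt.eventually_ge_atTop
    (max ((y0 + 2) / δ) (max 1 (8 / (β * δ))))).and ((ev_sq δ hδ).and
      (QQ_card.and ((eventually_ge_atTop u0).and (eventually_ge_atTop 10)))))
  refine ⟨x0, fun x hx => ?_⟩
  obtain ⟨hLbig, hx16, hQ, hxu, hx10⟩ := hx0 x hx
  obtain ⟨L, hL⟩ : ∃ L : ℝ, L = Real.log (x : ℝ) := ⟨_, rfl⟩
  rw [← hL] at hLbig hx16 hQ ⊢
  have hL1 : (y0 + 2) / δ ≤ L := (le_max_left _ _).trans hLbig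
  have hL2 : 1 ≤ L := (le_max_left _ _).trans ((le_max_right _ _).trans hLbig)
  have hL3 : 8 / (β * δ) ≤ L := (le_max_right _ _).trans ((le_max_right _ _).trans hLbig)
  rw [div_le_iff₀ hδ] at hL1
  rw [div_le_iff₀ (by positivity)] at hL3
  have hxpos : (0 : ℝ) < x := by exact_mod_cast (by omega : 0 < x)
  obtain ⟨M, hM⟩ : ∃ M : ℕ, M = ⌊δ * L⌋₊ := ⟨_, rfl⟩
  have hMle : (M : ℝ) ≤ δ * L := by rw [hM]; exact Nat.floor_le (by positivity)
  have hMge : δ * L - 1 ≤ M := by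
    have := Nat.lt_floor_add_one (δ * L)
    rw [← hM] at this
    linarith
  have hy00 : (0 : ℝ) ≤ y0 := Nat.cast_nonneg _
  have hMy0 : y0 ≤ M := by
    have : (y0 : ℝ) ≤ M := by linarith
    exact_mod_cast this
  have hMhalf : δ * L / 2 ≤ M := by linarith
  obtain ⟨S0, hS0, hS0A, hS0c⟩ := hd M hMy0
  obtain ⟨S, hS⟩ : ∃ S : Finset ℕ, S = S0.erase 1 := ⟨_, rfl⟩
  have hSc : (#S0 : ℝ) - 1 ≤ #S := by
    have h1 := Finset.pred_card_le_card_erase (s := S0) (a := 1)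
    rw [← hS] at h1
    have h2 : (#S0 : ℝ) ≤ #S + 1 := by
      have : #S0 ≤ #S + 1 := by omega
      exact_mod_cast this
    linarith
  have hSM : S ⊆ Icc 1 M := by
    rw [hS]
    exact (erase_subset _ _).trans hS0
  have hSA : ∀ m ∈ S, m ∈ A ∧ m ≠ 1 := by
    intro m hm
    rw [hS, mem_erase] at hm
    exact ⟨hS0A m hm.2, hm.1⟩
  have hSlow : β * δ * L / 4 ≤ #S := by
    have h1 : β * (δ * L / 2) ≤ #S0 := le_trans (mul_le_mul_of_nonneg_left hMhalf hβ.le) hS0c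
    have h2 : 8 ≤ β * δ * L := by linarith
    linarith
  -- the squares
  obtain ⟨Q, hQd⟩ : ∃ Q : Finset ℕ, Q = S.image (fun m => m ^ 2) := ⟨_, rfl⟩
  have hQcard : #Q = #S := by
    rw [hQd]
    exact card_image_of_injective _ (Nat.pow_left_injective (n := 2) (by norm_num))
  have hQsub : Q ⊆ Icc 1 (M ^ 2) := by
    intro a ha
    rw [hQd, mem_image] at ha
    obtain ⟨m, hm, rfl⟩ := ha
    have := mem_Icc.1 (hSM hm)
    rw [mem_Icc]
    exact ⟨Nat.one_le_pow _ _ this.1, Nat.pow_le_pow_left this.2 2⟩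
  have hQodd : ∀ a ∈ Q, 3 ≤ a ∧ a % 2 = 1 := by
    intro a ha
    rw [hQd, mem_image] at ha
    obtain ⟨m, hm, rfl⟩ := ha
    obtain ⟨h1, h2⟩ := hSA m hm
    have h3 := hA m h1
    have h4 : 3 ≤ m := by omega
    refine ⟨?_, ?_⟩
    · calc 3 ≤ m := h4
        _ ≤ m ^ 2 := Nat.le_self_pow (by norm_num) m
    · rw [Nat.pow_mod, h3]
  have hYx : 2 * ((M ^ 2 : ℕ) : ℝ) ≤ (x : ℝ) ^ (1 / 16 : ℝ) := by
    push_cast
    refine le_trans ?_ hx16
    have := pow_le_pow_left₀ (Nat.cast_nonneg M) hMle 2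
    linarith
  have hmain := hsm x (M ^ 2) Q hxu hYx hQsub hQodd
  have havg := hsq M S hSM
  rw [← hQd] at havg
  rw [← hL, hQcard] at hmain
  obtain ⟨t, ht⟩ : ∃ t : ℝ, t = (#S : ℝ) * #(QQ x) := ⟨_, rfl⟩
  rw [← ht] at hmain
  have ht1 : c1 * x ≤ t := by
    rw [ht, hc1]
    calc β * δ / 8 * x = (β * δ * L / 4) * (x / (2 * L)) := by
          field_simp
          norm_num
      _ ≤ (#S : ℝ) * #(QQ x) := mul_le_mul hSlow hQ (by positivity) (Nat.cast_nonneg _)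
  have htpos : 0 < t := lt_of_lt_of_le (by positivity) ht1
  have hZ : C2 * (∑ z ∈ Q.offDiag, gg (2 * Nat.dist z.1 z.2)) * x / L ^ 2 ≤ D * x := by
    have h1 : C2 * (∑ z ∈ Q.offDiag, gg (2 * Nat.dist z.1 z.2)) * x / L ^ 2 ≤
        C2 * (C1 * (δ * L) ^ 2) * x / L ^ 2 := by
      have h2 : (M : ℝ) ^ 2 ≤ (δ * L) ^ 2 := pow_le_pow_left₀ (Nat.cast_nonneg M) hMle 2
      have h3 : ∑ z ∈ Q.offDiag, gg (2 * Nat.dist z.1 z.2) ≤ C1 * (δ * L) ^ 2 :=
        havg.trans (mul_le_mul_of_nonneg_left h2 (by linarith))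
      gcongr
    refine h1.trans (le_of_eq ?_)
    rw [hD]
    field_simp
  refine ⟨RR Q x, ?_, ?_, ?_⟩
  · unfold RR
    exact Finset.filter_subset _ _
  · have h1 : t ^ 2 ≤ #(RR Q x) * (t * (1 + D / c1)) := by
      refine hmain.trans ?_
      apply mul_le_mul_of_nonneg_left _ (Nat.cast_nonneg _)
      have h2 : D * x ≤ t * (D / c1) := by
        calc D * x = (c1 * x) * (D / c1) := by field_simp
          _ ≤ t * (D / c1) := mul_le_mul_of_nonneg_right ht1 (by positivity)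
      calc t + C2 * (∑ z ∈ Q.offDiag, gg (2 * Nat.dist z.1 z.2)) * x / L ^ 2
          ≤ t + t * (D / c1) := by linarith
        _ = t * (1 + D / c1) := by ring
    have h2 : t ≤ #(RR Q x) * (1 + D / c1) := by
      have h3 : t * t ≤ t * (#(RR Q x) * (1 + D / c1)) := by
        calc t * t = t ^ 2 := by ring
          _ ≤ #(RR Q x) * (t * (1 + D / c1)) := h1
          _ = t * (#(RR Q x) * (1 + D / c1)) := by ring
      exact le_of_mul_le_mul_left h3 htpos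
    have h4 : 0 < 1 + D / c1 := by positivity
    rw [div_mul_eq_mul_div, div_le_iff₀ h4]
    linarith
  · intro n hn
    unfold RR at hn
    obtain ⟨a, ha, q, hq, hqa⟩ := (mem_filter.mp hn).2
    rw [hQd, mem_image] at ha
    obtain ⟨m, hm, rfl⟩ := ha
    have h1 := mem_Icc.1 (hSM hm)
    refine ⟨m, (hSA m hm).1, q, hq, ?_, hqa⟩
    have h2 : (m : ℝ) ≤ M := by exact_mod_cast h1.2
    linarith

end Pool.Agent.TH685.Sq
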