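import Pool.Agent.TH685.TI.PairSig
import Pool.Agent.TH685.TI.Sq
import Pool.Agent.TH685.TI.Sum2

set_option autoImplicit false
set_option maxHeartbeats 1000000

/-! # The singular factor over the differences of the values of a monic quadratic polynomial at primes -/

namespace Pool.Agent.TH685.FAvg

open Finset Pool.Agent.H197R2.PG
open Pool.Agent.TH685.PairSig (pair_bound)
open Pool.Agent.TH685.Sq (gg_mul_le)

lemma moment_four : ∃ C : ℝ, 1 ≤ C ∧ ∀ Y : ℕ, ∑ h ∈ Icc 1 Y, gg h ^ 4 ≤ C * Y := by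
  obtain ⟨C, hC, hE⟩ := euler_le
  have hl3 : 1 ≤ Real.log ((4 : ℕ) : ℝ) := by
    rw [Real.le_log_iff_exp_le (by norm_num)]
    have := Real.exp_one_lt_d9
    push_cast
    linarith
  refine ⟨(C * Real.log ((4 : ℕ) : ℝ)) ^ 4, ?_, fun Y => ?_⟩
  · apply one_le_pow₀
    nlinarith
  · refine (moment_le 4 Y).trans ?_
    rw [mul_comm]
    exact mul_le_mul_of_nonneg_right (hE 4 Y (by norm_num)) (Nat.cast_nonneg _)

/-- differences of primes -/
theorem avg_diff : ∃ C : ℝ, 1 ≤ C ∧ ∀ (M : ℕ) (S : Finset ℕ), 2 ≤ M → (∀ p ∈ S, p.Prime ∧ p ≤ M) →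
    ∑ z ∈ S.offDiag, gg (Nat.dist z.1 z.2) ^ 2 ≤ C * (M / Real.log M) ^ 2 := by
  classical
  obtain ⟨K, hK, hpair⟩ := pair_bound
  obtain ⟨C, hC, hmom⟩ := moment_four
  refine ⟨2 * (K * C), by nlinarith, fun M S hM hS => ?_⟩
  have hMr : (2 : ℝ) ≤ M := by exact_mod_cast hM
  have hl : 0 < Real.log M := Real.log_pos (by linarith)
  have h1 := Pool.Agent.TH685.TI.sum_offDiag_le S M (fun a ha b hb hab => by
    have h2 := (hS a ha).2
    have h3 := (hS b hb).2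
    rw [mem_Icc]
    refine ⟨Nat.dist_pos_of_ne hab, ?_⟩
    rcases le_total a b with h | h
    · rw [Nat.dist_eq_sub_of_le h]; omega
    · rw [Nat.dist_eq_sub_of_le_right h]; omega) (fun n => gg n ^ 2) (fun n => sq_nonneg _)
  refine h1.trans ?_
  have h2 : ∀ h ∈ Icc 1 M, 2 * (gg h ^ 2 * (#(S.filter (fun m => m + h ∈ S)) : ℝ)) ≤
      2 * (K * (M / Real.log M ^ 2)) * gg h ^ 4 := by
    intro h hh
    rw [mem_Icc] at hh
    have h3 := hpair M hM 1 (Or.inl rfl) h hh.1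
    have h4 : ((S.filter (fun m => m + h ∈ S) : Finset ℕ) : Set ℕ) ⊆
        {t : ℕ | t ≤ M ∧ t.Prime ∧ (Int.natAbs (1 * t + h)).Prime} := by
      intro t ht
      rw [mem_coe, mem_filter] at ht
      refine ⟨(hS t ht.1).2, (hS t ht.1).1, ?_⟩
      have e : Int.natAbs (1 * (t : ℤ) + h) = t + h := by omega
      rw [e]
      exact (hS _ ht.2).1
    have h5 := Set.ncard_le_ncard h4 ((Set.finite_Iic M).subset (fun t ht => ht.1))
    rw [Set.ncard_coe_finset] at h5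
    have h6 : (#(S.filter (fun m => m + h ∈ S)) : ℝ) ≤ K * (M / Real.log M ^ 2) * gg h ^ 2 :=
      le_trans (by exact_mod_cast h5) h3
    have hg : 0 ≤ gg h ^ 2 := sq_nonneg _
    calc 2 * (gg h ^ 2 * (#(S.filter (fun m => m + h ∈ S)) : ℝ)) ≤
          2 * (gg h ^ 2 * (K * (M / Real.log M ^ 2) * gg h ^ 2)) := by gcongr
      _ = _ := by ring
  refine (Finset.sum_le_sum h2).trans ?_
  rw [← Finset.mul_sum]
  have h3 := hmom M
  calc 2 * (K * (M / Real.log M ^ 2)) * ∑ h ∈ Icc 1 M, gg h ^ 4 ≤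
        2 * (K * (M / Real.log M ^ 2)) * (C * M) := by gcongr
    _ = 2 * (K * C) * (M / Real.log M) ^ 2 := by field_simp

/-- sums of two primes, shifted -/
theorem avg_sum : ∃ C : ℝ, 1 ≤ C ∧ ∀ (b : ℤ) (M : ℕ) (S : Finset ℕ), 2 ≤ M → b.natAbs ≤ M →
    (∀ p ∈ S, p.Prime ∧ p ≤ M ∧ b.natAbs < p) →
    ∑ z ∈ S.offDiag, gg ((z.1 + z.2 + b : ℤ).toNat) ^ 2 ≤ C * (M / Real.log M) ^ 2 := by
  classical
  obtain ⟨K, hK, hpair⟩ := pair_bound
  obtain ⟨C, hC, hmom⟩ := moment_four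
  refine ⟨K * (5 * C), by nlinarith, fun b M S hM hbM hS => ?_⟩
  have hMr : (2 : ℝ) ≤ M := by exact_mod_cast hM
  have hl : 0 < Real.log M := Real.log_pos (by linarith)
  obtain ⟨U, hU⟩ : ∃ U : Finset ℕ, U = (Icc 1 (2 * M)).filter (fun s : ℕ => 0 < (s : ℤ) + b) := ⟨_, rfl⟩
  have hmap : ∀ z ∈ S.offDiag, z.1 + z.2 ∈ U := by
    intro z hz
    rw [mem_offDiag] at hz
    obtain ⟨h1, h2, -⟩ := hz
    have h3 := hS _ h1
    have h4 := hS _ h2
    have h5 := h3.1.pos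
    rw [hU, mem_filter, mem_Icc]
    refine ⟨⟨by omega, by omega⟩, ?_⟩
    push_cast
    omega
  rw [← Finset.sum_fiberwise_of_maps_to hmap]
  have h1 : ∀ s ∈ U, ∑ z ∈ S.offDiag.filter (fun z => z.1 + z.2 = s),
      gg ((z.1 + z.2 + b : ℤ).toNat) ^ 2 ≤
      K * (M / Real.log M ^ 2) * (gg ((s + b : ℤ).toNat) ^ 4 + gg s ^ 4) := by
    intro s hs
    rw [hU, mem_filter, mem_Icc] at hs
    have h2 : ∑ z ∈ S.offDiag.filter (fun z => z.1 + z.2 = s), gg ((z.1 + z.2 + b : ℤ).toNat) ^ 2 =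
        #(S.offDiag.filter (fun z => z.1 + z.2 = s)) * gg ((s + b : ℤ).toNat) ^ 2 := by
      rw [← nsmul_eq_mul, ← Finset.sum_const]
      apply Finset.sum_congr rfl
      intro z hz
      have e := (mem_filter.1 hz).2
      rw [← e]
      push_cast
      rfl
    have h3 := hpair M hM (-1) (Or.inr rfl) s hs.1.1
    have h4 : #(S.offDiag.filter (fun z => z.1 + z.2 = s)) ≤
        Set.ncard {t : ℕ | t ≤ M ∧ t.Prime ∧ (Int.natAbs (-1 * t + s)).Prime} := by
      have h5 : (((S.offDiag.filter (fun z => z.1 + z.2 = s)).image (fun z => z.1) : Finset ℕ) : Set ℕ) ⊆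
          {t : ℕ | t ≤ M ∧ t.Prime ∧ (Int.natAbs (-1 * t + s)).Prime} := by
        intro t ht
        rw [mem_coe, mem_image] at ht
        obtain ⟨z, hz, rfl⟩ := ht
        rw [mem_filter, mem_offDiag] at hz
        obtain ⟨⟨hz1, hz2, -⟩, hz4⟩ := hz
        refine ⟨(hS _ hz1).2.1, (hS _ hz1).1, ?_⟩
        have e : Int.natAbs (-1 * (z.1 : ℤ) + s) = z.2 := by omega
        rw [e]
        exact (hS _ hz2).1
      have h6 := Set.ncard_le_ncard h5 ((Set.finite_Iic M).subset (fun t ht => ht.1))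
      rw [Set.ncard_coe_finset] at h6
      refine le_trans (le_of_eq ?_) h6
      rw [card_image_of_injOn]
      intro z hz z' hz' hzz
      rw [mem_coe, mem_filter] at hz hz'
      have hzz' : z.1 = z'.1 := hzz
      have e1 := hz.2
      have e2 := hz'.2
      exact Prod.ext hzz' (by omega)
    have h5 : (#(S.offDiag.filter (fun z => z.1 + z.2 = s)) : ℝ) ≤
        K * (M / Real.log M ^ 2) * gg s ^ 2 := le_trans (by exact_mod_cast h4) h3
    rw [h2]
    have hg : 0 ≤ gg ((s + b : ℤ).toNat) ^ 2 := sq_nonneg _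
    calc (#(S.offDiag.filter (fun z => z.1 + z.2 = s)) : ℝ) * gg ((s + b : ℤ).toNat) ^ 2 ≤
          (K * (M / Real.log M ^ 2) * gg s ^ 2) * gg ((s + b : ℤ).toNat) ^ 2 :=
          mul_le_mul_of_nonneg_right h5 hg
      _ = K * (M / Real.log M ^ 2) * (gg s ^ 2 * gg ((s + b : ℤ).toNat) ^ 2) := by ring
      _ ≤ K * (M / Real.log M ^ 2) * (gg ((s + b : ℤ).toNat) ^ 4 + gg s ^ 4) := by
          apply mul_le_mul_of_nonneg_left _ (by positivity)
          nlinarith [sq_nonneg (gg s ^ 2 - gg ((s + b : ℤ).toNat) ^ 2),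
            sq_nonneg (gg s ^ 2), sq_nonneg (gg ((s + b : ℤ).toNat) ^ 2)]
  refine (Finset.sum_le_sum h1).trans ?_
  rw [← Finset.mul_sum, Finset.sum_add_distrib]
  have h2 : ∑ s ∈ U, gg s ^ 4 ≤ C * ((2 * M : ℕ) : ℝ) := by
    refine le_trans ?_ (hmom (2 * M))
    apply Finset.sum_le_sum_of_subset_of_nonneg
    · rw [hU]; exact filter_subset _ _
    · intro s _ _; positivity
  have h3 : ∑ s ∈ U, gg ((s + b : ℤ).toNat) ^ 4 ≤ C * ((3 * M : ℕ) : ℝ) := by
    refine le_trans ?_ (hmom (3 * M))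
    rw [← Finset.sum_image (f := fun n => gg n ^ 4) (g := fun s : ℕ => ((s : ℤ) + b).toNat)
      (fun s hs s' hs' h => by
        rw [mem_coe, hU, mem_filter] at hs hs'
        have h' : ((s : ℤ) + b).toNat = ((s' : ℤ) + b).toNat := h
        omega)]
    apply Finset.sum_le_sum_of_subset_of_nonneg
    · intro n hn
      obtain ⟨s, hs, rfl⟩ := mem_image.1 hn
      rw [hU, mem_filter, mem_Icc] at hs
      rw [mem_Icc]
      omega
    · intro n _ _; positivity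
  push_cast at h2 h3
  calc K * (M / Real.log M ^ 2) * (∑ s ∈ U, gg ((s + b : ℤ).toNat) ^ 4 + ∑ s ∈ U, gg s ^ 4) ≤
        K * (M / Real.log M ^ 2) * (5 * C * M) := by
        apply mul_le_mul_of_nonneg_left _ (by positivity)
        linarith
    _ = K * (5 * C) * (M / Real.log M) ^ 2 := by field_simp

/-- the value plus one -/
def u (b c : ℤ) (p : ℕ) : ℕ := ((p : ℤ) ^ 2 + b * p + c + 1).toNat

lemma u_cast (b c : ℤ) (p : ℕ) (hp : b.natAbs + c.natAbs + 3 ≤ p) :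
    ((u b c p : ℕ) : ℤ) = (p : ℤ) ^ 2 + b * p + c + 1 ∧ 3 ≤ u b c p := by
  have h1 : (3 : ℤ) ≤ (p : ℤ) ^ 2 + b * p + c + 1 := by
    have h2 : -(b.natAbs : ℤ) ≤ b := by omega
    have h3 : -(c.natAbs : ℤ) ≤ c := by omega
    have h4 : (b.natAbs : ℤ) + c.natAbs + 3 ≤ p := by exact_mod_cast hp
    have h5 : (0 : ℤ) ≤ p := by positivity
    have h6 : -(b.natAbs : ℤ) * p ≤ b * p := mul_le_mul_of_nonneg_right h2 h5
    have h7 : (0 : ℤ) ≤ c.natAbs := by positivity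
    have h8 : (0 : ℤ) ≤ b.natAbs := by positivity
    have h9 : (c.natAbs + 3 : ℤ) * p ≤ (p - b.natAbs) * p :=
      mul_le_mul_of_nonneg_right (by linarith) h5
    nlinarith
  unfold u
  constructor
  · rw [Int.toNat_of_nonneg (by linarith)]
  · omega

lemma u_dist (b c : ℤ) (p q : ℕ) (hp : b.natAbs + c.natAbs + 3 ≤ p)
    (hq : b.natAbs + c.natAbs + 3 ≤ q) :
    Nat.dist (u b c p) (u b c q) = Nat.dist p q * (p + q + b : ℤ).toNat := by
  have key : ∀ p q : ℕ, b.natAbs + c.natAbs + 3 ≤ p → b.natAbs + c.natAbs + 3 ≤ q → p ≤ q →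
      Nat.dist (u b c p) (u b c q) = Nat.dist p q * (p + q + b : ℤ).toNat := by
    intro p q hp hq hpq
    obtain ⟨h1, -⟩ := u_cast b c p hp
    obtain ⟨h2, -⟩ := u_cast b c q hq
    have h3 : (0 : ℤ) ≤ p + q + b := by omega
    have h4 : u b c q = Nat.dist p q * (p + q + b : ℤ).toNat + u b c p := by
      have h5 : ((u b c q : ℕ) : ℤ) =
          ((Nat.dist p q * (p + q + b : ℤ).toNat + u b c p : ℕ) : ℤ) := by
        rw [h2]
        push_cast
        rw [h1, Int.toNat_of_nonneg h3, Nat.dist_eq_sub_of_le hpq, Nat.cast_sub hpq]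
        ring
      exact_mod_cast h5
    rw [h4, Nat.dist_comm, Nat.dist_eq_sub_of_le_right (Nat.le_add_left _ _), Nat.add_sub_cancel]
  rcases le_total p q with h | h
  · exact key p q hp hq h
  · rw [Nat.dist_comm, key q p hq hp h, Nat.dist_comm]
    congr 2
    ring

/-- the average of the singular factor over the differences of the values -/
theorem avg_f : ∃ C : ℝ, 1 ≤ C ∧ ∀ (b c : ℤ) (M : ℕ) (S : Finset ℕ), 2 ≤ M → b.natAbs ≤ M →
    (∀ p ∈ S, p.Prime ∧ p ≤ M ∧ b.natAbs + c.natAbs + 3 ≤ p) →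
    ∑ z ∈ (S.image (u b c)).offDiag, gg (2 * Nat.dist z.1 z.2) ≤ C * (M / Real.log M) ^ 2 := by
  classical
  obtain ⟨C1, hC1, h1⟩ := avg_diff
  obtain ⟨C2, hC2, h2⟩ := avg_sum
  refine ⟨C1 + C2, by linarith, fun b c M S hM hbM hS => ?_⟩
  have hinj : ∀ p ∈ S, ∀ q ∈ S, u b c p = u b c q → p = q := by
    intro p hp q hq h
    have h3 := u_dist b c p q (hS p hp).2.2 (hS q hq).2.2
    rw [h, Nat.dist_self] at h3
    have h4 := (hS p hp).2.2
    have h5 := (hS q hq).2.2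
    rcases Nat.mul_eq_zero.1 h3.symm with h6 | h6
    · exact Nat.eq_of_dist_eq_zero h6
    · omega
  have hsub : (S.image (u b c)).offDiag ⊆ S.offDiag.image (fun z : ℕ × ℕ => (u b c z.1, u b c z.2)) := by
    intro z hz
    rw [mem_offDiag, mem_image, mem_image] at hz
    obtain ⟨⟨p, hp, hpe⟩, ⟨q, hq, hqe⟩, hne⟩ := hz
    rw [mem_image]
    refine ⟨(p, q), ?_, ?_⟩
    · rw [mem_offDiag]
      refine ⟨hp, hq, ?_⟩
      rintro h
      apply hne
      have h' : p = q := h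
      rw [← hpe, ← hqe, h']
    · exact Prod.ext hpe hqe
  have h3 : ∑ z ∈ (S.image (u b c)).offDiag, gg (2 * Nat.dist z.1 z.2) ≤
      ∑ z ∈ S.offDiag.image (fun z : ℕ × ℕ => (u b c z.1, u b c z.2)), gg (2 * Nat.dist z.1 z.2) :=
    Finset.sum_le_sum_of_subset_of_nonneg hsub (fun z _ _ => by
      linarith [one_le_gg (2 * Nat.dist z.1 z.2)])
  refine h3.trans ?_
  rw [Finset.sum_image (fun z hz z' hz' h => by
    rw [mem_coe, mem_offDiag] at hz hz'
    have h4 := congrArg Prod.fst h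
    have h5 := congrArg Prod.snd h
    exact Prod.ext (hinj _ hz.1 _ hz'.1 h4) (hinj _ hz.2.1 _ hz'.2.1 h5))]
  have h4 : ∀ z ∈ S.offDiag, gg (2 * Nat.dist (u b c z.1) (u b c z.2)) ≤
      gg (Nat.dist z.1 z.2) ^ 2 + gg ((z.1 + z.2 + b : ℤ).toNat) ^ 2 := by
    intro z hz
    rw [mem_offDiag] at hz
    have hz1 := (hS _ hz.1).2.2
    have hz2 := (hS _ hz.2.1).2.2
    have hd : 0 < Nat.dist z.1 z.2 := Nat.dist_pos_of_ne hz.2.2
    rw [u_dist b c _ _ hz1 hz2, ← mul_assoc]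
    have h5 := gg_mul_le (2 * Nat.dist z.1 z.2) ((z.1 + z.2 + b : ℤ).toNat) (by omega) (by omega)
    have h6 := gg_two_mul_le _ hd
    have h7 := one_le_gg ((z.1 + z.2 + b : ℤ).toNat)
    have h8 : gg (2 * Nat.dist z.1 z.2) * gg ((z.1 + z.2 + b : ℤ).toNat) ≤
        3 / 2 * gg (Nat.dist z.1 z.2) * gg ((z.1 + z.2 + b : ℤ).toNat) :=
      mul_le_mul_of_nonneg_right h6 (by linarith)
    nlinarith [sq_nonneg (gg (Nat.dist z.1 z.2) - gg ((z.1 + z.2 + b : ℤ).toNat)),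
      sq_nonneg (gg (Nat.dist z.1 z.2)), sq_nonneg (gg ((z.1 + z.2 + b : ℤ).toNat))]
  refine (Finset.sum_le_sum h4).trans ?_
  rw [Finset.sum_add_distrib]
  have h5 := h1 M S hM (fun p hp => ⟨(hS p hp).1, (hS p hp).2.1⟩)
  have h6 := h2 b M S hM hbM (fun p hp => ⟨(hS p hp).1, (hS p hp).2.1, by
    have := (hS p hp).2.2
    omega⟩)
  linarith

end Pool.Agent.TH685.FAvg
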