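import Pool.Agent.TH685.TI.FAvg

set_option autoImplicit false
set_option maxHeartbeats 1000000

/-! # A positive proportion of the odd numbers is `f(p₁) + p₂` with `p₁` very small -/

namespace Pool.Agent.TH685.FAvg

open Finset Filter Pool.Agent.H197R2.PG

lemma ev_x (P0 : ℕ) : ∀ᶠ L : ℝ in atTop, 2 * (L ^ 2 + P0) ^ 2 ≤ Real.exp (L / 16) := by
  have h1 := (Real.tendsto_exp_div_pow_atTop 4).eventually_ge_atTop (8 * 16 ^ 4)
  have h2 : Tendsto (fun L : ℝ => L / 16) atTop atTop :=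
    tendsto_id.atTop_div_const (by norm_num)
  filter_upwards [h2.eventually h1, eventually_ge_atTop ((P0 : ℝ) + 1)] with L h hL
  have hP : (0 : ℝ) ≤ P0 := Nat.cast_nonneg _
  have hLp : 0 < L := by linarith
  rw [le_div_iff₀ (by positivity)] at h
  have h3 : 8 * 16 ^ 4 * (L / 16) ^ 4 = 8 * L ^ 4 := by ring
  rw [h3] at h
  have h4 : L ^ 2 + P0 ≤ 2 * L ^ 2 := by nlinarith
  have h5 : (L ^ 2 + P0) ^ 2 ≤ (2 * L ^ 2) ^ 2 := pow_le_pow_left₀ (by positivity) h4 2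
  nlinarith

lemma ev_L (δ K0 : ℝ) (hδ : 0 < δ) : ∀ᶠ L : ℝ in atTop, K0 ≤ L ∧ 16 ≤ L ∧
    2 ≤ δ * (L * Real.log L) ∧ δ * (L * Real.log L) ≤ L ^ 2 ∧
    √L ≤ δ * (L * Real.log L) / 2 ∧ K0 ≤ δ * (L * Real.log L) / 2 := by
  have h1 := Real.isLittleO_log_id_atTop.bound (show (0 : ℝ) < 1 / δ by positivity)
  filter_upwards [h1, eventually_ge_atTop K0, eventually_ge_atTop 16,
    eventually_ge_atTop (2 / δ), eventually_ge_atTop ((2 / δ) ^ 2), eventually_ge_atTop (2 * K0 / δ)]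
    with L h1 h2 h3 h4 h5 h6
  have hl : 1 ≤ Real.log L := by
    rw [Real.le_log_iff_exp_le (by linarith)]
    have := Real.exp_one_lt_d9
    linarith
  rw [Real.norm_of_nonneg (by linarith), id, Real.norm_of_nonneg (by linarith)] at h1
  have hLL : L ≤ L * Real.log L := le_mul_of_one_le_right (by linarith) hl
  have hδL : δ * L ≤ δ * (L * Real.log L) := mul_le_mul_of_nonneg_left hLL hδ.le
  have h4' : 2 ≤ δ * L := by
    rw [div_le_iff₀ hδ] at h4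
    linarith
  have h6' : 2 * K0 ≤ δ * L := by
    rw [div_le_iff₀ hδ] at h6
    linarith
  refine ⟨h2, h3, by linarith, ?_, ?_, by linarith⟩
  · calc δ * (L * Real.log L) ≤ δ * (L * (1 / δ * L)) := by gcongr
      _ = L ^ 2 := by field_simp
  · have h7 : 2 / δ ≤ √L := by
      rw [Real.le_sqrt (by positivity) (by linarith)]
      exact h5
    rw [div_le_iff₀ hδ] at h7
    have h8 : √L * √L = L := Real.mul_self_sqrt (by linarith)
    have h9 : 0 ≤ √L := Real.sqrt_nonneg _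
    nlinarith

theorem small_f (b c : ℤ) (hbc : (b + c) % 2 = 1) (β δ : ℝ) (hβ : 0 < β) (hδ : 0 < δ) :
    ∃ c₁ : ℝ, 0 < c₁ ∧ ∀ A : Set ℕ, (∀ p ∈ A, p.Prime) →
    (∃ y0 : ℕ, ∀ y : ℕ, y0 ≤ y → ∃ S : Finset ℕ, S ⊆ Icc 1 y ∧ (∀ m ∈ S, m ∈ A) ∧
      β * (y / Real.log y) ≤ #S) →
    ∃ x0 : ℕ, ∀ x : ℕ, x0 ≤ x → ∃ T : Finset ℕ, T ⊆ Icc 3 x ∧ c₁ * x ≤ #T ∧
      ∀ n ∈ T, ∃ p ∈ A, ∃ q : ℕ, q.Prime ∧ (p : ℝ) ≤ δ * (Real.log x * Real.log (Real.log x)) ∧
        (p : ℤ) ^ 2 + b * p + c + 1 + q = 2 * n := by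
  classical
  obtain ⟨C1, hC1, havgf⟩ := avg_f
  obtain ⟨C2, hC2, u0, hsm⟩ := second_moment
  obtain ⟨c1, hc1⟩ : ∃ c1 : ℝ, c1 = β * δ / 16 := ⟨_, rfl⟩
  have hc10 : 0 < c1 := by rw [hc1]; positivity
  obtain ⟨D, hD⟩ : ∃ D : ℝ, D = C2 * C1 * (2 * δ) ^ 2 := ⟨_, rfl⟩
  have hD0 : 0 < D := by rw [hD]; positivity
  obtain ⟨P0, hP0⟩ : ∃ P0 : ℕ, P0 = b.natAbs + c.natAbs + 3 := ⟨_, rfl⟩
  refine ⟨c1 / (1 + D / c1), by positivity, fun A hA hd => ?_⟩
  obtain ⟨y0, hd⟩ := hd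
  have hlogt : Tendsto (fun x : ℕ => Real.log (x : ℝ)) atTop atTop :=
    Real.tendsto_log_atTop.comp tendsto_natCast_atTop_atTop
  obtain ⟨K0, hK0⟩ : ∃ K0 : ℝ, K0 = (y0 : ℝ) + P0 + 3 + 8 * (P0 + 1) / (β * δ) := ⟨_, rfl⟩
  obtain ⟨x0, hx0⟩ := eventually_atTop.mp ((hlogt.eventually (ev_L δ K0 hδ)).and
    ((hlogt.eventually (ev_x P0)).and
      (QQ_card.and ((eventually_ge_atTop u0).and (eventually_ge_atTop 10)))))
  refine ⟨x0, fun x hx => ?_⟩
  obtain ⟨⟨hLK, hL16, hL2, hLsq, hLs, hK⟩, hx16, hQ, hxu, hx10⟩ := hx0 x hx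
  have hxpos : (0 : ℝ) < x := by exact_mod_cast (by omega : 0 < x)
  have hexpL : Real.exp (Real.log (x : ℝ) / 16) = (x : ℝ) ^ (1 / 16 : ℝ) := by
    rw [Real.rpow_def_of_pos hxpos]
    congr 1
    ring
  rw [hexpL] at hx16
  obtain ⟨L, hL⟩ : ∃ L : ℝ, L = Real.log (x : ℝ) := ⟨_, rfl⟩
  rw [← hL] at hLK hL16 hL2 hLsq hLs hK hx16 hQ ⊢
  have hl1 : 1 ≤ Real.log L := by
    rw [Real.le_log_iff_exp_le (by linarith)]
    have := Real.exp_one_lt_d9
    linarith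
  obtain ⟨W, hW⟩ : ∃ W : ℝ, W = δ * (L * Real.log L) := ⟨_, rfl⟩
  rw [← hW] at hL2 hLsq hLs hK ⊢
  obtain ⟨M, hM⟩ : ∃ M : ℕ, M = ⌊W⌋₊ := ⟨_, rfl⟩
  have hMle : (M : ℝ) ≤ W := by rw [hM]; exact Nat.floor_le (by linarith)
  have hMge : W - 1 ≤ M := by
    have := Nat.lt_floor_add_one W
    rw [← hM] at this
    linarith
  have hMhalf : W / 2 ≤ M := by linarith
  have hy00 : (0 : ℝ) ≤ y0 := Nat.cast_nonneg _
  have hP00 : (0 : ℝ) ≤ P0 := Nat.cast_nonneg _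
  have hfr : 0 ≤ 8 * ((P0 : ℝ) + 1) / (β * δ) := by positivity
  have hMK : (y0 : ℝ) + P0 + 3 ≤ M := by linarith
  have hMy0 : y0 + P0 + 3 ≤ M := by exact_mod_cast hMK
  have hM2 : 2 ≤ M := by omega
  have hMr : (2 : ℝ) ≤ M := by exact_mod_cast hM2
  -- `log M`
  have hlM1 : Real.log M ≤ 2 * Real.log L := by
    have h1 : (M : ℝ) ≤ L ^ 2 := hMle.trans hLsq
    have h2 := Real.log_le_log (by linarith) h1
    rw [Real.log_pow] at h2
    exact_mod_cast h2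
  have hlM2 : Real.log L / 2 ≤ Real.log M := by
    rw [← Real.log_sqrt (by linarith)]
    exact Real.log_le_log (Real.sqrt_pos.2 (by linarith)) (hLs.trans hMhalf)
  have hlMpos : 0 < Real.log M := by linarith
  have hML1 : δ * L / 4 ≤ M / Real.log M := by
    rw [le_div_iff₀ hlMpos]
    calc δ * L / 4 * Real.log M ≤ δ * L / 4 * (2 * Real.log L) := by gcongr
      _ = W / 2 := by rw [hW]; ring
      _ ≤ M := hMhalf
  have hML2 : M / Real.log M ≤ 2 * δ * L := by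
    rw [div_le_iff₀ hlMpos]
    calc (M : ℝ) ≤ W := hMle
      _ = 2 * δ * L * (Real.log L / 2) := by rw [hW]; ring
      _ ≤ 2 * δ * L * Real.log M := by gcongr
  obtain ⟨S0, hS0, hS0A, hS0c⟩ := hd M (by omega)
  obtain ⟨S, hS⟩ : ∃ S : Finset ℕ, S = S0.filter (fun p => P0 ≤ p) := ⟨_, rfl⟩
  have hSc : (#S0 : ℝ) - P0 ≤ #S := by
    have h1 : #S0 ≤ #S + P0 := by
      have h2 := card_filter_add_card_filter_not (s := S0) (fun p => P0 ≤ p)
      have h3 : #(S0.filter (fun p => ¬ P0 ≤ p)) ≤ P0 := by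
        have h4 : S0.filter (fun p => ¬ P0 ≤ p) ⊆ range P0 := by
          intro p hp
          rw [mem_filter] at hp
          rw [mem_range]
          omega
        have := card_le_card h4
        rwa [card_range] at this
      rw [hS]
      omega
    have h2 : (#S0 : ℝ) ≤ #S + P0 := by exact_mod_cast h1
    linarith
  have hSP : ∀ p ∈ S, p.Prime ∧ p ≤ M ∧ b.natAbs + c.natAbs + 3 ≤ p := by
    intro p hp
    rw [hS, mem_filter] at hp
    exact ⟨hA p (hS0A p hp.1), (mem_Icc.1 (hS0 hp.1)).2, by rw [← hP0]; exact hp.2⟩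
  have hSA : ∀ p ∈ S, p ∈ A := by
    intro p hp
    rw [hS, mem_filter] at hp
    exact hS0A p hp.1
  have hSlow : β * δ * L / 8 ≤ #S := by
    have h1 : β * (δ * L / 4) ≤ #S0 := le_trans (mul_le_mul_of_nonneg_left hML1 hβ.le) hS0c
    have h2 : 8 * ((P0 : ℝ) + 1) ≤ β * δ * L := by
      have h3 : 8 * ((P0 : ℝ) + 1) / (β * δ) ≤ L := by linarith
      rw [div_le_iff₀ (by positivity)] at h3
      linarith
    linarith
  obtain ⟨Q, hQd⟩ : ∃ Q : Finset ℕ, Q = S.image (u b c) := ⟨_, rfl⟩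
  have hinj : ∀ p ∈ S, ∀ q ∈ S, u b c p = u b c q → p = q := by
    intro p hp q hq h
    have h3 := u_dist b c p q (hSP p hp).2.2 (hSP q hq).2.2
    rw [h, Nat.dist_self] at h3
    have h4 := (hSP p hp).2.2
    have h5 := (hSP q hq).2.2
    rcases Nat.mul_eq_zero.1 h3.symm with h6 | h6
    · exact Nat.eq_of_dist_eq_zero h6
    · omega
  have hQcard : #Q = #S := by
    rw [hQd]
    exact card_image_of_injOn (fun p hp q hq h => hinj p hp q hq h)
  obtain ⟨Y, hY⟩ : ∃ Y : ℕ, Y = (M + P0) ^ 2 := ⟨_, rfl⟩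
  have hQsub : Q ⊆ Icc 1 Y := by
    intro a ha
    rw [hQd, mem_image] at ha
    obtain ⟨p, hp, rfl⟩ := ha
    obtain ⟨h1, h2⟩ := u_cast b c p (hSP p hp).2.2
    rw [mem_Icc]
    refine ⟨by omega, ?_⟩
    have h3 : ((u b c p : ℕ) : ℤ) ≤ ((M + P0 : ℕ) : ℤ) ^ 2 := by
      rw [h1, hP0]
      push_cast
      have h4 : (p : ℤ) ≤ M := by exact_mod_cast (hSP p hp).2.1
      have h5 : (0 : ℤ) ≤ p := by positivity
      have h6 : b ≤ |b| := le_abs_self b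
      have h7 : c ≤ |c| := le_abs_self c
      have h8 : (0 : ℤ) ≤ |b| := abs_nonneg b
      have h9 : (0 : ℤ) ≤ |c| := abs_nonneg c
      have h10 : b * p ≤ |b| * M := by
        calc b * p ≤ |b| * p := mul_le_mul_of_nonneg_right h6 h5
          _ ≤ |b| * M := mul_le_mul_of_nonneg_left h4 h8
      have h11 : (p : ℤ) ^ 2 ≤ (M : ℤ) ^ 2 := pow_le_pow_left₀ h5 h4 2
      have h12 : (0 : ℤ) ≤ M := by positivity
      nlinarith [mul_nonneg h12 h8, mul_nonneg h12 h9, mul_nonneg h8 h9, sq_nonneg |b|, sq_nonneg |c|]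
    have h4 : ((u b c p : ℕ) : ℤ) ≤ ((Y : ℕ) : ℤ) := by
      rw [hY]
      push_cast at h3 ⊢
      exact h3
    exact_mod_cast h4
  have hQodd : ∀ a ∈ Q, 3 ≤ a ∧ a % 2 = 1 := by
    intro a ha
    rw [hQd, mem_image] at ha
    obtain ⟨p, hp, rfl⟩ := ha
    obtain ⟨h1, h2⟩ := u_cast b c p (hSP p hp).2.2
    refine ⟨h2, ?_⟩
    have h3 : p % 2 = 1 := by
      rcases (hSP p hp).1.eq_two_or_odd with h | h
      · have := (hSP p hp).2.2
        omega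
      · exact h
    obtain ⟨k, hk⟩ : ∃ k : ℤ, (p : ℤ) = 2 * k + 1 := ⟨(p : ℤ) / 2, by omega⟩
    obtain ⟨j, hj⟩ : ∃ j : ℤ, b + c = 2 * j + 1 := ⟨(b + c) / 2, by omega⟩
    have h4 : ((u b c p : ℕ) : ℤ) = 2 * (2 * k ^ 2 + 2 * k + b * k + j + 1) + 1 := by
      rw [h1, hk]
      have hc : c = 2 * j + 1 - b := by linarith
      rw [hc]
      ring
    omega
  have hYx : 2 * (Y : ℝ) ≤ (x : ℝ) ^ (1 / 16 : ℝ) := by
    rw [hY]
    push_cast
    refine le_trans ?_ hx16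
    have h1 : (M : ℝ) + P0 ≤ L ^ 2 + P0 := by linarith
    have := pow_le_pow_left₀ (by positivity) h1 2
    linarith
  have hmain := hsm x Y Q hxu hYx hQsub hQodd
  have havg := havgf b c M S hM2 (by omega) hSP
  rw [← hQd] at havg
  rw [← hL, hQcard] at hmain
  obtain ⟨t, ht⟩ : ∃ t : ℝ, t = (#S : ℝ) * #(QQ x) := ⟨_, rfl⟩
  rw [← ht] at hmain
  have hLp : 0 < L := by linarith
  have ht1 : c1 * x ≤ t := by
    rw [ht, hc1]
    calc β * δ / 16 * x = (β * δ * L / 8) * (x / (2 * L)) := by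
          field_simp
          norm_num
      _ ≤ (#S : ℝ) * #(QQ x) := mul_le_mul hSlow hQ (by positivity) (Nat.cast_nonneg _)
  have htpos : 0 < t := lt_of_lt_of_le (by positivity) ht1
  have hZ : C2 * (∑ z ∈ Q.offDiag, gg (2 * Nat.dist z.1 z.2)) * x / L ^ 2 ≤ D * x := by
    have h1 : C2 * (∑ z ∈ Q.offDiag, gg (2 * Nat.dist z.1 z.2)) * x / L ^ 2 ≤
        C2 * (C1 * (2 * δ * L) ^ 2) * x / L ^ 2 := by
      have h2 : (M / Real.log M) ^ 2 ≤ (2 * δ * L) ^ 2 := pow_le_pow_left₀ (by positivity) hML2 2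
      have h3 : ∑ z ∈ Q.offDiag, gg (2 * Nat.dist z.1 z.2) ≤ C1 * (2 * δ * L) ^ 2 :=
        havg.trans (mul_le_mul_of_nonneg_left h2 (by linarith))
      gcongr
    refine h1.trans (le_of_eq ?_)
    rw [hD]
    field_simp
  refine ⟨RR Q x, ?_, ?_, ?_⟩
  · unfold RR
    exact Finset.filter_subset _ _
  · have h1 : t ^ 2 ≤ #(RR Q x) * (t * (1 + D / c1)) := by
      refine hmain.trans ?_
      apply mul_le_mul_of_nonneg_left _ (Nat.cast_nonneg _)
      have h2 : D * x ≤ t * (D / c1) := by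
        calc D * x = (c1 * x) * (D / c1) := by field_simp
          _ ≤ t * (D / c1) := mul_le_mul_of_nonneg_right ht1 (by positivity)
      calc t + C2 * (∑ z ∈ Q.offDiag, gg (2 * Nat.dist z.1 z.2)) * x / L ^ 2
          ≤ t + t * (D / c1) := by linarith
        _ = t * (1 + D / c1) := by ring
    have h2 : t ≤ #(RR Q x) * (1 + D / c1) := by
      have h3 : t * t ≤ t * (#(RR Q x) * (1 + D / c1)) := by
        calc t * t = t ^ 2 := by ring
          _ ≤ #(RR Q x) * (t * (1 + D / c1)) := h1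
          _ = t * (#(RR Q x) * (1 + D / c1)) := by ring
      exact le_of_mul_le_mul_left h3 htpos
    have h4 : 0 < 1 + D / c1 := by positivity
    rw [div_mul_eq_mul_div, div_le_iff₀ h4]
    linarith
  · intro n hn
    unfold RR at hn
    obtain ⟨a, ha, q, hq, hqa⟩ := (mem_filter.mp hn).2
    rw [hQd, mem_image] at ha
    obtain ⟨p, hp, rfl⟩ := ha
    obtain ⟨h1, h2⟩ := u_cast b c p (hSP p hp).2.2
    refine ⟨p, hSA p hp, q, hq, ?_, ?_⟩
    · have h3 : (p : ℝ) ≤ M := by exact_mod_cast (hSP p hp).2.1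
      linarith
    · rw [← h1]
      exact_mod_cast hqa

end Pool.Agent.TH685.FAvg
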