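import Pool.Agent.TH685.TI.Index

set_option autoImplicit false
set_option maxHeartbeats 1000000

/-! # Sums of indices: a thin condition on the index of one summand -/

namespace Pool.Agent.TH685.Gen

open Finset

/-- the number of the indices `j < m` with the property `U` -/
noncomputable def cn (U : ℕ → Prop) (m : ℕ) : ℕ := Set.ncard {j : ℕ | 1 ≤ j ∧ j < m ∧ U j}

lemma fin_lt (U : ℕ → Prop) (m : ℕ) : {j : ℕ | 1 ≤ j ∧ j < m ∧ U j}.Finite :=
  (Set.finite_Iio m).subset (fun _ hj => hj.2.1)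

lemma cn_mono {U V : ℕ → Prop} (h : ∀ j, U j → V j) (m : ℕ) : cn U m ≤ cn V m :=
  Set.ncard_le_ncard (fun _ hj => ⟨hj.1, hj.2.1, h _ hj.2.2⟩) (fin_lt V m)

/-- there are few primes with the property `G` -/
def Thin (G : ℕ → Prop) : Prop := ∃ C : ℝ, 0 ≤ C ∧ ∀ x : ℕ, 2 ≤ x →
  (Set.ncard {p : ℕ | p ≤ x ∧ p.Prime ∧ G p} : ℝ) ≤ C * (x / Real.log x ^ 2)

lemma cn_le (G : ℕ → Prop) (m : ℕ) :
    cn (fun j => G (Nat.nth Nat.Prime (j - 1))) m ≤
      Set.ncard {p : ℕ | p ≤ Nat.nth Nat.Prime (m - 1) ∧ p.Prime ∧ G p} := by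
  unfold cn
  have hfin : {p : ℕ | p ≤ Nat.nth Nat.Prime (m - 1) ∧ p.Prime ∧ G p}.Finite :=
    (Set.finite_Iic (Nat.nth Nat.Prime (m - 1))).subset (fun p hp => hp.1)
  refine Set.ncard_le_ncard_of_injOn (fun j => Nat.nth Nat.Prime (j - 1)) ?_ ?_ hfin
  · rintro j ⟨h1, h2, h3⟩
    refine ⟨?_, Nat.prime_nth_prime _, h3⟩
    exact (Nat.nth_strictMono Nat.infinite_setOfPred_prime).monotone (show j - 1 ≤ m - 1 by omega)
  · rintro i ⟨hi, -, -⟩ j ⟨hj, -, -⟩ h
    have := (Nat.nth_strictMono Nat.infinite_setOfPred_prime).injective h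
    omega

theorem idx (G : ℕ → Prop) (hG : Thin G) : ∃ c : ℝ, 0 < c ∧ ∀ m : ℕ, 1 ≤ m → ∀ B : ℝ, 3 ≤ B →
    B < cn (fun j => G (Nat.nth Nat.Prime (j - 1))) m → c * (B * Real.log B) ≤ m := by
  obtain ⟨C, hC, hs⟩ := hG
  obtain ⟨c₁, hc₁, hch⟩ := Pool.Agent.W38.PR.cheb
  refine ⟨c₁ / (C + 1), by positivity, fun m hm B hB hBt => ?_⟩
  obtain ⟨q, hq⟩ : ∃ q : ℕ, q = Nat.nth Nat.Prime (m - 1) := ⟨_, rfl⟩
  have hqp : q.Prime := by rw [hq]; exact Nat.prime_nth_prime _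
  have hq2 : (2 : ℝ) ≤ q := by exact_mod_cast hqp.two_le
  have h1 := cn_le G m
  have h2 := Pool.Agent.TH685.TI.pi_nth m hm
  rw [← hq] at h1 h2
  have h3 := hs q hqp.two_le
  have h4 := hch q hq2
  rw [Nat.floor_natCast, h2] at h4
  have hlq : 0 < Real.log q := Real.log_pos (by linarith)
  have h5 : B < C * (q / Real.log q ^ 2) :=
    lt_of_lt_of_le hBt (le_trans (by exact_mod_cast h1) h3)
  have hBq : B ≤ q := by
    have h7 : Set.ncard {p : ℕ | p ≤ q ∧ p.Prime ∧ G p} ≤ q := by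
      have h8 : {p : ℕ | p ≤ q ∧ p.Prime ∧ G p} ⊆ ((Icc 1 q : Finset ℕ) : Set ℕ) := by
        rintro p ⟨hp1, hp2, -⟩
        rw [mem_coe, mem_Icc]
        exact ⟨hp2.one_lt.le, hp1⟩
      have := Set.ncard_le_ncard h8 (Finset.finite_toSet _)
      rwa [Set.ncard_coe_finset, Nat.card_Icc, Nat.add_sub_cancel] at this
    have h8 : (cn (fun j => G (Nat.nth Nat.Prime (j - 1))) m : ℝ) ≤ q := by
      exact_mod_cast h1.trans h7
    linarith
  have hlB : 0 < Real.log B := Real.log_pos (by linarith)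
  have h6 : Real.log B ≤ Real.log q := Real.log_le_log (by linarith) hBq
  have h7 : 0 ≤ (q : ℝ) / Real.log q ^ 2 := by positivity
  have h8 : B ≤ (C + 1) * (q / Real.log q ^ 2) := by linarith
  have h9 : B * Real.log B ≤ (C + 1) * (q / Real.log q) := by
    calc B * Real.log B ≤ ((C + 1) * (q / Real.log q ^ 2)) * Real.log q :=
          mul_le_mul h8 h6 hlB.le (by positivity)
      _ = (C + 1) * (q / Real.log q) := by
          field_simp
  calc c₁ / (C + 1) * (B * Real.log B) ≤ c₁ / (C + 1) * ((C + 1) * (q / Real.log q)) := by gcongr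
    _ = c₁ * (q / Real.log q) := by field_simp
    _ ≤ m := h4

/-- many indices below `m`: then `m` is large -/
theorem big (G : ℕ → Prop) (hG : Thin G) (c₀ : ℝ) (hc₀ : 0 < c₀) : ∃ c : ℝ, 0 < c ∧ ∃ X₀ : ℕ,
    ∀ X : ℕ, X₀ ≤ X → ∀ m : ℕ, 1 ≤ m →
      c₀ * Real.log X < cn (fun j => G (Nat.nth Nat.Prime (j - 1))) m →
        c * (Real.log X * Real.log (Real.log X)) < m := by
  obtain ⟨c₁, hc₁, hind⟩ := idx G hG
  refine ⟨c₁ * c₀ / 4, by positivity, ⌈Real.exp (max (max 3 (3 / c₀)) ((1 / c₀) ^ 2))⌉₊,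
    fun X hX m hm h4 => ?_⟩
  have hX1 : Real.exp (max (max 3 (3 / c₀)) ((1 / c₀) ^ 2)) ≤ X := Nat.ceil_le.1 hX
  have hL : max (max 3 (3 / c₀)) ((1 / c₀) ^ 2) ≤ Real.log X := by
    rw [← Real.log_exp (max (max 3 (3 / c₀)) ((1 / c₀) ^ 2))]
    exact Real.log_le_log (Real.exp_pos _) hX1
  obtain ⟨L, hLd⟩ : ∃ L : ℝ, L = Real.log X := ⟨_, rfl⟩
  rw [← hLd] at hL h4 ⊢
  have hL3 : 3 ≤ L := (le_max_left _ _).trans ((le_max_left _ _).trans hL)
  have hLc : 3 ≤ c₀ * L := by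
    have h1 : 3 / c₀ ≤ L := (le_max_right _ _).trans ((le_max_left _ _).trans hL)
    rw [div_le_iff₀ hc₀] at h1
    linarith
  have hLq : 1 ≤ c₀ ^ 2 * L := by
    have h1 : (1 / c₀) ^ 2 ≤ L := (le_max_right _ _).trans hL
    rw [div_pow, one_pow, div_le_iff₀ (by positivity)] at h1
    linarith
  have hl : 1 ≤ Real.log L := by
    rw [Real.le_log_iff_exp_le (by linarith)]
    have := Real.exp_one_lt_d9
    linarith
  have hlB : Real.log L / 2 ≤ Real.log (c₀ * L) := by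
    have h1 : L ≤ (c₀ * L) ^ 2 := by
      have : L * 1 ≤ L * (c₀ ^ 2 * L) := mul_le_mul_of_nonneg_left hLq (by linarith)
      nlinarith
    have h2 := Real.log_le_log (by linarith) h1
    rw [Real.log_pow] at h2
    push_cast at h2
    linarith
  have h7 := hind m hm _ hLc h4
  have h8 : c₁ * (c₀ * L * (Real.log L / 2)) ≤ c₁ * (c₀ * L * Real.log (c₀ * L)) := by gcongr
  have h10 : c₁ * (c₀ * L * (Real.log L / 2)) = 2 * (c₁ * c₀ / 4 * (L * Real.log L)) := by ring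
  have h11 : 0 < c₁ * c₀ / 4 * (L * Real.log L) := by positivity
  linarith

/-- few indices up to `X` -/
def Few (T : ℕ → Prop) : Prop := ∃ C : ℝ, 0 < C ∧ ∃ X₀ : ℕ, 3 ≤ X₀ ∧ ∀ X : ℕ, X₀ ≤ X →
  (cn T (X + 1) : ℝ) ≤ C * (X / Real.log X)

theorem few_of_thin (G : ℕ → Prop) (hG : Thin G) : Few (fun j => G (Nat.nth Nat.Prime (j - 1))) := by
  obtain ⟨c, hc, h⟩ := idx G hG
  refine ⟨4 / c + 3, by positivity, 3, le_rfl, fun X hX => ?_⟩
  by_contra hcon
  push Not at hcon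
  have hXr : (3 : ℝ) ≤ X := by exact_mod_cast hX
  have hL1 : 1 ≤ Real.log X := by
    rw [Real.le_log_iff_exp_le (by linarith)]
    have := Real.exp_one_lt_d9
    linarith
  have hLs : Real.log X ≤ √(X : ℝ) := by
    have h1 : Real.log (√(X : ℝ)) ≤ √(X : ℝ) / 2 := by
      have h2 : (0 : ℝ) < √(X : ℝ) := Real.sqrt_pos.2 (by linarith)
      have h3 := Real.log_le_sub_one_of_pos (show (0 : ℝ) < √(X : ℝ) / 2 by positivity)
      rw [Real.log_div h2.ne' (by norm_num)] at h3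
      have h4 := Real.log_two_lt_d9
      linarith
    have h2 : Real.log (√(X : ℝ)) = Real.log X / 2 := Real.log_sqrt (by linarith)
    linarith
  have hsq : √(X : ℝ) ≤ X / Real.log X := by
    rw [le_div_iff₀ (by linarith)]
    calc √(X : ℝ) * Real.log X ≤ √(X : ℝ) * √(X : ℝ) := by gcongr
      _ = X := Real.mul_self_sqrt (by linarith)
  have hs1 : 1 ≤ √(X : ℝ) := by
    rw [Real.one_le_sqrt]
    linarith
  obtain ⟨Q, hQ⟩ : ∃ Q : ℝ, Q = X / Real.log X := ⟨_, rfl⟩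
  rw [← hQ] at hcon hsq
  have hQ1 : 1 ≤ Q := by linarith
  have hB3 : 3 ≤ (4 / c + 3) * Q := by
    have : 0 < 4 / c := by positivity
    nlinarith
  have h1 := h (X + 1) (by omega) ((4 / c + 3) * Q) hB3 hcon
  have h2 : Real.log X / 2 ≤ Real.log ((4 / c + 3) * Q) := by
    have h3 : Real.log X / 2 = Real.log (√(X : ℝ)) := (Real.log_sqrt (by linarith)).symm
    rw [h3]
    apply Real.log_le_log (by linarith)
    have : 0 < 4 / c := by positivity
    nlinarith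
  have h3 : c * (((4 / c + 3) * Q) * (Real.log X / 2)) ≤ (X + 1 : ℕ) := by
    refine le_trans ?_ h1
    gcongr
  have h4 : c * (((4 / c + 3) * Q) * (Real.log X / 2)) = (2 + 3 * c / 2) * X := by
    rw [hQ]
    field_simp
    ring
  rw [h4] at h3
  push_cast at h3
  nlinarith

/-- union bound -/
theorem cover (T : ℕ → Prop) (hT : Few T) (ε : ℝ) (hε : 0 < ε) :
    ∃ c : ℝ, 0 < c ∧ ∃ X₀ : ℕ, ∀ X : ℕ, X₀ ≤ X → ∀ U : ℕ → Prop,
      ∃ B : Finset ℕ, (B.card : ℝ) ≤ ε * X ∧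
      ∀ n : ℕ, n ≤ X → n ∉ B → ∀ k m : ℕ, 1 ≤ k → 1 ≤ m → k + m = n → T k → U m →
        c * Real.log X < cn U m := by
  classical
  obtain ⟨C, hC, X₁, hX₁, hcnt⟩ := hT
  obtain ⟨c₀, hc₀d⟩ : ∃ c₀ : ℝ, c₀ = ε / (2 * C) := ⟨_, rfl⟩
  have hc₀ : 0 < c₀ := by rw [hc₀d]; positivity
  refine ⟨c₀, hc₀, max X₁ ⌈Real.exp (1 / c₀)⌉₊, fun X hX U => ?_⟩
  have hX3 : 3 ≤ X := hX₁.trans ((le_max_left _ _).trans hX)
  have hXr : (3 : ℝ) ≤ X := by exact_mod_cast hX3
  obtain ⟨L, hLd⟩ : ∃ L : ℝ, L = Real.log X := ⟨_, rfl⟩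
  have hLp : 0 < L := by rw [hLd]; exact Real.log_pos (by linarith)
  have hcL : 1 ≤ c₀ * L := by
    have h1 : Real.exp (1 / c₀) ≤ X := Nat.ceil_le.1 ((le_max_right _ _).trans hX)
    have h2 := Real.log_le_log (Real.exp_pos _) h1
    rw [Real.log_exp, ← hLd, div_le_iff₀ hc₀] at h2
    linarith
  have hcnt' := hcnt X ((le_max_left _ _).trans hX)
  rw [← hLd] at hcnt' ⊢
  obtain ⟨S, hS⟩ : ∃ S : Finset ℕ, S = (range (X + 1)).filter (fun m => 1 ≤ m ∧ U m ∧
    (cn U m : ℝ) ≤ c₀ * L) := ⟨_, rfl⟩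
  have hScard : (S.card : ℝ) ≤ c₀ * L + 1 := by
    have h1 : S.card ≤ (range (⌊c₀ * L⌋₊ + 1)).card := by
      have key : ∀ i j : ℕ, 1 ≤ i → U i → i < j → cn U i < cn U j := by
        intro i j hi hip hij
        unfold cn
        apply Set.ncard_lt_ncard _ (fin_lt U j)
        have hsb : {a : ℕ | 1 ≤ a ∧ a < i ∧ U a} ⊆ {a : ℕ | 1 ≤ a ∧ a < j ∧ U a} :=
          fun a ha => ⟨ha.1, ha.2.1.trans hij, ha.2.2⟩
        rw [Set.ssubset_iff_of_subset hsb]
        exact ⟨i, ⟨hi, hij, hip⟩, fun h => lt_irrefl _ h.2.1⟩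
      apply card_le_card_of_injOn (fun t => cn U t)
      · intro t ht
        rw [mem_coe, hS, mem_filter] at ht
        rw [mem_coe, mem_range]
        have := Nat.le_floor ht.2.2.2
        show cn U t < ⌊c₀ * L⌋₊ + 1
        omega
      · intro t ht t' ht' heq
        rw [mem_coe, hS, mem_filter] at ht ht'
        have heq' : cn U t = cn U t' := heq
        rcases lt_trichotomy t t' with h | h | h
        · have := key t t' ht.2.1 ht.2.2.1 h
          omega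
        · exact h
        · have := key t' t ht'.2.1 ht'.2.2.1 h
          omega
    rw [card_range] at h1
    have h2 : (S.card : ℝ) ≤ (⌊c₀ * L⌋₊ : ℝ) + 1 := by exact_mod_cast h1
    have h3 := Nat.floor_le (by positivity : 0 ≤ c₀ * L)
    linarith
  obtain ⟨A, hA⟩ : ∃ A : Finset ℕ, A = (Icc 1 X).filter (fun k => T k) := ⟨_, rfl⟩
  have hAc : (A.card : ℝ) ≤ C * (X / L) := by
    refine le_trans ?_ hcnt'
    have h1 : (A : Set ℕ) ⊆ {j : ℕ | 1 ≤ j ∧ j < X + 1 ∧ T j} := by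
      intro j hj
      rw [mem_coe, hA, mem_filter, mem_Icc] at hj
      exact ⟨hj.1.1, by omega, hj.2⟩
    have h2 := Set.ncard_le_ncard h1 (fin_lt T (X + 1))
    rw [Set.ncard_coe_finset] at h2
    exact_mod_cast h2
  refine ⟨S.biUnion (fun m => A.image (fun k => k + m)), ?_, ?_⟩
  · have h1 : (S.biUnion (fun m => A.image (fun k => k + m))).card ≤ S.card * A.card := by
      refine card_biUnion_le.trans ?_
      refine (sum_le_sum fun m _ => card_image_le).trans ?_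
      rw [sum_const, smul_eq_mul]
    have h2 : ((S.biUnion (fun m => A.image (fun k => k + m))).card : ℝ) ≤ S.card * A.card := by
      exact_mod_cast h1
    have h3 : (S.card : ℝ) ≤ 2 * (c₀ * L) := by linarith
    calc ((S.biUnion (fun m => A.image (fun k => k + m))).card : ℝ) ≤ S.card * A.card := h2
      _ ≤ (2 * (c₀ * L)) * (C * (X / L)) := by gcongr
      _ = (2 * C * c₀) * X := by field_simp
      _ = ε * X := by rw [hc₀d]; field_simp
  · intro n hn hnB k m hk hm hkm hTk hUm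
    by_contra hcon
    push Not at hcon
    apply hnB
    rw [mem_biUnion]
    refine ⟨m, ?_, ?_⟩
    · rw [hS, mem_filter, mem_range]
      exact ⟨by omega, hm, hUm, hcon⟩
    · rw [mem_image]
      refine ⟨k, ?_, hkm⟩
      rw [hA, mem_filter, mem_Icc]
      exact ⟨⟨hk, by omega⟩, hTk⟩

end Pool.Agent.TH685.Gen
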