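import Pool.Agent.TH506.APD.Siv3
import Pool.Agent.H951R4.OD.B6

set_option autoImplicit false
set_option maxHeartbeats 1000000

/-! # Upper bound for the number of primes `p ≤ x` with `p² - 2` prime -/

namespace Pool.Agent.TH685.SqTwo

open Finset Polynomial
open Pool.Agent.H410R2.ED Pool.Agent.H474R2.PG Pool.Agent.TH506.APD

/-- the polynomial `x² - 2` -/
noncomputable def F2 : ℤ[X] := X ^ 2 - C 2

lemma not_sq : ¬ IsSquare (2 : ℤ) := by
  rintro ⟨a, ha⟩
  have h1 : a ≤ 1 := by nlinarith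
  have h2 : -1 ≤ a := by nlinarith
  interval_cases a <;> omega

lemma F2_irr : Irreducible F2 := Pool.Agent.H951R4.OD.b6_irr 2 not_sq

lemma F2_deg : 0 < F2.natDegree := by
  unfold F2
  rw [natDegree_X_pow_sub_C]
  norm_num

lemma ch_le (D : ℤ) (n : ℕ) : Pool.Agent.H951R4.OD.ch D n ≤ 1 := by
  unfold Pool.Agent.H951R4.OD.ch
  split_ifs with h
  · rcases jacobiSym.trichotomy D n with h3 | h3 | h3 <;> rw [h3] <;> norm_num
  · norm_num

lemma rho_F2_le {l : ℕ} (hl : l.Prime) : rho F2 l ≤ 2 := by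
  by_cases h2 : l = 2
  · subst h2
    unfold rho
    exact (card_filter_le _ _).trans (by simp)
  · have h := Pool.Agent.H951R4.OD.b6_rho 2 l hl h2
    have h1 : (rho F2 l : ℝ) ≤ 2 := by
      unfold F2
      rw [h]
      have := ch_le 2 l
      linarith
    exact_mod_cast h1

lemma exists_level3 {c Y : ℕ} (hc : 1 ≤ c) (hY : 2 ^ (16 * c) ≤ Y) :
    ∃ J : ℕ, 1 ≤ J ∧ ((2 : ℝ) ^ 2 ^ J) ^ (c * 3) ≤ Y ∧ 2 ^ 2 ^ J ≤ Y ∧
      1 / (2 : ℝ) ^ J ≤ 8 * c * Real.log 2 / Real.log Y := by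
  obtain ⟨J, h1, h2, h3, h4⟩ := exists_level (c := 2 * c) (Y := Y) (by omega) (by
    rw [show 8 * (2 * c) = 16 * c by ring]; exact hY)
  refine ⟨J, h1, le_trans ?_ h2, h3, h4.trans (le_of_eq ?_)⟩
  · apply pow_le_pow_right₀
    · exact one_le_pow₀ (by norm_num)
    · omega
  · push_cast; ring

open Classical in
theorem count : ∃ (K : ℝ) (Y0 : ℕ), 0 < K ∧ ∀ x Y : ℕ, Y0 ≤ Y → 1 ≤ x →
    (Set.ncard {p : ℕ | p ≤ x ∧ p.Prime ∧ (p ^ 2 - 2).Prime} : ℝ) ≤
      K * x / Real.log Y ^ 2 + 2 * Y + 1 := by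
  obtain ⟨c, hc, hsv⟩ := sieve_exp
  obtain ⟨C1, hC1, h1⟩ := mert (Polynomial.X : ℤ[X]) Polynomial.irreducible_X
    (by rw [natDegree_X]; norm_num)
  obtain ⟨C2, hC2, h2⟩ := mert F2 F2_irr F2_deg
  have hlog2 : 0 < Real.log 2 := Real.log_pos (by norm_num)
  have hc0 : (0 : ℝ) < c := by exact_mod_cast hc
  refine ⟨4 * Real.exp (C1 + C2) * (8 * c * Real.log 2) ^ 2, 2 ^ (16 * c), by positivity,
    fun x Y hY0 hx => ?_⟩
  obtain ⟨J, hJ, hJ2, hJ3, hJ4⟩ := exists_level3 hc hY0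
  have hY2 : 2 ^ 1 ≤ Y := le_trans (Nat.pow_le_pow_right (by norm_num) (by omega)) hY0
  have hlogY : 0 < Real.log Y := Real.log_pos (by exact_mod_cast (by omega : 1 < Y))
  obtain ⟨P, hP⟩ : ∃ P : ℕ → ℕ → Prop, ∀ l n, P l n ↔
      (l ∣ n ∨ (3 ≤ l ∧ (l : ℤ) ∣ (n : ℤ) ^ 2 - 2)) := ⟨_, fun _ _ => Iff.rfl⟩
  have hper : ∀ l n, P l (n + l) ↔ P l n := by
    intro l n
    rw [hP, hP]
    have e : ((n + l : ℕ) : ℤ) ^ 2 - 2 = ((n : ℤ) ^ 2 - 2) + (l : ℤ) * (2 * n + l) := by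
      push_cast; ring
    rw [e, Nat.dvd_add_self_right, dvd_add_left (Dvd.intro _ rfl)]
  have hcard : ∀ l : ℕ, l.Prime → #((range l).filter (P l)) =
      rho (Polynomial.X : ℤ[X]) l + (if 3 ≤ l then rho F2 l else 0) := by
    intro l hl
    have h3 : (range l).filter (P l) = (range l).filter (fun n => l ∣ n) ∪
        (range l).filter (fun n => 3 ≤ l ∧ (l : ℤ) ∣ (n : ℤ) ^ 2 - 2) := by
      rw [← Finset.filter_or]
      apply Finset.filter_congr
      intro n _
      rw [hP]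
    rw [h3, card_union_of_disjoint]
    · congr 1
      · unfold rho
        congr 1
        apply Finset.filter_congr
        intro a _
        rw [eval_X, Int.natCast_dvd_natCast]
      · split_ifs with h4
        · unfold rho F2
          congr 1
          apply Finset.filter_congr
          intro a _
          simp [h4]
        · rw [card_eq_zero, Finset.filter_eq_empty_iff]
          intro a _ h5
          exact h4 h5.1
    · rw [Finset.disjoint_filter]
      intro a _ h4 h5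
      have h6 : (l : ℤ) ∣ (a : ℤ) ^ 2 := dvd_pow (Int.natCast_dvd_natCast.2 h4) (by norm_num)
      have h7 : (l : ℤ) ∣ 2 := by
        have := dvd_sub h6 h5.2
        rwa [sub_sub_cancel] at this
      have h8 : l ∣ 2 := by exact_mod_cast h7
      have := Nat.le_of_dvd (by norm_num) h8
      omega
  have hcard3 : ∀ l : ℕ, l.Prime → #((range l).filter (P l)) ≤ 3 := by
    intro l hl
    rw [hcard l hl, Pool.Agent.H951R4.OD.b6_rho_X l hl]
    have := rho_F2_le hl
    split_ifs <;> omega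
  have hS : 2 * (J * Real.log 2) - (C1 + C2) ≤
      ∑ l ∈ Pr 3 J, (#((range l).filter (P l)) : ℝ) / l := by
    have e1 := (abs_le.1 (h1 J hJ)).1
    have e2 := (abs_le.1 (h2 J hJ)).1
    have e4 : ∑ l ∈ Pr 3 J, (#((range l).filter (P l)) : ℝ) / l =
        ∑ l ∈ Pr 3 J, (rho (Polynomial.X : ℤ[X]) l : ℝ) / l +
        ∑ l ∈ Pr 3 J, (rho F2 l : ℝ) / l := by
      rw [← Finset.sum_add_distrib]
      apply Finset.sum_congr rfl
      intro l hl
      have h3 := (mem_filter.1 hl).2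
      rw [hcard l h3.1, if_pos (by omega)]
      push_cast
      ring
    rw [e4]
    linarith
  have hmain := hsv P (x + 1) J _ hper hcard3 hS
  have hsub : (range (x + 1)).filter (fun p => p.Prime ∧ (p ^ 2 - 2).Prime) ⊆
      (range (x + 1)).filter (fun t => ∀ l ∈ Pr 3 J, ¬ P l t) ∪ range (Y + 1) := by
    intro p hp
    rw [mem_filter, mem_range] at hp
    obtain ⟨hp1, hp2, hp3⟩ := hp
    rw [mem_union, mem_range]
    by_cases hpY : p < Y + 1
    · exact Or.inr hpY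
    left
    rw [mem_filter, mem_range]
    refine ⟨hp1, ?_⟩
    intro l hl hPl
    have hlp : l.Prime := (mem_filter.1 hl).2.1
    have hlt : l < 2 ^ 2 ^ J := mem_range.1 (mem_filter.1 hl).1
    rcases (hP l p).1 hPl with h6 | ⟨h6, h7⟩
    · have := (Nat.prime_dvd_prime_iff_eq hlp hp2).1 h6
      omega
    · have h8 : l ∣ p ^ 2 - 2 := by
        have h9 : 2 ≤ p ^ 2 := by nlinarith [hp2.two_le]
        have e : ((p ^ 2 - 2 : ℕ) : ℤ) = (p : ℤ) ^ 2 - 2 := by
          rw [Nat.cast_sub h9]; push_cast; rfl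
        rw [← e] at h7
        exact_mod_cast h7
      have h9 := (Nat.prime_dvd_prime_iff_eq hlp hp3).1 h8
      have h10 : p ≤ p ^ 2 - 2 := by
        have := hp2.two_le
        have h11 : p + 2 ≤ p ^ 2 := by nlinarith
        omega
      omega
  have hexp : Real.exp (-(2 * (J * Real.log 2) - (C1 + C2))) =
      Real.exp (C1 + C2) * (1 / 2 ^ J) ^ 2 := by
    have e1 : -(2 * (J * Real.log 2) - (C1 + C2)) =
        (C1 + C2) - Real.log (2 ^ J) - Real.log (2 ^ J) := by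
      rw [Real.log_pow]; ring
    rw [e1, Real.exp_sub, Real.exp_sub, Real.exp_log (by positivity)]
    field_simp
  have h5 : ((((range (x + 1)).filter (fun p => p.Prime ∧ (p ^ 2 - 2).Prime)).card : ℕ) : ℝ) ≤
      (((range (x + 1)).filter (fun t => ∀ l ∈ Pr 3 J, ¬ P l t)).card : ℝ) + (Y + 1) := by
    have h6 := (card_le_card hsub).trans (card_union_le _ _)
    rw [card_range] at h6
    exact_mod_cast h6
  have h7 : (((range (x + 1)).filter (fun t => ∀ l ∈ Pr 3 J, ¬ P l t)).card : ℝ) ≤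
      4 * Real.exp (C1 + C2) * (8 * c * Real.log 2) ^ 2 * x / Real.log Y ^ 2 + Y := by
    calc (((range (x + 1)).filter (fun t => ∀ l ∈ Pr 3 J, ¬ P l t)).card : ℝ) ≤ _ := hmain
      _ ≤ 2 * ((x + 1 : ℕ) : ℝ) * (Real.exp (C1 + C2) * (8 * c * Real.log 2 / Real.log Y) ^ 2) + Y := by
          rw [hexp]
          gcongr
      _ ≤ 2 * (2 * (x : ℝ)) * (Real.exp (C1 + C2) * (8 * c * Real.log 2 / Real.log Y) ^ 2) + Y := by
          have : ((x + 1 : ℕ) : ℝ) ≤ 2 * x := by
            have : (1 : ℝ) ≤ x := by exact_mod_cast hx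
            push_cast; linarith
          gcongr
      _ = _ := by field_simp; ring
  have h8 : {p : ℕ | p ≤ x ∧ p.Prime ∧ (p ^ 2 - 2).Prime} ⊆
      (((range (x + 1)).filter (fun p => p.Prime ∧ (p ^ 2 - 2).Prime) : Finset ℕ) : Set ℕ) := by
    rintro p ⟨hp1, hp2, hp3⟩
    rw [mem_coe, mem_filter, mem_range]
    exact ⟨by omega, hp2, hp3⟩
  have h9 := Set.ncard_le_ncard h8 (Finset.finite_toSet _)
  rw [Set.ncard_coe_finset] at h9
  have h10 : (Set.ncard {p : ℕ | p ≤ x ∧ p.Prime ∧ (p ^ 2 - 2).Prime} : ℝ) ≤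
      ((((range (x + 1)).filter (fun p => p.Prime ∧ (p ^ 2 - 2).Prime)).card : ℕ) : ℝ) := by
    exact_mod_cast h9
  linarith

end Pool.Agent.TH685.SqTwo
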