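import Pool.Agent.TH685.TI.Gen
import Pool.Agent.TH685.TI.SqTwo

set_option autoImplicit false
set_option maxHeartbeats 1000000

/-! # Thin sets of primes: `p + 2` prime, `p² - 2` prime -/

namespace Pool.Agent.TH685.Gen

open Finset

theorem thin_twin : Thin (fun p => (p + 2).Prime) := by
  obtain ⟨C, hC, h⟩ := Pool.Agent.W735.DP.sieve_h 2 (by norm_num)
  refine ⟨C, hC, fun x hx => le_trans ?_ (h x hx)⟩
  have h1 : {p : ℕ | p ≤ x ∧ p.Prime ∧ (p + 2).Prime} ⊆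
      ((Pool.Agent.W735.DP.prs 2 x : Finset ℕ) : Set ℕ) := by
    rintro p ⟨hp1, hp2, hp3⟩
    rw [mem_coe, Pool.Agent.W735.DP.prs, mem_filter, mem_range]
    exact ⟨by omega, hp2, hp3⟩
  have h2 := Set.ncard_le_ncard h1 (Finset.finite_toSet _)
  rw [Set.ncard_coe_finset] at h2
  exact_mod_cast h2

theorem thin_sq : Thin (fun p => (p ^ 2 - 2).Prime) := by
  obtain ⟨K, Y0, hK, h⟩ := Pool.Agent.TH685.SqTwo.count
  refine ⟨64 * K + 64 + (Y0 + 3) ^ 2 * 64, by positivity, fun x hx => ?_⟩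
  have hxr : (2 : ℝ) ≤ x := by exact_mod_cast hx
  have hl : 0 < Real.log x := Real.log_pos (by linarith)
  have hs := Pool.Agent.W735.DP.sqrt_le_aux hxr
  have hq : 0 ≤ (x : ℝ) / Real.log x ^ 2 := by positivity
  have hs1 : 1 ≤ √(x : ℝ) := by
    rw [Real.one_le_sqrt]
    linarith
  by_cases hY : Y0 ≤ Nat.sqrt x ∧ 2 ≤ Nat.sqrt x
  · have h3 := h x (Nat.sqrt x) hY.1 (by omega)
    have h4 : (Nat.sqrt x : ℝ) ≤ √(x : ℝ) := Real.nat_sqrt_le_real_sqrt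
    have h5 : Real.log x / 8 ≤ Real.log (Nat.sqrt x) := by
      have h6 : x < (Nat.sqrt x + 1) ^ 2 := Nat.lt_succ_sqrt' x
      have h7 : x ≤ (Nat.sqrt x) ^ 4 := by
        have h8 : (Nat.sqrt x + 1) ≤ (Nat.sqrt x) ^ 2 := by nlinarith [hY.2]
        have h9 : (Nat.sqrt x + 1) ^ 2 ≤ ((Nat.sqrt x) ^ 2) ^ 2 := Nat.pow_le_pow_left h8 2
        have e : ((Nat.sqrt x) ^ 2) ^ 2 = (Nat.sqrt x) ^ 4 := by ring
        omega
      have h8 : (x : ℝ) ≤ (Nat.sqrt x : ℝ) ^ 4 := by exact_mod_cast h7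
      have h9 := Real.log_le_log (by linarith) h8
      rw [Real.log_pow] at h9
      push_cast at h9
      linarith
    have h6 : K * x / Real.log (Nat.sqrt x) ^ 2 ≤ 64 * K * (x / Real.log x ^ 2) := by
      have h7 : K * x / Real.log (Nat.sqrt x) ^ 2 ≤ K * x / (Real.log x / 8) ^ 2 := by gcongr
      refine h7.trans (le_of_eq ?_)
      field_simp
      norm_num
    have h7 : 0 ≤ ((Y0 : ℝ) + 3) ^ 2 * 64 * (x / Real.log x ^ 2) := by positivity
    have h8 : 2 * (Nat.sqrt x : ℝ) + 1 ≤ 64 * (x / Real.log x ^ 2) := by linarith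
    refine h3.trans ?_
    linarith
  · have h3 : Nat.sqrt x ≤ Y0 + 2 := by
      by_contra hc
      apply hY
      constructor <;> omega
    have h4 : x ≤ (Y0 + 3) ^ 2 := by
      have h6 : x < (Nat.sqrt x + 1) ^ 2 := Nat.lt_succ_sqrt' x
      have h7 : (Nat.sqrt x + 1) ^ 2 ≤ (Y0 + 3) ^ 2 := Nat.pow_le_pow_left (by omega) 2
      omega
    have h5 : (Set.ncard {p : ℕ | p ≤ x ∧ p.Prime ∧ (p ^ 2 - 2).Prime} : ℝ) ≤ x + 1 := by
      have h6 : {p : ℕ | p ≤ x ∧ p.Prime ∧ (p ^ 2 - 2).Prime} ⊆ ((range (x + 1) : Finset ℕ) : Set ℕ) := by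
        rintro p ⟨hp1, -, -⟩
        rw [mem_coe, mem_range]
        omega
      have h7 := Set.ncard_le_ncard h6 (Finset.finite_toSet _)
      rw [Set.ncard_coe_finset, card_range] at h7
      exact_mod_cast h7
    have h6 : (x : ℝ) ≤ ((Y0 : ℝ) + 3) ^ 2 := by exact_mod_cast h4
    have h7 : 1 ≤ 16 * ((x : ℝ) / Real.log x ^ 2) := hs1.trans hs
    have h8 : (x : ℝ) + 1 ≤ 2 * ((Y0 : ℝ) + 3) ^ 2 := by nlinarith
    have h9 : 2 * ((Y0 : ℝ) + 3) ^ 2 * 1 ≤ 2 * ((Y0 : ℝ) + 3) ^ 2 * (16 * ((x : ℝ) / Real.log x ^ 2)) := by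
      gcongr
    have h10 : 0 ≤ (64 * K + 64) * ((x : ℝ) / Real.log x ^ 2) := by positivity
    nlinarith

/-- the condition `q² - 2` prime -/
def GSq (q : ℕ) : Prop := (q ^ 2 - 2).Prime

theorem GSq_iff (q : ℕ) : GSq q ↔ (q ^ 2 - 2).Prime := Iff.rfl

theorem thin_GSq : Thin GSq := by
  obtain ⟨C, hC, h⟩ := thin_sq
  refine ⟨C, hC, fun x hx => ?_⟩
  exact h x hx

theorem few_GSq : Few (fun j => GSq (Nat.nth Nat.Prime (j - 1))) := few_of_thin GSq thin_GSq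

end Pool.Agent.TH685.Gen
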