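import Pool.Agent.TH685.TI.BtU
import Pool.Agent.TH685.TI.Thin2

set_option autoImplicit false
set_option maxHeartbeats 1000000

/-! # Sizes of primes from the number of smaller candidates -/

namespace Pool.Agent.TH685.Gen

open Finset

theorem prime_idx : ∃ C : ℝ, 1 ≤ C ∧ ∀ (q : ℕ) (R : ℝ), 3 ≤ R → R < cn (fun j => j.Prime) q →
    R * Real.log R ≤ C * q := by
  obtain ⟨C, hC, hbt⟩ := Pool.Agent.Helper601.brun_titchmarsh
  refine ⟨C, hC, fun q R hR h4 => ?_⟩
  have hcnq : cn (fun j => j.Prime) q ≤ ((range q).filter (fun k : ℕ => Nat.Prime (0 + k * 1))).card := by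
    have h1 : {j : ℕ | 1 ≤ j ∧ j < q ∧ j.Prime} ⊆
        (((range q).filter (fun k : ℕ => Nat.Prime (0 + k * 1)) : Finset ℕ) : Set ℕ) := by
      rintro j ⟨-, h2, h3⟩
      rw [mem_coe, mem_filter, mem_range, zero_add, mul_one]
      exact ⟨h2, h3⟩
    have h2 := Set.ncard_le_ncard h1 (Finset.finite_toSet _)
    rwa [Set.ncard_coe_finset] at h2
  have hcq : (cn (fun j => j.Prime) q : ℝ) ≤ q := by
    have h1 := hcnq.trans (card_filter_le _ _)
    rw [card_range] at h1
    exact_mod_cast h1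
  have hq3 : (3 : ℝ) ≤ q := by linarith
  have hq2 : 2 ≤ q := by
    have : (2 : ℝ) ≤ q := by linarith
    exact_mod_cast this
  have h5 := hbt 0 1 q hq2 (Or.inl rfl)
  have h6 : R < C * q / Real.log q := by
    refine lt_of_lt_of_le h4 (le_trans ?_ h5)
    exact_mod_cast hcnq
  have hlq : 0 < Real.log q := Real.log_pos (by linarith)
  rw [lt_div_iff₀ hlq] at h6
  have h7 : Real.log R ≤ Real.log q := Real.log_le_log (by linarith) (by linarith)
  have h8 : R * Real.log R ≤ R * Real.log q := mul_le_mul_of_nonneg_left h7 (by linarith)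
  linarith

/-- primes `q` with `q² - 2` prime -/
def USq (q : ℕ) : Prop := q.Prime ∧ GSq q

theorem sq_idx : ∃ C : ℝ, 1 ≤ C ∧ ∀ (q : ℕ) (R : ℝ), 3 ≤ R → R < cn USq q →
    R * Real.log R ^ 2 ≤ C * q := by
  obtain ⟨C, hC, hs⟩ := thin_GSq
  refine ⟨C + 1, by linarith, fun q R hR h4 => ?_⟩
  have h1 : cn USq q ≤ Set.ncard {p : ℕ | p ≤ q ∧ p.Prime ∧ GSq p} := by
    unfold cn
    apply Set.ncard_le_ncard
    · rintro j ⟨-, h2, h3⟩
      exact ⟨h2.le, h3.1, h3.2⟩
    · exact (Set.finite_Iic q).subset (fun j hj => hj.1)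
  have hcq : (cn USq q : ℝ) ≤ q := by
    have h2 : cn USq q ≤ q := by
      unfold cn
      have h3 : {j : ℕ | 1 ≤ j ∧ j < q ∧ USq j} ⊆ ((range q : Finset ℕ) : Set ℕ) := by
        rintro j ⟨-, h5, -⟩
        rw [mem_coe, mem_range]
        exact h5
      have := Set.ncard_le_ncard h3 (Finset.finite_toSet _)
      rwa [Set.ncard_coe_finset, card_range] at this
    exact_mod_cast h2
  have hq3 : (3 : ℝ) ≤ q := by linarith
  have hq2 : 2 ≤ q := by
    have : (2 : ℝ) ≤ q := by linarith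
    exact_mod_cast this
  have h5 : R < C * (q / Real.log q ^ 2) := by
    refine lt_of_lt_of_le h4 (le_trans ?_ (hs q hq2))
    exact_mod_cast h1
  have hlq : 0 < Real.log q := Real.log_pos (by linarith)
  have h7 : Real.log R ≤ Real.log q := Real.log_le_log (by linarith) (by linarith)
  have hlR : 0 ≤ Real.log R := Real.log_nonneg (by linarith)
  have h8 : R * Real.log R ^ 2 ≤ R * Real.log q ^ 2 := by
    apply mul_le_mul_of_nonneg_left _ (by linarith)
    exact pow_le_pow_left₀ hlR h7 2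
  have h9 : R * Real.log q ^ 2 ≤ C * q := by
    have h10 : R * Real.log q ^ 2 ≤ C * (q / Real.log q ^ 2) * Real.log q ^ 2 := by gcongr
    have h11 : C * (q / Real.log q ^ 2) * Real.log q ^ 2 = C * q := by field_simp
    linarith
  linarith

/-- the number of the primes `q ≤ x` with `q² - 2` prime and of the primes up to `x` -/
theorem counts : ∃ C : ℝ, 1 ≤ C ∧ ∀ x : ℕ, 2 ≤ x → ∃ A B : Finset ℕ,
    (A.card : ℝ) ≤ C * (x / Real.log x ^ 2) ∧ (∀ q : ℕ, q ≤ x → USq q → q ∈ A) ∧
    (B.card : ℝ) ≤ C * (x / Real.log x) ∧ (∀ q : ℕ, q < x → q.Prime → q ∈ B) := by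
  classical
  obtain ⟨C, hC, hs⟩ := thin_GSq
  obtain ⟨C', hC', hbt⟩ := Pool.Agent.Helper601.brun_titchmarsh
  refine ⟨C + C', by linarith, fun x hx => ?_⟩
  have hxr : (2 : ℝ) ≤ x := by exact_mod_cast hx
  have hl : 0 < Real.log x := Real.log_pos (by linarith)
  have hq : 0 ≤ (x : ℝ) / Real.log x ^ 2 := by positivity
  have hq' : 0 ≤ (x : ℝ) / Real.log x := by positivity
  have hfin : {p : ℕ | p ≤ x ∧ p.Prime ∧ GSq p}.Finite :=
    (Set.finite_Iic x).subset (fun j hj => hj.1)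
  refine ⟨hfin.toFinset, (range x).filter (fun k : ℕ => Nat.Prime (0 + k * 1)), ?_, ?_, ?_, ?_⟩
  · have h1 := hs x hx
    rw [Set.ncard_eq_toFinset_card _ hfin] at h1
    have h2 : C * (x / Real.log x ^ 2) ≤ (C + C') * (x / Real.log x ^ 2) := by
      apply mul_le_mul_of_nonneg_right _ hq
      linarith
    exact h1.trans h2
  · intro q hqx hU
    rw [Set.Finite.mem_toFinset]
    exact ⟨hqx, hU.1, hU.2⟩
  · have h1 := hbt 0 1 x hx (Or.inl rfl)
    have h2 : C' * x / Real.log x ≤ (C + C') * (x / Real.log x) := by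
      rw [mul_div_assoc]
      apply mul_le_mul_of_nonneg_right _ hq'
      linarith
    exact h1.trans h2
  · intro q hqx hp
    rw [mem_filter, mem_range, zero_add, mul_one]
    exact ⟨hqx, hp⟩

end Pool.Agent.TH685.Gen
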