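import Pool.Agent.TH685.TI.Two
import Pool.Agent.H361R2.PA.AsmM
import Pool.Agent.H361R2.PA.Pre

set_option autoImplicit false
set_option maxHeartbeats 1000000

/-! # Sums `n = k + m`, `6 k ± 1` prime, `m` in a set: the first elements of the set can be avoided -/

namespace Pool.Agent.TH685.TI

open Finset Filter Pool.Agent.H318R2.Cr Pool.Agent.H361R2.PA

open scoped Classical

/-- a window of length `3 W` to the right of `Y` without elements of `S`, among the first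
`|S| + 1` ones -/
theorem window (S : Finset ℕ) (Y W : ℝ) (hW : 0 < W) : ∃ j : ℕ, j ≤ S.card ∧
    ∀ m ∈ S, ¬ (Y + 3 * j * W < m ∧ (m : ℝ) ≤ Y + 3 * (j + 1) * W) := by
  by_contra hcon
  push Not at hcon
  have hc : ∀ j : ℕ, ∃ m : ℕ, j ≤ S.card → m ∈ S ∧ Y + 3 * j * W < m ∧
      (m : ℝ) ≤ Y + 3 * (j + 1) * W := by
    intro j
    by_cases hj : j ≤ S.card
    · obtain ⟨m, h1, h2, h3⟩ := hcon j hj
      exact ⟨m, fun _ => ⟨h1, h2, h3⟩⟩
    · exact ⟨0, fun h => absurd h hj⟩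
  choose g hg using hc
  have hcard : (range (S.card + 1)).card ≤ S.card := by
    apply card_le_card_of_injOn g
    · intro j hj
      rw [mem_coe, mem_range] at hj
      exact mem_coe.2 (hg j (by omega)).1
    · have key : ∀ i j : ℕ, i ≤ S.card → j ≤ S.card → i < j → g i ≠ g j := by
        intro i j hi hj hij h
        obtain ⟨-, -, h1⟩ := hg i hi
        obtain ⟨-, h2, -⟩ := hg j hj
        rw [h] at h1
        have h3 : (i : ℝ) + 1 ≤ j := by exact_mod_cast hij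
        nlinarith
      intro i hi j hj h
      rw [mem_coe, mem_range] at hi hj
      rcases lt_trichotomy i j with h1 | h1 | h1
      · exact absurd h (key i j (by omega) (by omega) h1)
      · exact h1
      · exact absurd h.symm (key j i (by omega) (by omega) h1)
  rw [card_range] at hcard
  omega

/-- numerical facts -/
theorem num : ∃ X₀ : ℝ, ∀ X : ℝ, X₀ ≤ X → 1 < X ∧ 20000 ≤ Real.log X ∧
    24 * Real.log X ^ 3 + 24 ≤ Real.sqrt X ∧ 13 * X ≤ Real.exp (Real.log X ^ 2) := by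
  refine ⟨Real.exp 20000, fun X hX => ?_⟩
  have hX0 : 0 < X := (Real.exp_pos _).trans_le hX
  have hL : 20000 ≤ Real.log X := by
    rw [← Real.log_exp 20000]
    exact Real.log_le_log (Real.exp_pos _) hX
  have hX1 : 1 < X := by
    have := Real.add_one_le_exp (20000 : ℝ)
    linarith
  refine ⟨hX1, hL, ?_, ?_⟩
  · set L := Real.log X with hLd
    have h1 : Real.sqrt X = Real.exp (L / 2) := by
      rw [Real.sqrt_eq_iff_mul_self_eq hX0.le (Real.exp_pos _).le, ← Real.exp_add, hLd]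
      have : Real.log X / 2 + Real.log X / 2 = Real.log X := by ring
      rw [this, Real.exp_log hX0]
    rw [h1]
    have h2 := Real.pow_div_factorial_le_exp (L / 2) (by linarith) 4
    have h3 : (Nat.factorial 4 : ℝ) = 24 := by norm_num [Nat.factorial]
    rw [h3] at h2
    refine le_trans ?_ h2
    have h4 : (L / 2) ^ 4 / 24 = L ^ 3 * (L / 384) := by ring
    rw [h4]
    have h5 : 50 ≤ L / 384 := by linarith
    have h6 : (1 : ℝ) ≤ L ^ 3 := one_le_pow₀ (by linarith)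
    nlinarith
  · have h1 : X = Real.exp (Real.log X) := (Real.exp_log hX0).symm
    have h2 : (13 : ℝ) ≤ Real.exp 13 := by
      have := Real.add_one_le_exp (13 : ℝ)
      linarith
    calc 13 * X ≤ Real.exp 13 * Real.exp (Real.log X) := by rw [← h1]; gcongr
      _ = Real.exp (13 + Real.log X) := (Real.exp_add _ _).symm
      _ ≤ _ := Real.exp_le_exp.2 (by nlinarith)

/-- `m` is hit by none of the primes of `T` -/
def Miss (T : Finset ℕ) (b : ℕ → ℕ) (m : ℕ) : Prop := ∀ p ∈ T, ¬ Hit p (b p) m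

theorem greedy_miss (T : Finset ℕ) (hT : ∀ p ∈ T, p.Prime ∧ 5 ≤ p) (S : Finset ℕ) : ∃ b : ℕ → ℕ,
    ((S.filter (fun m => Miss T b m)).card : ℝ) ≤ S.card * ∏ p ∈ T, (1 - 2 / (p : ℝ)) := by
  obtain ⟨b, hb⟩ := greedy_two T hT S
  refine ⟨b, le_trans (le_of_eq ?_) hb⟩
  norm_cast
  congr 1
  apply Finset.ext
  intro x
  rw [mem_filter, mem_filter]
  rfl

theorem alg {c L l c₂ v : ℝ} (hc : 0 < c) (hL : 0 ≤ L) (hv : 0 ≤ v) (hl : 0 ≤ l)
    (h4 : v * (l / 4) ≤ c₂) :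
    (c * (L * l ^ 2) + c * (L * l ^ 2)) * (16 * v ^ 2) ≤ c * (4096 * c₂ ^ 2) * (L / 4) := by
  have h5 : (v * (l / 4)) ^ 2 ≤ c₂ ^ 2 := by
    have : 0 ≤ v * (l / 4) := by positivity
    gcongr
  have h9 : (c * (L * l ^ 2) + c * (L * l ^ 2)) * (16 * v ^ 2) =
      512 * (c * L) * (v * (l / 4)) ^ 2 := by ring
  rw [h9]
  have h10 : 0 ≤ c * L := by positivity
  have h11 : 0 ≤ (c * L) * c₂ ^ 2 := by positivity
  calc 512 * (c * L) * (v * (l / 4)) ^ 2 ≤ 512 * (c * L) * c₂ ^ 2 := by gcongr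
    _ ≤ c * (4096 * c₂ ^ 2) * (L / 4) := by nlinarith

/-- the choice of the classes -/
theorem select : ∃ c₂ : ℝ, 0 < c₂ ∧ ∀ c L : ℝ, 0 < c → 20000 ≤ L → ∀ S : Finset ℕ,
    (S.card : ℝ) ≤ c * (L * Real.log L ^ 2) + c * (L * Real.log L ^ 2) → ∃ b : ℕ → ℕ,
    ((S.filter (fun m => Miss ((Pz ⌊L / 20⌋₊).filter (fun p => 5 ≤ p)) b m)).card : ℝ) ≤
      c * (4096 * c₂ ^ 2) * (L / 4) := by
  obtain ⟨c₁, c₂, hc₁, hc₁₂, hV⟩ := cz_bounds
  refine ⟨c₂, hc₁.trans_le hc₁₂, fun c L hc hL S hS => ?_⟩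
  obtain ⟨b, hb⟩ := greedy_miss ((Pz ⌊L / 20⌋₊).filter (fun p => 5 ≤ p))
    (fun p hp => ⟨(mem_Pz.1 (mem_filter.1 hp).1).1, (mem_filter.1 hp).2⟩) S
  refine ⟨b, hb.trans ?_⟩
  have hl0 : 0 < Real.log L := Real.log_pos (by linarith)
  have hfl1 : 2 ≤ ⌊L / 20⌋₊ := by
    rw [Nat.le_floor_iff (by linarith)]
    push_cast
    linarith
  have hfl2 : Real.log L / 4 ≤ Real.log (⌊L / 20⌋₊ : ℝ) := by
    have h1 : L / 20 < (⌊L / 20⌋₊ : ℝ) + 1 := Nat.lt_floor_add_one _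
    have h3 : Real.sqrt L ≤ (⌊L / 20⌋₊ : ℝ) := by
      have h4 : Real.sqrt L ≤ L / 20 - 1 := by
        rw [Real.sqrt_le_left (by linarith)]
        nlinarith
      linarith
    have h5 := Real.log_le_log (Real.sqrt_pos.2 (by linarith)) h3
    rw [Real.log_sqrt (by linarith)] at h5
    linarith
  have h3 := V_pos ⌊L / 20⌋₊
  have h4 : V ⌊L / 20⌋₊ * (Real.log L / 4) ≤ c₂ := by
    refine le_trans ?_ (hV _ hfl1).2
    exact mul_le_mul_of_nonneg_left hfl2 h3.le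
  have h7 : 0 ≤ ∏ p ∈ (Pz ⌊L / 20⌋₊).filter (fun p => 5 ≤ p), (1 - 2 / (p : ℝ)) := by
    apply prod_nonneg
    intro p hp
    have h5 : (5 : ℝ) ≤ p := by exact_mod_cast (mem_filter.1 hp).2
    have : 2 / (p : ℝ) ≤ 1 := by rw [div_le_one (by linarith)]; linarith
    linarith
  have h8 := alg hc (by linarith : (0 : ℝ) ≤ L) h3.le hl0.le h4
  refine le_trans ?_ h8
  exact mul_le_mul hS (prod_two _) h7 (by positivity)

/-- the covering theorem -/
theorem cover : ∃ c₀ : ℝ, 0 < c₀ ∧ c₀ ≤ 1 ∧ ∃ X₁ : ℝ, ∀ W L : ℝ, X₁ ≤ W → Real.log W = L / 2 →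
    20000 ≤ L → ∀ S2 : Finset ℕ, (S2.card : ℝ) ≤ c₀ * (L / 4) →
    (∀ m ∈ S2, 6 * (m : ℝ) + 1 ≤ 7 * Real.exp (L ^ 2)) →
    ∀ b : ℕ → ℕ, ∀ z : ℤ, ∃ n : ℤ, (z : ℝ) + W / 4 < n ∧ (n : ℝ) ≤ z + W ∧
      (∀ p : ℕ, p.Prime → (p : ℝ) ≤ L / 20 → (p : ℤ) ∣ n - b p) ∧
      ∀ m ∈ S2, ¬ Prime (6 * n + (1 - 6 * (m : ℤ))) := by
  obtain ⟨c₀, hc₀, X₁, hass⟩ := assembleM 4
  refine ⟨min c₀ 1, lt_min hc₀ one_pos, min_le_right _ _, X₁, ?_⟩
  intro W L hW hWlog hL S2 hS2 hbd b z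
  have hAcard : ((S2.image (fun m : ℕ => 1 - 6 * (m : ℤ))).card : ℝ) ≤ min c₀ 1 * (L / 4) := by
    refine le_trans ?_ hS2
    have h := card_image_le (s := S2) (f := fun m : ℕ => 1 - 6 * (m : ℤ))
    exact Nat.cast_le.2 h
  have q1 : Real.log (6 : ℕ) ≤ Real.log W ^ 4 := by
    rw [hWlog]
    have h1 : Real.log (6 : ℕ) ≤ 6 := by
      have := Real.log_le_sub_one_of_pos (show (0 : ℝ) < (6 : ℕ) by norm_num)
      push_cast at this ⊢
      linarith
    refine h1.trans ?_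
    have h2 : (L / 2) ^ 1 ≤ (L / 2) ^ 4 := pow_le_pow_right₀ (by linarith) (by norm_num)
    linarith
  have q2 : ((S2.image (fun m : ℕ => 1 - 6 * (m : ℤ))).card : ℝ) ≤ Real.log W ^ 2 := by
    rw [hWlog]
    refine hAcard.trans ?_
    have h3 : min c₀ 1 * (L / 4) ≤ 1 * (L / 4) :=
      mul_le_mul_of_nonneg_right (min_le_right _ _) (by linarith)
    nlinarith
  have q3 : ∀ a ∈ S2.image (fun m : ℕ => 1 - 6 * (m : ℤ)), |(a : ℝ)| ≤
      Real.exp (Real.log W ^ 4) := by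
    intro a ha
    rw [hWlog]
    rw [mem_image] at ha
    obtain ⟨m, hm, rfl⟩ := ha
    have h4 := hbd m hm
    have hm0 : (0 : ℝ) ≤ m := Nat.cast_nonneg _
    have h3 : |((1 - 6 * (m : ℤ) : ℤ) : ℝ)| ≤ 6 * m + 1 := by
      push_cast
      rw [abs_le]
      constructor <;> linarith
    refine h3.trans ?_
    have h5 : (7 : ℝ) ≤ Real.exp 7 := by
      have := Real.add_one_le_exp (7 : ℝ)
      linarith
    have h6 : 7 * Real.exp (L ^ 2) ≤ Real.exp 7 * Real.exp (L ^ 2) :=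
      mul_le_mul_of_nonneg_right h5 (Real.exp_pos _).le
    have h7 : Real.exp 7 * Real.exp (L ^ 2) ≤ Real.exp ((L / 2) ^ 4) := by
      rw [← Real.exp_add]
      apply Real.exp_le_exp.2
      have e1 : (L / 2) ^ 4 = L ^ 2 * (L ^ 2 / 16) := by ring
      have e2 : (400 : ℝ) ≤ L ^ 2 / 16 := by nlinarith
      have e3 : (1 : ℝ) ≤ L ^ 2 := one_le_pow₀ (by linarith)
      rw [e1]
      nlinarith
    linarith
  have q4 : ((((S2.image (fun m : ℕ => 1 - 6 * (m : ℤ))).filter (fun a => ∀ p : ℕ, p.Prime →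
      (p : ℝ) ≤ Real.log W / 10 → ¬ (p : ℤ) ∣ ((6 : ℕ) : ℤ) * (b p : ℤ) + a)).card : ℕ) : ℝ) ≤
      c₀ * Real.log W := by
    have h1 := card_filter_le (S2.image (fun m : ℕ => 1 - 6 * (m : ℤ))) (fun a => ∀ p : ℕ, p.Prime →
      (p : ℝ) ≤ Real.log W / 10 → ¬ (p : ℤ) ∣ ((6 : ℕ) : ℤ) * (b p : ℤ) + a)
    have h2 := (Nat.cast_le (α := ℝ)).2 h1
    refine h2.trans (hAcard.trans ?_)
    rw [hWlog]
    have h3 : min c₀ 1 * (L / 4) ≤ c₀ * (L / 4) :=
      mul_le_mul_of_nonneg_right (min_le_left _ _) (by linarith)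
    nlinarith
  obtain ⟨n, h1, h2, h3, h4⟩ := hass W hW 6 (by norm_num) q1 _ q2 q3 b q4 z
  refine ⟨n, h1, h2, ?_, ?_⟩
  · intro p hp hpL
    apply h3 p hp
    rw [hWlog]
    linarith
  · intro m hm
    exact h4 _ (mem_image_of_mem _ hm)

/-- The theorem, for an arbitrary set `P`. -/
theorem main : ∃ c : ℝ, 0 < c ∧ ∃ X₀ : ℝ, ∀ X Y : ℝ, X₀ ≤ X → 0 ≤ Y →
    Real.log Y ≤ Real.log X ^ 2 → ∀ P : ℕ → Prop,
    ∃ n : ℕ, Y < n ∧ (n : ℝ) ≤ Y + X ∧
      ∀ k m : ℕ, k + m = n → (6 * k - 1).Prime → (6 * k + 1).Prime → P m →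
        c * (Real.log X * Real.log (Real.log X) ^ 2) < Nat.count P m := by
  obtain ⟨c₀, hc₀, hc₀1, X₁, hass⟩ := cover
  obtain ⟨c₂, hc₂, hsel⟩ := select
  obtain ⟨X₂, hnum⟩ := num
  obtain ⟨c, hcpos, hc1, hca⟩ : ∃ c : ℝ, 0 < c ∧ c ≤ 1 ∧ c * (4096 * c₂ ^ 2) ≤ c₀ := by
    refine ⟨min (c₀ / (4096 * c₂ ^ 2)) 1, by positivity, min_le_right _ _, ?_⟩
    have h1 : min (c₀ / (4096 * c₂ ^ 2)) 1 ≤ c₀ / (4096 * c₂ ^ 2) := min_le_left _ _
    rwa [le_div_iff₀ (by positivity)] at h1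
  refine ⟨c, hcpos, max (max (max X₁ 1 ^ 2) X₂) (Real.exp (1 / c)), fun X Y hX hY hYX P => ?_⟩
  have hXa : max X₁ 1 ^ 2 ≤ X := ((le_max_left _ _).trans (le_max_left _ _)).trans hX
  obtain ⟨hX1, hL, hn1, hn2⟩ := hnum X (((le_max_right _ _).trans (le_max_left _ _)).trans hX)
  have hLc : 1 / c ≤ Real.log X := by
    rw [← Real.log_exp (1 / c)]
    exact Real.log_le_log (Real.exp_pos _) ((le_max_right _ _).trans hX)
  have hX0 : 0 < X := by linarith
  obtain ⟨W, hW⟩ : ∃ W : ℝ, W = Real.sqrt X := ⟨_, rfl⟩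
  have hWX : W * W = X := by rw [hW]; exact Real.mul_self_sqrt hX0.le
  have hW1 : X₁ ≤ W := by
    refine (le_max_left X₁ 1).trans ?_
    rw [hW]
    exact Real.le_sqrt_of_sq_le hXa
  have hWlog : Real.log W = Real.log X / 2 := by rw [hW, Real.log_sqrt hX0.le]
  rw [← hW] at hn1
  clear hW hXa hX
  obtain ⟨L, hLd⟩ : ∃ L : ℝ, L = Real.log X := ⟨_, rfl⟩
  rw [← hLd] at hL hn1 hn2 hLc hWlog hYX ⊢
  have hXe : X = Real.exp L := by rw [hLd, Real.exp_log hX0]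
  clear hLd
  have hL3 : (1 : ℝ) ≤ L ^ 3 := one_le_pow₀ (by linarith)
  have hWpos : 0 < W := by linarith
  have hl0 : 0 < Real.log L := Real.log_pos (by linarith)
  have hlL : Real.log L ≤ L := (Real.log_le_sub_one_of_pos (by linarith)).trans (by linarith)
  obtain ⟨M, hM⟩ : ∃ M : ℝ, M = c * (L * Real.log L ^ 2) := ⟨_, rfl⟩
  rw [← hM]
  have hML : M ≤ L ^ 3 := by
    have h1 : Real.log L ^ 2 ≤ L ^ 2 := pow_le_pow_left₀ hl0.le hlL 2
    have h2 : L * Real.log L ^ 2 ≤ L * L ^ 2 := mul_le_mul_of_nonneg_left h1 (by linarith)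
    have h3 : 0 ≤ L * Real.log L ^ 2 := by positivity
    rw [hM]
    nlinarith
  have hM1 : 1 ≤ M := by
    have h1 : 1 ≤ c * L := by
      rw [div_le_iff₀ hcpos] at hLc
      linarith
    have h2 : 1 ≤ Real.log L := by
      rw [Real.le_log_iff_exp_le (by linarith)]
      have := Real.exp_one_lt_d9
      linarith
    have h3 : 1 ≤ Real.log L ^ 2 := one_le_pow₀ h2
    have h4 : M = c * L * Real.log L ^ 2 := by rw [hM]; ring
    rw [h4]
    nlinarith
  have hS := fun S : Finset ℕ => hsel c L hcpos hL S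
  rw [← hM] at hS
  obtain ⟨S, hSd⟩ : ∃ S : Finset ℕ, ∀ t, t ∈ S ↔ ((t : ℝ) ≤ Y + X ∧ P t ∧ (Nat.count P t : ℝ) ≤ M) := by
    refine ⟨(range (⌊Y + X⌋₊ + 1)).filter (fun t => P t ∧ (Nat.count P t : ℝ) ≤ M), fun t => ?_⟩
    rw [mem_filter, mem_range, Nat.lt_succ_iff, Nat.le_floor_iff (by linarith)]
  have hScard : (S.card : ℝ) ≤ M + 1 := by
    have h1 : S.card ≤ (range (⌊M⌋₊ + 1)).card := by
      apply card_le_card_of_injOn (fun t => Nat.count P t)
      · intro t ht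
        rw [mem_coe, hSd] at ht
        rw [mem_coe, mem_range]
        have := Nat.le_floor ht.2.2
        show Nat.count P t < ⌊M⌋₊ + 1
        omega
      · intro t ht t' ht' heq
        rw [mem_coe, hSd] at ht ht'
        exact Nat.count_injective ht.2.1 ht'.2.1 heq
    rw [card_range] at h1
    have h2 : (S.card : ℝ) ≤ (⌊M⌋₊ : ℝ) + 1 := by exact_mod_cast h1
    have h3 := Nat.floor_le (by linarith : 0 ≤ M)
    linarith
  -- a window which contains no element of `S`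
  obtain ⟨j, hj, hwin⟩ := window S Y W hWpos
  have hjS : (j : ℝ) ≤ M + 1 := le_trans (by exact_mod_cast hj) hScard
  have hj0 : (0 : ℝ) ≤ j := Nat.cast_nonneg _
  have hW24 : 48 ≤ W := by linarith
  have hLW : L ≤ W := by
    have : L ^ 1 ≤ L ^ 3 := pow_le_pow_right₀ (by linarith) (by norm_num)
    linarith
  -- the classes
  obtain ⟨b, hb⟩ := hS S (by linarith)
  have hbc : ((S.filter (fun m => Miss ((Pz ⌊L / 20⌋₊).filter (fun p => 5 ≤ p)) b m)).card : ℝ) ≤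
      c₀ * (L / 4) := hb.trans (mul_le_mul_of_nonneg_right hca (by linarith))
  have hYe : Y ≤ Real.exp (L ^ 2) := by
    rcases hY.eq_or_lt with h | h
    · rw [← h]; exact (Real.exp_pos _).le
    · rw [← Real.exp_log h]
      exact Real.exp_le_exp.2 hYX
  have hbd : ∀ m ∈ S.filter (fun m => Miss ((Pz ⌊L / 20⌋₊).filter (fun p => 5 ≤ p)) b m),
      6 * (m : ℝ) + 1 ≤ 7 * Real.exp (L ^ 2) := by
    intro m hm
    have hm1 := ((hSd m).1 (mem_filter.1 hm).1).1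
    linarith
  obtain ⟨n, h1, h2, hsmall, hnp⟩ := hass W L hW1 hWlog hL _ hbc hbd b ⌈Y + 3 * j * W + W⌉
  have hz1 : Y + 3 * j * W + W ≤ ⌈Y + 3 * j * W + W⌉ := Int.le_ceil _
  have hz2 : (⌈Y + 3 * j * W + W⌉ : ℝ) < Y + 3 * j * W + W + 1 := Int.ceil_lt_add_one _
  have hnY : Y + 3 * j * W + W + W / 4 < n := by linarith
  have h3jW : 0 ≤ 3 * (j : ℝ) * W := by positivity
  have hn3 : (n : ℝ) ≤ Y + 3 * (j + 1) * W := by
    have : 3 * ((j : ℝ) + 1) * W = 3 * j * W + 3 * W := by ring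
    linarith
  have hnX : (n : ℝ) ≤ Y + X := by
    refine hn3.trans ?_
    rw [← hWX]
    have : 3 * ((j : ℝ) + 1) ≤ W := by linarith
    have := mul_le_mul_of_nonneg_right this hWpos.le
    linarith
  have hn0 : 0 ≤ n := by
    have : (0 : ℝ) < n := by linarith
    have h5 : (0 : ℤ) < n := by exact_mod_cast this
    omega
  have hcast : ((n.toNat : ℕ) : ℤ) = n := Int.toNat_of_nonneg hn0
  have hcastR : ((n.toNat : ℕ) : ℝ) = n := by exact_mod_cast hcast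
  refine ⟨n.toNat, by rw [hcastR]; linarith, by rw [hcastR]; exact hnX, ?_⟩
  intro k m hkm hp1 hp2 hPm
  by_contra hcon
  push Not at hcon
  have hkm' : (k : ℤ) + m = n := by rw [← hcast, ← hkm]; push_cast; ring
  have hkmR : (k : ℝ) + m = n := by exact_mod_cast hkm'
  have hk0 : (0 : ℝ) ≤ k := Nat.cast_nonneg _
  have hmS : m ∈ S := by
    rw [hSd]
    exact ⟨by linarith, hPm, hcon⟩
  have hmY : (m : ℝ) ≤ Y + 3 * j * W := by
    by_contra hc2
    push Not at hc2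
    exact hwin m hmS ⟨hc2, by linarith⟩
  have hkW : W < k := by linarith
  have hkL : L / 20 < k := by linarith
  have hk1 : 1 ≤ k := by
    have : (1 : ℝ) < k := by linarith
    have : 1 < k := by exact_mod_cast this
    omega
  by_cases hm2 : Miss ((Pz ⌊L / 20⌋₊).filter (fun p => 5 ≤ p)) b m
  · apply hnp m (mem_filter.2 ⟨hmS, hm2⟩)
    have e : 6 * n + (1 - 6 * (m : ℤ)) = ((6 * k + 1 : ℕ) : ℤ) := by
      rw [← hkm']; push_cast; ring
    rw [e]
    exact Nat.prime_iff_prime_int.1 hp2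
  · have : ∃ p ∈ (Pz ⌊L / 20⌋₊).filter (fun p => 5 ≤ p), Hit p (b p) m := by
      by_contra hc3
      push Not at hc3
      exact hm2 hc3
    obtain ⟨p, hp, hhit⟩ := this
    rw [mem_filter, mem_Pz, Nat.le_floor_iff (by linarith)] at hp
    obtain ⟨⟨hpp, hpL⟩, hp5⟩ := hp
    have hpn := hsmall p hpp hpL
    rcases hhit with hh | hh
    · have h3 := dvd_add (hpn.mul_left 6) hh
      have e : 6 * (n - (b p : ℤ)) + (6 * (b p : ℤ) + 1 - 6 * m) = ((6 * k + 1 : ℕ) : ℤ) := by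
        rw [← hkm']; push_cast; ring
      rw [e] at h3
      have h4 : p ∣ 6 * k + 1 := by exact_mod_cast h3
      have h5 := (Nat.prime_dvd_prime_iff_eq hpp hp2).1 h4
      have h6 : (p : ℝ) = 6 * k + 1 := by rw [h5]; push_cast; ring
      linarith
    · have h3 := dvd_add (hpn.mul_left 6) hh
      have e : 6 * (n - (b p : ℤ)) + (6 * (b p : ℤ) - 1 - 6 * m) = ((6 * k - 1 : ℕ) : ℤ) := by
        rw [← hkm', Nat.cast_sub (by omega)]; push_cast; ring
      rw [e] at h3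
      have h4 : p ∣ 6 * k - 1 := by exact_mod_cast h3
      have h5 := (Nat.prime_dvd_prime_iff_eq hpp hp1).1 h4
      have h6 : (p : ℝ) = 6 * k - 1 := by rw [h5, Nat.cast_sub (by omega)]; push_cast; ring
      linarith

end Pool.Agent.TH685.TI
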