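import Pool.Agent.H197R2.PG4

set_option autoImplicit false
set_option maxHeartbeats 1000000

/-! # Moments of `∏_{p ∣ n, p > w} (1 + 1 / p)` over the integers and over linear forms -/

namespace Pool.Agent.TH685.TI

open Finset Pool.Agent.H197R2.PG

/-- the part of the singular factor coming from primes above `w` -/
noncomputable def gw (w n : ℕ) : ℝ := ∏ p ∈ n.primeFactors.filter (fun p => w < p), (1 + 1 / (p : ℝ))

lemma one_le_pp (s : Finset ℕ) : (1 : ℝ) ≤ ∏ p ∈ s, (1 + 1 / (p : ℝ)) := by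
  classical
  induction s using Finset.induction_on with
  | empty => simp
  | insert a s ha ih =>
    rw [Finset.prod_insert ha]
    have h2 : (1 : ℝ) ≤ 1 + 1 / (a : ℝ) := by
      have : (0 : ℝ) ≤ 1 / (a : ℝ) := by positivity
      linarith
    calc (1 : ℝ) = 1 * 1 := by ring
      _ ≤ _ := mul_le_mul h2 ih (by norm_num) (by linarith)

lemma one_le_gw (w n : ℕ) : 1 ≤ gw w n := one_le_pp _

lemma moment_gw (w k Y : ℕ) :
    ∑ h ∈ Icc 1 Y, gw w h ^ k ≤ Y * ∏ p ∈ (PY Y).filter (fun p => w < p), (1 + wt k p / p) := by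
  classical
  have hPY : ∀ p ∈ (PY Y).filter (fun p => w < p), p.Prime := fun p hp =>
    (mem_filter.mp (mem_filter.mp hp).1).2
  have h1 : ∀ h ∈ Icc 1 Y, gw w h ^ k = ∑ T ∈ ((PY Y).filter (fun p => w < p)).powerset,
      if T ⊆ h.primeFactors.filter (fun p => w < p) then ∏ p ∈ T, wt k p else 0 := by
    intro h hh
    rw [mem_Icc] at hh
    have e1 : gw w h ^ k = ∏ p ∈ h.primeFactors.filter (fun p => w < p), (1 + wt k p) := by
      unfold gw
      rw [← Finset.prod_pow]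
      apply Finset.prod_congr rfl
      intro p _
      unfold wt
      ring
    rw [e1, Finset.prod_one_add, ← Finset.sum_filter]
    apply Finset.sum_congr _ (fun _ _ => rfl)
    ext T
    rw [mem_filter, mem_powerset, mem_powerset]
    constructor
    · intro hT
      refine ⟨?_, hT⟩
      intro p hp
      have hpp := hT hp
      rw [mem_filter, Nat.mem_primeFactors] at hpp
      unfold PY
      rw [mem_filter, mem_filter, mem_Icc]
      exact ⟨⟨⟨hpp.1.1.one_lt.le, (Nat.le_of_dvd (by omega) hpp.1.2.1).trans hh.2⟩, hpp.1.1⟩, hpp.2⟩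
    · exact fun hT => hT.2
  rw [Finset.sum_congr rfl h1, Finset.sum_comm, Finset.prod_one_add, Finset.mul_sum]
  apply Finset.sum_le_sum
  intro T hT
  rw [mem_powerset] at hT
  rw [← Finset.sum_filter, Finset.sum_const, nsmul_eq_mul]
  have hcard : ((Icc 1 Y).filter (fun h => T ⊆ h.primeFactors.filter (fun p => w < p))).card ≤
      Y / ∏ p ∈ T, p := by
    rw [← Nat.Ioc_filter_dvd_card_eq_div Y (∏ p ∈ T, p)]
    apply Finset.card_le_card
    intro h hh
    rw [mem_filter, mem_Icc] at hh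
    rw [mem_filter, mem_Ioc]
    refine ⟨⟨by omega, hh.1.2⟩, ?_⟩
    apply Finset.prod_primes_dvd
    · intro p hp
      exact (hPY p (hT hp)).prime
    · intro p hp
      exact Nat.dvd_of_mem_primeFactors (mem_filter.mp (hh.2 hp)).1
  have h2 : (((Icc 1 Y).filter (fun h => T ⊆ h.primeFactors.filter (fun p => w < p))).card : ℝ) ≤
      (Y : ℝ) / ∏ p ∈ T, (p : ℝ) := by
    calc (((Icc 1 Y).filter (fun h => T ⊆ h.primeFactors.filter (fun p => w < p))).card : ℝ)
        ≤ ((Y / ∏ p ∈ T, p : ℕ) : ℝ) := by exact_mod_cast hcard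
      _ ≤ (Y : ℝ) / ((∏ p ∈ T, p : ℕ) : ℝ) := Nat.cast_div_le
      _ = (Y : ℝ) / ∏ p ∈ T, (p : ℝ) := by push_cast; rfl
  calc (((Icc 1 Y).filter (fun h => T ⊆ h.primeFactors.filter (fun p => w < p))).card : ℝ) *
        ∏ p ∈ T, wt k p
      ≤ (Y : ℝ) / (∏ p ∈ T, (p : ℝ)) * ∏ p ∈ T, wt k p := by
        apply mul_le_mul_of_nonneg_right h2
        exact Finset.prod_nonneg (fun p _ => wt_nonneg k p)
    _ = Y * ∏ p ∈ T, (wt k p / p) := by
        rw [Finset.prod_div_distrib]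
        ring

lemma euler_gw (w k Y : ℕ) (hk : 1 ≤ k) (hkw : k ≤ w) :
    ∏ p ∈ (PY Y).filter (fun p => w < p), (1 + wt k p / p) ≤ Real.exp 2 := by
  have hk0 : (0 : ℝ) < k := by exact_mod_cast (by omega : 0 < k)
  have hfac1 : ∀ p : ℕ, 1 ≤ 1 + wt k p / p := by
    intro p
    have : 0 ≤ wt k p / p := div_nonneg (wt_nonneg k p) (Nat.cast_nonneg p)
    linarith
  have h1 : ∏ p ∈ (PY Y).filter (fun p => w < p), (1 + wt k p / p) ≤
      ∏ p ∈ (PY Y).filter (fun p => w < p), Real.exp (2 * k * ((p : ℝ) ^ 2)⁻¹) := by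
    apply Finset.prod_le_prod
    · intro p _
      linarith [hfac1 p]
    · intro p hp
      have hpk : k < p := lt_of_le_of_lt hkw (mem_filter.mp hp).2
      have hpk' : (k : ℝ) < p := by exact_mod_cast hpk
      have hp0 : (0 : ℝ) < p := by linarith
      have h3 : wt k p ≤ 2 * (k / p) := by
        have h4 : (1 + 1 / (p : ℝ)) ^ k ≤ Real.exp (1 / (p : ℝ)) ^ k := by
          have : (0 : ℝ) ≤ 1 / (p : ℝ) := by positivity
          apply pow_le_pow_left₀ (by linarith)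
          have := Real.add_one_le_exp (1 / (p : ℝ))
          linarith
        rw [← Real.exp_nat_mul] at h4
        have h5 : (k : ℝ) * (1 / p) = k / p := by ring
        rw [h5] at h4
        have h6 : |(k : ℝ) / p| ≤ 1 := by
          rw [abs_of_nonneg (by positivity), div_le_one hp0]
          exact hpk'.le
        have h7 := Real.abs_exp_sub_one_le h6
        rw [abs_of_nonneg (by positivity : (0 : ℝ) ≤ (k : ℝ) / p)] at h7
        have h8 := le_abs_self (Real.exp ((k : ℝ) / p) - 1)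
        unfold wt
        linarith
      have h9 : wt k p / p ≤ 2 * k * ((p : ℝ) ^ 2)⁻¹ := by
        calc wt k p / p ≤ 2 * (k / p) / p := by gcongr
          _ = 2 * k * ((p : ℝ) ^ 2)⁻¹ := by field_simp
      have h10 := Real.add_one_le_exp (2 * k * ((p : ℝ) ^ 2)⁻¹)
      linarith
  refine h1.trans ?_
  rw [← Real.exp_sum, ← Finset.mul_sum]
  apply Real.exp_le_exp.mpr
  have h11 : ∑ p ∈ (PY Y).filter (fun p => w < p), ((p : ℝ) ^ 2)⁻¹ ≤ (k : ℝ)⁻¹ := by
    rcases le_or_gt k Y with hkY | hkY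
    · have h12 := sum_Ioc_inv_sq_le_sub (α := ℝ) (k := k) (n := Y) (by omega) hkY
      have h13 : ∑ p ∈ (PY Y).filter (fun p => w < p), ((p : ℝ) ^ 2)⁻¹ ≤
          ∑ p ∈ Ioc k Y, ((p : ℝ) ^ 2)⁻¹ := by
        apply Finset.sum_le_sum_of_subset_of_nonneg
        · intro p hp
          rw [mem_filter] at hp
          unfold PY at hp
          rw [mem_filter, mem_Icc] at hp
          rw [mem_Ioc]
          exact ⟨lt_of_le_of_lt hkw hp.2, hp.1.1.2⟩
        · intro p _ _
          positivity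
      have h14 : (0 : ℝ) ≤ (Y : ℝ)⁻¹ := by positivity
      linarith
    · have h15 : (PY Y).filter (fun p => w < p) = ∅ := by
        rw [Finset.filter_eq_empty_iff]
        intro p hp
        unfold PY at hp
        rw [mem_filter, mem_Icc] at hp
        omega
      rw [h15, Finset.sum_empty]
      positivity
  calc 2 * (k : ℝ) * ∑ p ∈ (PY Y).filter (fun p => w < p), ((p : ℝ) ^ 2)⁻¹
      ≤ 2 * (k : ℝ) * (k : ℝ)⁻¹ := by gcongr
    _ = 2 := by field_simp

lemma moment_gw_le (w k Y : ℕ) (hk : 1 ≤ k) (hkw : k ≤ w) :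
    ∑ h ∈ Icc 1 Y, gw w h ^ k ≤ Y * Real.exp 2 :=
  (moment_gw w k Y).trans (mul_le_mul_of_nonneg_left (euler_gw w k Y hk hkw) (Nat.cast_nonneg _))

/-- the factor for the three linear forms -/
noncomputable def g3 (w h : ℕ) : ℝ := (gw w h * gw w (3 * h - 1) * gw w (3 * h + 1)) ^ 2

lemma one_le_g3 (w h : ℕ) : 1 ≤ g3 w h := by
  unfold g3
  have h1 := one_le_gw w h
  have h2 := one_le_gw w (3 * h - 1)
  have h3 := one_le_gw w (3 * h + 1)
  have h4 : 1 ≤ gw w h * gw w (3 * h - 1) := by nlinarith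
  have h5 : 1 ≤ gw w h * gw w (3 * h - 1) * gw w (3 * h + 1) := by nlinarith
  exact one_le_pow₀ h5

lemma amgm (a b c : ℝ) (ha : 0 ≤ a) (hb : 0 ≤ b) (hc : 0 ≤ c) :
    a * b * c ≤ (a ^ 3 + b ^ 3 + c ^ 3) / 3 := by
  nlinarith [mul_nonneg (add_nonneg (add_nonneg ha hb) hc)
    (add_nonneg (add_nonneg (sq_nonneg (a - b)) (sq_nonneg (b - c))) (sq_nonneg (c - a)))]

lemma moment_g3 (w q Y : ℕ) (hq : 1 ≤ q) (hqw : 6 * q ≤ w) :
    ∑ h ∈ Icc 1 Y, g3 w h ^ q ≤ (3 * Y + 1) * Real.exp 2 := by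
  have hpt : ∀ h ∈ Icc 1 Y, g3 w h ^ q ≤
      (gw w h ^ (6 * q) + gw w (3 * h - 1) ^ (6 * q) + gw w (3 * h + 1) ^ (6 * q)) / 3 := by
    intro h _
    have h1 := one_le_gw w h
    have h2 := one_le_gw w (3 * h - 1)
    have h3 := one_le_gw w (3 * h + 1)
    have e : g3 w h ^ q = gw w h ^ (2 * q) * gw w (3 * h - 1) ^ (2 * q) *
        gw w (3 * h + 1) ^ (2 * q) := by
      unfold g3
      rw [← pow_mul, mul_pow, mul_pow]
    rw [e]
    have h4 := amgm (gw w h ^ (2 * q)) (gw w (3 * h - 1) ^ (2 * q)) (gw w (3 * h + 1) ^ (2 * q))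
      (by positivity) (by positivity) (by positivity)
    rw [← pow_mul, ← pow_mul, ← pow_mul] at h4
    have e2 : 2 * q * 3 = 6 * q := by ring
    rw [e2] at h4
    exact h4
  have hf : ∀ n, 0 ≤ gw w n ^ (6 * q) := fun n => pow_nonneg (by linarith [one_le_gw w n]) _
  have hM := moment_gw_le w (6 * q) (3 * Y + 1) (by omega) hqw
  have key : ∀ f : ℕ → ℕ, (∀ h ∈ Icc 1 Y, f h ∈ Icc 1 (3 * Y + 1)) → Set.InjOn f (Icc 1 Y : Finset ℕ) →
      ∑ h ∈ Icc 1 Y, gw w (f h) ^ (6 * q) ≤ ∑ n ∈ Icc 1 (3 * Y + 1), gw w n ^ (6 * q) := by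
    intro f hf1 hf2
    rw [← Finset.sum_image (f := fun n => gw w n ^ (6 * q)) hf2]
    apply Finset.sum_le_sum_of_subset_of_nonneg
    · intro n hn
      obtain ⟨h, hh, rfl⟩ := mem_image.mp hn
      exact hf1 h hh
    · intro n _ _
      exact hf n
  have k1 := key (fun h => h) (by
    intro h hh
    rw [mem_Icc] at hh ⊢
    omega) (by
    intro a _ b _ hab
    exact hab)
  have k2 := key (fun h => 3 * h - 1) (by
    intro h hh
    rw [mem_Icc] at hh ⊢
    omega) (by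
    intro a ha b hb hab
    rw [mem_coe, mem_Icc] at ha hb
    simp only at hab
    omega)
  have k3 := key (fun h => 3 * h + 1) (by
    intro h hh
    rw [mem_Icc] at hh ⊢
    omega) (by
    intro a _ b _ hab
    simp only at hab
    omega)
  have h5 := Finset.sum_le_sum hpt
  rw [← Finset.sum_div, Finset.sum_add_distrib, Finset.sum_add_distrib] at h5
  push_cast at hM
  linarith

/-- the average of the factor over the differences of a fairly dense set -/
theorem avg_g3 (w q T : ℕ) (S : Finset ℕ) (E : ℝ) (hq : 1 ≤ q) (hqw : 6 * q ≤ w) (hS : S ⊆ Icc 1 T)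
    (hE : 0 ≤ E) (hT : 64 * (T : ℝ) ≤ E ^ q * S.card) :
    ∑ z ∈ S.offDiag, g3 w (Nat.dist z.1 z.2) ≤ E * (S.card : ℝ) ^ 2 := by
  classical
  obtain ⟨X, hX⟩ : ∃ X : ℝ, X = ∑ z ∈ S.offDiag, g3 w (Nat.dist z.1 z.2) := ⟨_, rfl⟩
  rw [← hX]
  have hX0 : 0 ≤ X := by
    rw [hX]
    exact Finset.sum_nonneg fun z _ => by linarith [one_le_g3 w (Nat.dist z.1 z.2)]
  rcases Nat.eq_zero_or_pos T with hT0 | hT1
  · have hSe : S = ∅ := by
      rw [hT0] at hS
      exact subset_empty.1 (by simpa using hS)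
    rw [hX, hSe]
    simp
  obtain ⟨m, rfl⟩ : ∃ m, q = m + 1 := ⟨q - 1, by omega⟩
  have h1 : X ^ (m + 1) ≤ (#S.offDiag : ℝ) ^ m * ∑ z ∈ S.offDiag, g3 w (Nat.dist z.1 z.2) ^ (m + 1) := by
    rw [hX]
    exact pow_sum_le_card_mul_sum_pow
      (fun z _ => by linarith [one_le_g3 w (Nat.dist z.1 z.2)]) m
  have h2 : (#S.offDiag : ℝ) ≤ (#S : ℝ) ^ 2 := by
    have : #S.offDiag ≤ #S * #S := by
      rw [offDiag_card]
      exact Nat.sub_le _ _
    calc (#S.offDiag : ℝ) ≤ ((#S * #S : ℕ) : ℝ) := by exact_mod_cast this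
      _ = (#S : ℝ) ^ 2 := by push_cast; ring
  have h5 := sum_dist_le S T hS (fun n : ℕ => g3 w n ^ (m + 1))
    (fun n => pow_nonneg (by linarith [one_le_g3 w n]) _)
  have h6 := moment_g3 w (m + 1) T (by omega) hqw
  have hT1r : (1 : ℝ) ≤ T := by exact_mod_cast hT1
  have he : Real.exp 2 ≤ 8 := by
    have h7 := Real.exp_one_lt_d9
    have h8 : Real.exp 2 = Real.exp 1 ^ 2 := by
      rw [← Real.exp_nat_mul]; norm_num
    have h9 := Real.exp_pos 1
    rw [h8]
    nlinarith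
  have h7 : (3 * (T : ℝ) + 1) * Real.exp 2 ≤ 32 * T := by
    have : (3 * (T : ℝ) + 1) * Real.exp 2 ≤ (4 * T) * 8 := by
      apply mul_le_mul (by linarith) he (Real.exp_pos 2).le (by linarith)
    linarith
  have hS0 : (0 : ℝ) ≤ S.card := Nat.cast_nonneg _
  have h8 : X ^ (m + 1) ≤ (E * (S.card : ℝ) ^ 2) ^ (m + 1) := by
    calc X ^ (m + 1) ≤ (#S.offDiag : ℝ) ^ m * ∑ z ∈ S.offDiag, g3 w (Nat.dist z.1 z.2) ^ (m + 1) := h1
      _ ≤ ((#S : ℝ) ^ 2) ^ m * (2 * #S * (32 * T)) := by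
          apply mul_le_mul
          · gcongr
          · refine h5.trans ?_
            apply mul_le_mul_of_nonneg_left (h6.trans h7) (by positivity)
          · apply Finset.sum_nonneg
            intro z _
            exact pow_nonneg (by linarith [one_le_g3 w (Nat.dist z.1 z.2)]) _
          · positivity
      _ = ((#S : ℝ) ^ 2) ^ m * (#S * (64 * T)) := by ring
      _ ≤ ((#S : ℝ) ^ 2) ^ m * (#S * (E ^ (m + 1) * #S)) := by gcongr
      _ = (E * (S.card : ℝ) ^ 2) ^ (m + 1) := by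
          rw [mul_pow]
          ring
  exact le_of_pow_le_pow_left₀ (by omega) (by positivity) h8

/-- small primes: Mertens -/
theorem small_le : ∃ C : ℝ, 1 ≤ C ∧ ∀ w : ℕ, 3 ≤ w →
    ∏ p ∈ (Icc 1 w).filter Nat.Prime, (1 + 1 / (p : ℝ)) ≤ C * Real.log w := by
  obtain ⟨C0, hC0⟩ := Pool.Agent.Helper601.Mertens.mertens_inv
  refine ⟨Real.exp |C0|, Real.one_le_exp (by positivity), fun w hw => ?_⟩
  have hw3 : (3 : ℝ) ≤ w := by exact_mod_cast hw
  have hlog : 0 < Real.log w := Real.log_pos (by linarith)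
  have h1 : ∏ p ∈ (Icc 1 w).filter Nat.Prime, (1 + 1 / (p : ℝ)) ≤
      ∏ p ∈ (Icc 1 w).filter Nat.Prime, Real.exp (1 / (p : ℝ)) := by
    apply Finset.prod_le_prod
    · intro p _
      positivity
    · intro p _
      have := Real.add_one_le_exp (1 / (p : ℝ))
      linarith
  refine h1.trans ?_
  rw [← Real.exp_sum]
  have h2 := (abs_le.mp (hC0 w hw)).2
  have h3 := le_abs_self C0
  calc Real.exp (∑ p ∈ (Icc 1 w).filter Nat.Prime, (1 : ℝ) / p) ≤
        Real.exp (|C0| + Real.log (Real.log w)) := Real.exp_le_exp.2 (by linarith)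
    _ = Real.exp |C0| * Real.log w := by rw [Real.exp_add, Real.exp_log hlog]

end Pool.Agent.TH685.TI
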