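import Pool.Agent.TH685.TI.SqTwo
import Pool.Agent.H197R2.PG6
import Pool.Agent.W735.DP.Sieve

set_option autoImplicit false
set_option maxHeartbeats 1000000

/-! # Upper bound for the number of primes `t ≤ x` with `|± t + h|` prime -/

namespace Pool.Agent.TH685.PairSig

open Finset Polynomial
open Pool.Agent.H410R2.ED Pool.Agent.H474R2.PG Pool.Agent.TH506.APD
open Pool.Agent.H197R2.PG (gg one_le_gg)

lemma one_class {l : ℕ} (hl : l.Prime) (σ : ℤ) (hσ : σ = 1 ∨ σ = -1) (h : ℤ) :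
    ∃ a : ℕ, a < l ∧ ∀ t : ℕ, t < l → ((l : ℤ) ∣ σ * t + h ↔ t = a) := by
  have hl0 : (0 : ℤ) < l := by exact_mod_cast hl.pos
  refine ⟨((-(σ * h)) % (l : ℤ)).toNat, ?_, fun t ht => ?_⟩
  · have h1 := Int.emod_nonneg (-(σ * h)) hl0.ne'
    have h2 := Int.emod_lt_of_pos (-(σ * h)) hl0
    omega
  · have h1 := Int.emod_nonneg (-(σ * h)) hl0.ne'
    have h2 := Int.emod_lt_of_pos (-(σ * h)) hl0
    have h3 : (l : ℤ) ∣ σ * t + h ↔ (l : ℤ) ∣ (t : ℤ) - (-(σ * h)) := by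
      rcases hσ with rfl | rfl
      · have e : (t : ℤ) - (-(1 * h)) = 1 * t + h := by ring
        rw [e]
      · have e : (t : ℤ) - (-(-1 * h)) = -(-1 * t + h) := by ring
        rw [e, dvd_neg]
    rw [h3]
    have h4 : (l : ℤ) ∣ (t : ℤ) - (-(σ * h)) ↔ (t : ℤ) = (-(σ * h)) % (l : ℤ) := by
      constructor
      · intro hd
        have h5 := (Int.emod_emod_of_dvd (t : ℤ) (dvd_refl (l : ℤ)))
        have h6 : (t : ℤ) % l = (-(σ * h)) % l := (Int.emod_emod_of_dvd _ (dvd_refl _)).symm.trans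
          (by rw [Int.emod_emod_of_dvd _ (dvd_refl _)]; exact Int.ModEq.symm ((Int.modEq_iff_dvd).2 hd))
        rw [← h6]
        exact (Int.emod_eq_of_lt (by positivity) (by exact_mod_cast ht)).symm
      · intro he
        rw [he]
        have h5 : (-(σ * h)) % (l : ℤ) - (-(σ * h)) = -((l : ℤ) * ((-(σ * h)) / l)) := by
          have := Int.emod_add_mul_ediv (-(σ * h)) (l : ℤ)
          linarith
        rw [h5]
        exact (dvd_mul_right _ _).neg_right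
    rw [h4]
    omega

lemma exp_le_gg (h : ℕ) (s : Finset ℕ) (hs : s ⊆ h.primeFactors) :
    Real.exp (∑ l ∈ s, 1 / (l : ℝ)) ≤ gg h ^ 2 := by
  have h1 : ∀ l ∈ h.primeFactors, (1 : ℝ) ≤ (1 + 1 / (l : ℝ)) ^ 2 := by
    intro l _
    apply one_le_pow₀
    have : (0 : ℝ) ≤ 1 / (l : ℝ) := by positivity
    linarith
  calc Real.exp (∑ l ∈ s, 1 / (l : ℝ)) = ∏ l ∈ s, Real.exp (1 / (l : ℝ)) := Real.exp_sum _ _
    _ ≤ ∏ l ∈ s, (1 + 1 / (l : ℝ)) ^ 2 := by
        apply Finset.prod_le_prod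
        · intro l _
          positivity
        · intro l hl
          have hp := Nat.prime_of_mem_primeFactors (hs hl)
          have h2 : (2 : ℝ) ≤ l := by exact_mod_cast hp.two_le
          have h3 : |1 / (l : ℝ)| ≤ 1 := by
            rw [abs_of_nonneg (by positivity), div_le_one (by linarith)]
            linarith
          have h4 := Real.abs_exp_sub_one_sub_id_le h3
          have h5 := (abs_le.1 h4).2
          have h6 : (0 : ℝ) ≤ 1 / (l : ℝ) := by positivity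
          nlinarith
    _ ≤ ∏ l ∈ h.primeFactors, (1 + 1 / (l : ℝ)) ^ 2 :=
        Finset.prod_le_prod_of_subset_of_one_le hs (fun l _ => by positivity) (fun l hl _ => h1 l hl)
    _ = gg h ^ 2 := by
        unfold gg
        rw [Finset.prod_pow]

open Classical in
theorem count2 : ∃ (K : ℝ) (Y0 : ℕ), 0 < K ∧ ∀ x Y : ℕ, Y0 ≤ Y → 1 ≤ x → ∀ σ : ℤ,
    (σ = 1 ∨ σ = -1) → ∀ h : ℕ, 1 ≤ h →
    (Set.ncard {t : ℕ | t ≤ x ∧ t.Prime ∧ (Int.natAbs (σ * t + h)).Prime} : ℝ) ≤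
      K * x * gg h ^ 2 / Real.log Y ^ 2 + 4 * Y + 3 := by
  obtain ⟨c, hc, hsv⟩ := sieve_exp
  obtain ⟨C1, hC1, h1⟩ := mert (Polynomial.X : ℤ[X]) Polynomial.irreducible_X
    (by rw [natDegree_X]; norm_num)
  have hlog2 : 0 < Real.log 2 := Real.log_pos (by norm_num)
  have hc0 : (0 : ℝ) < c := by exact_mod_cast hc
  refine ⟨4 * Real.exp (2 * C1) * (8 * c * Real.log 2) ^ 2, 2 ^ (16 * c), by positivity,
    fun x Y hY0 hx σ hσ h hh => ?_⟩
  obtain ⟨J, hJ, hJ2, hJ3, hJ4⟩ := Pool.Agent.TH685.SqTwo.exists_level3 hc hY0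
  have hY2 : 2 ^ 1 ≤ Y := le_trans (Nat.pow_le_pow_right (by norm_num) (by omega)) hY0
  have hlogY : 0 < Real.log Y := Real.log_pos (by exact_mod_cast (by omega : 1 < Y))
  obtain ⟨P, hP⟩ : ∃ P : ℕ → ℕ → Prop, ∀ l n, P l n ↔
      (l ∣ n ∨ (l : ℤ) ∣ σ * (n : ℤ) + h) := ⟨_, fun _ _ => Iff.rfl⟩
  have hper : ∀ l n, P l (n + l) ↔ P l n := by
    intro l n
    rw [hP, hP]
    have e : σ * ((n + l : ℕ) : ℤ) + h = (σ * (n : ℤ) + h) + (l : ℤ) * σ := by
      push_cast; ring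
    rw [e, Nat.dvd_add_self_right, dvd_add_left (Dvd.intro _ rfl)]
  -- the number of classes
  have hcls : ∀ l : ℕ, l.Prime → #((range l).filter (P l)) ≤ 2 ∧
      1 ≤ #((range l).filter (P l)) ∧ (¬ l ∣ h → 2 ≤ #((range l).filter (P l))) := by
    intro l hl
    obtain ⟨a, ha, hat⟩ := one_class hl σ hσ (h : ℤ)
    have h3 : (range l).filter (P l) = {0, a} := by
      ext t
      rw [mem_filter, mem_range, mem_insert, mem_singleton, hP]
      constructor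
      · rintro ⟨h4, h5 | h5⟩
        · left
          exact Nat.eq_zero_of_dvd_of_lt h5 h4
        · right
          exact (hat t h4).1 h5
      · rintro (rfl | rfl)
        · exact ⟨hl.pos, Or.inl (dvd_zero _)⟩
        · exact ⟨ha, Or.inr ((hat _ ha).2 rfl)⟩
    rw [h3]
    refine ⟨card_le_two, ?_, ?_⟩
    · exact card_pos.2 ⟨0, by simp⟩
    · intro hlh
      have hne : (0 : ℕ) ≠ a := by
        rintro rfl
        have h4 := (hat 0 hl.pos).2 rfl
        apply hlh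
        have h5 : (l : ℤ) ∣ (h : ℤ) := by
          have e : σ * ((0 : ℕ) : ℤ) + h = (h : ℤ) := by push_cast; ring
          rwa [e] at h4
        exact_mod_cast h5
      rw [card_pair hne]
  have hcard3 : ∀ l : ℕ, l.Prime → #((range l).filter (P l)) ≤ 3 := fun l hl =>
    (hcls l hl).1.trans (by norm_num)
  obtain ⟨D, hD⟩ : ∃ D : Finset ℕ, D = (Pr 3 J).filter (fun l => l ∣ h) := ⟨_, rfl⟩
  have hDsub : D ⊆ h.primeFactors := by
    intro l hl
    rw [hD, mem_filter] at hl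
    rw [Nat.mem_primeFactors]
    exact ⟨(mem_filter.1 hl.1).2.1, hl.2, by omega⟩
  have hS : 2 * (J * Real.log 2) - 2 * C1 - ∑ l ∈ D, 1 / (l : ℝ) ≤
      ∑ l ∈ Pr 3 J, (#((range l).filter (P l)) : ℝ) / l := by
    have e1 := (abs_le.1 (h1 J hJ)).1
    have e4 : ∑ l ∈ Pr 3 J, (2 * ((rho (Polynomial.X : ℤ[X]) l : ℝ) / l) -
        (if l ∣ h then 1 / (l : ℝ) else 0)) ≤
        ∑ l ∈ Pr 3 J, (#((range l).filter (P l)) : ℝ) / l := by
      apply Finset.sum_le_sum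
      intro l hl
      have hlp := (mem_filter.1 hl).2.1
      obtain ⟨h4, h5, h6⟩ := hcls l hlp
      have hl0 : (0 : ℝ) < l := by exact_mod_cast hlp.pos
      rw [Pool.Agent.H951R4.OD.b6_rho_X l hlp]
      split_ifs with h7
      · have h8 : (1 : ℝ) ≤ (#((range l).filter (P l)) : ℝ) := by exact_mod_cast h5
        have h9 : 1 / (l : ℝ) ≤ (#((range l).filter (P l)) : ℝ) / l := by gcongr
        push_cast
        linarith
      · have h8 : (2 : ℝ) ≤ (#((range l).filter (P l)) : ℝ) := by exact_mod_cast h6 h7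
        have h9 : 2 / (l : ℝ) ≤ (#((range l).filter (P l)) : ℝ) / l := by gcongr
        have h10 : 2 * (((1 : ℕ) : ℝ) / l) - 0 = 2 / (l : ℝ) := by push_cast; ring
        rw [h10]
        exact h9
    rw [Finset.sum_sub_distrib, ← Finset.mul_sum, ← Finset.sum_filter] at e4
    rw [← hD] at e4
    linarith
  have hmain := hsv P (x + 1) J _ hper hcard3 hS
  have hsub : {t : ℕ | t ≤ x ∧ t.Prime ∧ (Int.natAbs (σ * t + h)).Prime} ⊆
      (((range (x + 1)).filter (fun t => ∀ l ∈ Pr 3 J, ¬ P l t) ∪ (range (Y + 1) ∪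
        ((Icc (-(Y : ℤ)) Y).image (fun u : ℤ => (σ * (u - h)).toNat))) : Finset ℕ) : Set ℕ) := by
    rintro t ⟨ht1, ht2, ht3⟩
    rw [mem_coe, mem_union, mem_union, mem_range, mem_image]
    by_cases htY : t < Y + 1
    · exact Or.inr (Or.inl htY)
    by_cases htY2 : Int.natAbs (σ * t + h) ≤ Y
    · right
      right
      refine ⟨σ * t + h, ?_, ?_⟩
      · rw [mem_Icc]
        omega
      · have e : σ * (σ * (t : ℤ) + h - h) = t := by
          rcases hσ with rfl | rfl <;> ring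
        rw [e]
        exact Int.toNat_natCast t
    left
    rw [mem_filter, mem_range]
    refine ⟨by omega, ?_⟩
    intro l hl hPl
    have hlp : l.Prime := (mem_filter.1 hl).2.1
    have hlt : l < 2 ^ 2 ^ J := mem_range.1 (mem_filter.1 hl).1
    rcases (hP l t).1 hPl with h6 | h6
    · have := (Nat.prime_dvd_prime_iff_eq hlp ht2).1 h6
      omega
    · have h8 : l ∣ Int.natAbs (σ * t + h) := Int.natCast_dvd.1 h6
      have h9 := (Nat.prime_dvd_prime_iff_eq hlp ht3).1 h8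
      omega
  have hexp : Real.exp (-(2 * (J * Real.log 2) - 2 * C1 - ∑ l ∈ D, 1 / (l : ℝ))) ≤
      Real.exp (2 * C1) * (1 / 2 ^ J) ^ 2 * gg h ^ 2 := by
    have e1 : -(2 * (J * Real.log 2) - 2 * C1 - ∑ l ∈ D, 1 / (l : ℝ)) =
        (2 * C1 - Real.log (2 ^ J) - Real.log (2 ^ J)) + ∑ l ∈ D, 1 / (l : ℝ) := by
      rw [Real.log_pow]; ring
    rw [e1, Real.exp_add, Real.exp_sub, Real.exp_sub, Real.exp_log (by positivity)]
    have e2 : Real.exp (2 * C1) / 2 ^ J / 2 ^ J = Real.exp (2 * C1) * (1 / 2 ^ J) ^ 2 := by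
      field_simp
    rw [e2]
    exact mul_le_mul_of_nonneg_left (exp_le_gg h D hDsub) (by positivity)
  have h5 := Set.ncard_le_ncard hsub (Finset.finite_toSet _)
  rw [Set.ncard_coe_finset] at h5
  have h6 : #((Icc (-(Y : ℤ)) Y).image (fun u : ℤ => (σ * (u - h)).toNat)) ≤ 2 * Y + 1 := by
    refine card_image_le.trans ?_
    rw [Int.card_Icc]
    omega
  have h7 : Set.ncard {t : ℕ | t ≤ x ∧ t.Prime ∧ (Int.natAbs (σ * t + h)).Prime} ≤
      #((range (x + 1)).filter (fun t => ∀ l ∈ Pr 3 J, ¬ P l t)) + ((Y + 1) + (2 * Y + 1)) := by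
    refine h5.trans ((card_union_le _ _).trans ?_)
    have h8 := card_union_le (range (Y + 1)) ((Icc (-(Y : ℤ)) Y).image (fun u : ℤ => (σ * (u - h)).toNat))
    rw [card_range] at h8
    omega
  have h8 : (Set.ncard {t : ℕ | t ≤ x ∧ t.Prime ∧ (Int.natAbs (σ * t + h)).Prime} : ℝ) ≤
      (#((range (x + 1)).filter (fun t => ∀ l ∈ Pr 3 J, ¬ P l t)) : ℝ) + ((Y + 1) + (2 * Y + 1)) := by
    exact_mod_cast h7
  have hg : 0 ≤ gg h ^ 2 := sq_nonneg _
  have h9 : (#((range (x + 1)).filter (fun t => ∀ l ∈ Pr 3 J, ¬ P l t)) : ℝ) ≤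
      4 * Real.exp (2 * C1) * (8 * c * Real.log 2) ^ 2 * x * gg h ^ 2 / Real.log Y ^ 2 + Y := by
    calc (#((range (x + 1)).filter (fun t => ∀ l ∈ Pr 3 J, ¬ P l t)) : ℝ) ≤ _ := hmain
      _ ≤ 2 * ((x + 1 : ℕ) : ℝ) * (Real.exp (2 * C1) * (8 * c * Real.log 2 / Real.log Y) ^ 2 *
          gg h ^ 2) + Y := by
          have h10 : Real.exp (-(2 * (J * Real.log 2) - 2 * C1 - ∑ l ∈ D, 1 / (l : ℝ))) ≤
              Real.exp (2 * C1) * (8 * c * Real.log 2 / Real.log Y) ^ 2 * gg h ^ 2 := by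
            refine hexp.trans ?_
            gcongr
          gcongr
      _ ≤ 2 * (2 * (x : ℝ)) * (Real.exp (2 * C1) * (8 * c * Real.log 2 / Real.log Y) ^ 2 *
          gg h ^ 2) + Y := by
          have : ((x + 1 : ℕ) : ℝ) ≤ 2 * x := by
            have : (1 : ℝ) ≤ x := by exact_mod_cast hx
            push_cast; linarith
          gcongr
      _ = _ := by field_simp; ring
  linarith

/-- the bound of the right order -/
theorem pair_bound : ∃ K : ℝ, 1 ≤ K ∧ ∀ x : ℕ, 2 ≤ x → ∀ σ : ℤ, (σ = 1 ∨ σ = -1) → ∀ h : ℕ,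
    1 ≤ h → (Set.ncard {t : ℕ | t ≤ x ∧ t.Prime ∧ (Int.natAbs (σ * t + h)).Prime} : ℝ) ≤
      K * (x / Real.log x ^ 2) * gg h ^ 2 := by
  obtain ⟨K, Y0, hK, hcount⟩ := count2
  refine ⟨64 * K + 128 + (Y0 + 3) ^ 2 * 64, ?_, fun x hx σ hσ h hh => ?_⟩
  · have : (0 : ℝ) ≤ (Y0 + 3) ^ 2 * 64 := by positivity
    linarith
  have hxr : (2 : ℝ) ≤ x := by exact_mod_cast hx
  have hl : 0 < Real.log x := Real.log_pos (by linarith)
  have hs := Pool.Agent.W735.DP.sqrt_le_aux hxr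
  have hq : 0 ≤ (x : ℝ) / Real.log x ^ 2 := by positivity
  have hs1 : 1 ≤ √(x : ℝ) := by
    rw [Real.one_le_sqrt]
    linarith
  have hg1 : 1 ≤ gg h ^ 2 := one_le_pow₀ (one_le_gg h)
  have hqg : (x : ℝ) / Real.log x ^ 2 ≤ (x : ℝ) / Real.log x ^ 2 * gg h ^ 2 :=
    le_mul_of_one_le_right hq hg1
  by_cases hY : Y0 ≤ Nat.sqrt x ∧ 2 ≤ Nat.sqrt x
  · have h3 := hcount x (Nat.sqrt x) hY.1 (by omega) σ hσ h hh
    have h4 : (Nat.sqrt x : ℝ) ≤ √(x : ℝ) := Real.nat_sqrt_le_real_sqrt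
    have h5 : Real.log x / 8 ≤ Real.log (Nat.sqrt x) := by
      have h6 : x < (Nat.sqrt x + 1) ^ 2 := Nat.lt_succ_sqrt' x
      have h7 : x ≤ (Nat.sqrt x) ^ 4 := by
        have h8 : (Nat.sqrt x + 1) ≤ (Nat.sqrt x) ^ 2 := by nlinarith [hY.2]
        have h9 : (Nat.sqrt x + 1) ^ 2 ≤ ((Nat.sqrt x) ^ 2) ^ 2 := Nat.pow_le_pow_left h8 2
        have e : ((Nat.sqrt x) ^ 2) ^ 2 = (Nat.sqrt x) ^ 4 := by ring
        omega
      have h8 : (x : ℝ) ≤ (Nat.sqrt x : ℝ) ^ 4 := by exact_mod_cast h7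
      have h9 := Real.log_le_log (by linarith) h8
      rw [Real.log_pow] at h9
      push_cast at h9
      linarith
    have h6 : K * x * gg h ^ 2 / Real.log (Nat.sqrt x) ^ 2 ≤
        64 * K * (x / Real.log x ^ 2 * gg h ^ 2) := by
      have h7 : K * x * gg h ^ 2 / Real.log (Nat.sqrt x) ^ 2 ≤
          K * x * gg h ^ 2 / (Real.log x / 8) ^ 2 := by gcongr
      refine h7.trans (le_of_eq ?_)
      field_simp
      norm_num
    have h7 : 0 ≤ ((Y0 : ℝ) + 3) ^ 2 * 64 * (x / Real.log x ^ 2 * gg h ^ 2) := by positivity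
    have h8 : 4 * (Nat.sqrt x : ℝ) + 3 ≤ 128 * (x / Real.log x ^ 2 * gg h ^ 2) := by linarith
    refine h3.trans ?_
    linarith
  · have h3 : Nat.sqrt x ≤ Y0 + 2 := by
      by_contra hc
      apply hY
      constructor <;> omega
    have h4 : x ≤ (Y0 + 3) ^ 2 := by
      have h6 : x < (Nat.sqrt x + 1) ^ 2 := Nat.lt_succ_sqrt' x
      have h7 : (Nat.sqrt x + 1) ^ 2 ≤ (Y0 + 3) ^ 2 := Nat.pow_le_pow_left (by omega) 2
      omega
    have h5 : (Set.ncard {t : ℕ | t ≤ x ∧ t.Prime ∧ (Int.natAbs (σ * t + h)).Prime} : ℝ) ≤ x + 1 := by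
      have h6 : {t : ℕ | t ≤ x ∧ t.Prime ∧ (Int.natAbs (σ * t + h)).Prime} ⊆
          ((range (x + 1) : Finset ℕ) : Set ℕ) := by
        rintro p ⟨hp1, -, -⟩
        rw [mem_coe, mem_range]
        omega
      have h7 := Set.ncard_le_ncard h6 (Finset.finite_toSet _)
      rw [Set.ncard_coe_finset, card_range] at h7
      exact_mod_cast h7
    have h6 : (x : ℝ) ≤ ((Y0 : ℝ) + 3) ^ 2 := by exact_mod_cast h4
    have h7 : 1 ≤ 16 * ((x : ℝ) / Real.log x ^ 2 * gg h ^ 2) := by linarith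
    have h8 : (x : ℝ) + 1 ≤ 2 * ((Y0 : ℝ) + 3) ^ 2 := by nlinarith
    have h9 : 2 * ((Y0 : ℝ) + 3) ^ 2 * 1 ≤
        2 * ((Y0 : ℝ) + 3) ^ 2 * (16 * ((x : ℝ) / Real.log x ^ 2 * gg h ^ 2)) := by
      gcongr
    have h10 : 0 ≤ (64 * K + 128) * ((x : ℝ) / Real.log x ^ 2 * gg h ^ 2) := by positivity
    nlinarith

end Pool.Agent.TH685.PairSig
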