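import Pool.Agent.TH685.TI.Cs

set_option autoImplicit false
set_option maxHeartbeats 1000000

/-! # Almost twin primes: upper bound in all intervals, and the first almost twin primes -/

namespace Pool.Agent.TH685.TI

open Finset Filter Pool.Agent.H373R2.T7 Pool.Agent.W123.RP

/-- `s` has at most `r` prime factors, all larger than `p ^ (1 / r)` -/
def Ro (r p s : ℕ) : Prop :=
  s.primeFactorsList.length ≤ r ∧ ∀ ℓ : ℕ, ℓ.Prime → ℓ ∣ s → p < ℓ ^ r

/-- almost twin primes -/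
def At (r p : ℕ) : Prop := p.Prime ∧ (Ro r p (p + 2) ∨ Ro r p (p - 2))

open Classical in
lemma nuB_translate (a p : ℕ) : nuB (fun p m => Twin.Q p (m + a)) p = nuB Twin.Q p := by
  have := nuB_shift Twin.Q 2 Twin.perB a p
  unfold nuB at this ⊢
  exact this

lemma perB_translate (a : ℕ) : PerB (fun p m => Twin.Q p (m + a)) 2 := by
  constructor
  · intro p n
    show Twin.Q p (n + a) ↔ Twin.Q p (n % p + a)
    rw [Twin.perB.per p (n + a), Twin.perB.per p (n % p + a)]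
    rw [Nat.mod_add_mod]
  · intro p hp
    rw [nuB_translate]
    exact Twin.perB.few p hp

open Classical in
/-- rough pairs in all intervals -/
theorem rough_interval : ∃ r0 : ℕ, 2 ≤ r0 ∧ ∀ r : ℕ, r0 ≤ r → ∃ C : ℝ, 1 ≤ C ∧ ∃ X₀ : ℕ, ∀ X : ℕ,
    X₀ ≤ X → ∀ a : ℕ,
    (((Ioc a (a + X)).filter (fun k => ∀ p ∈ pz ⌊(X : ℝ) ^ (1 / (r : ℝ))⌋₊, ¬ Twin.Q p k)).card : ℝ) ≤
      C * (X / Real.log X ^ 2) := by
  obtain ⟨K1, x0, hK1, hfund⟩ := sys_fund 2 (by omega) 1 one_pos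
  obtain ⟨Cv, hCv, hV⟩ := Vq_upper Twin.Q 2 3 (fun p hp h => (Twin.nuB_eq p hp h).ge)
  refine ⟨max K1 2, le_max_right _ _, fun r hr => ?_⟩
  have hr2 : 2 ≤ r := (le_max_right _ _).trans hr
  have hrK : K1 ≤ r := (le_max_left _ _).trans hr
  have hrpos : (0 : ℝ) < r := by exact_mod_cast (by omega : 0 < r)
  obtain ⟨C2, hC2⟩ : ∃ C2 : ℝ, C2 = Cv * (2 * r) ^ 2 := ⟨_, rfl⟩
  have hC2pos : 0 < C2 := by rw [hC2]; positivity
  refine ⟨2 * C2 + 1, by linarith, ?_⟩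
  have hXr : Tendsto (fun X : ℕ => (X : ℝ)) atTop atTop := tendsto_natCast_atTop_atTop
  have hlogt : Tendsto (fun X : ℕ => Real.log (X : ℝ)) atTop atTop :=
    Real.tendsto_log_atTop.comp hXr
  have hpow : Tendsto (fun X : ℕ => (X : ℝ) ^ (1 / (2 * r : ℝ))) atTop atTop :=
    (tendsto_rpow_atTop (by positivity)).comp hXr
  have hlp : ∀ᶠ X : ℕ in atTop, Real.log X ^ 4 ≤ X := by
    have h := ((isLittleO_log_rpow_rpow_atTop ((4 : ℕ) : ℝ) (by norm_num : (0 : ℝ) < 1)).comp_tendsto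
      hXr).bound (by norm_num : (0 : ℝ) < 1)
    filter_upwards [h, eventually_ge_atTop 1] with X hX hX1
    have hX1' : (1 : ℝ) ≤ X := by exact_mod_cast hX1
    have hl := Real.log_nonneg hX1'
    simp only [Function.comp_def, Real.rpow_natCast, Real.rpow_one, one_mul] at hX
    rw [Real.norm_of_nonneg (by positivity), Real.norm_of_nonneg (by positivity)] at hX
    exact hX
  obtain ⟨X₀, hX₀⟩ := eventually_atTop.1 (((hlogt.eventually_ge_atTop 2).and
    (hpow.eventually_ge_atTop ((x0 : ℝ) + 2))).and (hlp.and (eventually_ge_atTop 3)))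
  refine ⟨X₀, fun X hX a => ?_⟩
  obtain ⟨⟨hlog2, hxp⟩, hl4, hX3⟩ := hX₀ X hX
  have hX3r : (3 : ℝ) ≤ X := by exact_mod_cast hX3
  have hx00 : (0 : ℝ) ≤ x0 := Nat.cast_nonneg _
  obtain ⟨y, hy⟩ : ∃ y : ℕ, y = ⌊(X : ℝ) ^ (1 / (r : ℝ))⌋₊ := ⟨_, rfl⟩
  obtain ⟨hy1, hy2, -, hy4⟩ := Pool.Agent.W123.RU.level_low r hr2 X (by omega) (by linarith)
  rw [← hy] at hy1 hy2 hy4 ⊢
  have hyx0 : x0 ≤ y := by
    have : (x0 : ℝ) ≤ y := by linarith
    exact_mod_cast this
  have hyr : (y : ℝ) ^ r ≤ X := by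
    have h1 : (y : ℝ) ≤ (X : ℝ) ^ (1 / (r : ℝ)) := by
      rw [hy]
      exact Nat.floor_le (by positivity)
    calc (y : ℝ) ^ r ≤ ((X : ℝ) ^ (1 / (r : ℝ))) ^ r := pow_le_pow_left₀ (Nat.cast_nonneg _) h1 r
      _ = X := by
        rw [← Real.rpow_natCast, ← Real.rpow_mul (by positivity), one_div,
          inv_mul_cancel₀ hrpos.ne', Real.rpow_one]
  have hyK : y ^ K1 ≤ X := by
    have h1 : y ^ K1 ≤ y ^ r := Nat.pow_le_pow_right (by omega) hrK
    have h2 : y ^ r ≤ X := by exact_mod_cast hyr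
    omega
  have hcard : ((Ioc a (a + X)).filter (fun k => ∀ p ∈ pz y, ¬ Twin.Q p k)).card ≤
      ((Icc 1 X).filter (fun m => ∀ p ∈ pz y, ¬ Twin.Q p (m + a))).card := by
    apply card_le_card_of_injOn (fun k => k - a)
    · intro k hk
      rw [mem_coe, mem_filter, mem_Ioc] at hk
      show k - a ∈ (_ : Set ℕ)
      rw [mem_coe, mem_filter, mem_Icc]
      refine ⟨⟨by omega, by omega⟩, fun p hp => ?_⟩
      have e : k - a + a = k := by omega
      rw [e]
      exact hk.2 p hp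
    · intro k hk l hl h
      rw [mem_coe, mem_filter, mem_Ioc] at hk hl
      simp only at h
      omega
  have hf := (abs_le.1 (hfund X y hyx0 hyK (fun p m => Twin.Q p (m + a)) (perB_translate a) X)).2
  have hprod : ∏ p ∈ pz y, (1 - (nuB (fun p m => Twin.Q p (m + a)) p : ℝ) / p) = Vq Twin.Q y := by
    unfold Vq
    apply Finset.prod_congr rfl
    intro p _
    rw [nuB_translate]
  rw [hprod] at hf
  have hVy : Vq Twin.Q y ≤ C2 / Real.log X ^ 2 := by
    refine (hV _ hy4).trans ?_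
    have h1 : (Real.log X / (2 * r)) ^ 2 ≤ Real.log y ^ 2 :=
      pow_le_pow_left₀ (by positivity) hy2 2
    have h0 : 0 < (Real.log X / (2 * r)) ^ 2 := by positivity
    calc Cv / Real.log y ^ 2 ≤ Cv / (Real.log X / (2 * r)) ^ 2 := by
          gcongr
      _ = C2 / Real.log X ^ 2 := by rw [hC2]; field_simp
  obtain ⟨L, hL⟩ : ∃ L : ℝ, L = Real.log X := ⟨_, rfl⟩
  rw [← hL] at hlog2 hl4 hVy ⊢
  have hsq : √(X : ℝ) ≤ X / L ^ 2 := by
    rw [Real.sqrt_le_left (by positivity), div_pow, ← pow_mul, le_div_iff₀ (by positivity)]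
    calc (X : ℝ) * L ^ (2 * 2) = (X : ℝ) * L ^ 4 := by norm_num
      _ ≤ (X : ℝ) * X := mul_le_mul_of_nonneg_left hl4 (by positivity)
      _ = (X : ℝ) ^ 2 := by ring
  have hcard' : (((Ioc a (a + X)).filter (fun k => ∀ p ∈ pz y, ¬ Twin.Q p k)).card : ℝ) ≤
      (((Icc 1 X).filter (fun m => ∀ p ∈ pz y, ¬ Twin.Q p (m + a))).card : ℝ) := by
    exact_mod_cast hcard
  have h1 : 2 * ((X : ℝ) * Vq Twin.Q y) ≤ 2 * (X * (C2 / L ^ 2)) := by gcongr
  have h2 : 2 * ((X : ℝ) * (C2 / L ^ 2)) = 2 * C2 * (X / L ^ 2) := by ring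
  linarith

open Classical in
/-- an almost twin prime `p > √X` comes from a rough pair -/
lemma at_rough (r X y p : ℕ) (hy3 : 3 ≤ y) (hyX : y ^ (2 * r) ≤ X) (hr : 1 ≤ r) (hpX : X < p ^ 2)
    (hp : At r p) : ∃ k : ℕ, 1 ≤ k ∧ (p = 6 * k - 1 ∨ p = 6 * k + 1) ∧ ∀ l ∈ pz y, ¬ Twin.Q l k := by
  obtain ⟨hpp, hro⟩ := hp
  have hyr : y ^ r < p := by
    by_contra hcon
    push Not at hcon
    have h1 : p ^ 2 ≤ (y ^ r) ^ 2 := Nat.pow_le_pow_left hcon 2
    rw [← pow_mul, mul_comm r 2] at h1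
    omega
  have hyp : y < p := lt_of_le_of_lt (Nat.le_self_pow (by omega) y) hyr
  have hlp : ∀ l : ℕ, l.Prime → l ≤ y → ¬ l ∣ p := by
    intro l hl hly hd
    have := (Nat.prime_dvd_prime_iff_eq hl hpp).1 hd
    omega
  have h2 := hlp 2 Nat.prime_two (by omega)
  have h3 := hlp 3 Nat.prime_three hy3
  have key : ∀ s : ℕ, Ro r p s → ∀ l : ℕ, l.Prime → l ≤ y → ¬ l ∣ s := by
    intro s hs l hl hly hd
    have h4 := hs.2 l hl hd
    have h5 : l ^ r ≤ y ^ r := Nat.pow_le_pow_left hly r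
    omega
  rcases hro with hro | hro
  · have h4 := key _ hro 3 Nat.prime_three hy3
    have a1 : p % 2 = 1 := by clear key hlp hyr hyX hpX hyp; omega
    have a2 : p % 3 = 2 := by clear key hlp hyr hyX hpX hyp; omega
    have a3 : p % 6 = 5 := by clear key hlp hyr hyX hpX hyp; omega
    obtain ⟨k, hk⟩ : ∃ k, k = (p + 1) / 6 := ⟨_, rfl⟩
    have e1 : p = 6 * k - 1 := by omega
    have hk1 : 1 ≤ k := by omega
    refine ⟨k, hk1, Or.inl e1, fun l hl hq => ?_⟩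
    have hlpr := (mem_pz.1 hl).2
    have hpi : Prime (l : ℤ) := Nat.prime_iff_prime_int.1 hlpr
    unfold Twin.Q at hq
    rcases hpi.dvd_mul.1 hq with h5 | h5
    · apply hlp l hlpr (mem_pz.1 hl).1
      have h6 : (l : ℤ) ∣ ((6 * k - 1 : ℕ) : ℤ) := by
        rw [Nat.cast_sub (by omega)]
        push_cast
        exact h5
      rw [e1]
      exact_mod_cast h6
    · apply key _ hro l hlpr (mem_pz.1 hl).1
      have h6 : l ∣ 6 * k + 1 := by exact_mod_cast h5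
      have e2 : p + 2 = 6 * k + 1 := by omega
      rw [e2]
      exact h6
  · have h4 := key _ hro 3 Nat.prime_three hy3
    have a0 : 3 < p := by omega
    have a1 : p % 2 = 1 := by clear key hlp hyr hyX hpX hyp; omega
    have a2 : p % 3 = 1 := by clear key hlp hyr hyX hpX hyp; omega
    have a3 : p % 6 = 1 := by clear key hlp hyr hyX hpX hyp; omega
    obtain ⟨k, hk⟩ : ∃ k, k = (p - 1) / 6 := ⟨_, rfl⟩
    have e1 : p = 6 * k + 1 := by omega
    have hk1 : 1 ≤ k := by omega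
    refine ⟨k, hk1, Or.inr e1, fun l hl hq => ?_⟩
    have hlpr := (mem_pz.1 hl).2
    have hpi : Prime (l : ℤ) := Nat.prime_iff_prime_int.1 hlpr
    unfold Twin.Q at hq
    rcases hpi.dvd_mul.1 hq with h5 | h5
    · apply key _ hro l hlpr (mem_pz.1 hl).1
      have h6 : (l : ℤ) ∣ ((6 * k - 1 : ℕ) : ℤ) := by
        rw [Nat.cast_sub (by omega)]
        push_cast
        exact h5
      have e2 : p - 2 = 6 * k - 1 := by omega
      rw [e2]
      exact_mod_cast h6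
    · apply hlp l hlpr (mem_pz.1 hl).1
      rw [e1]
      exact_mod_cast h5

open Classical in
/-- almost twin primes in all intervals -/
theorem at_interval (r : ℕ) (hr : 1 ≤ r) : ∃ C : ℝ, 1 ≤ C ∧ ∃ X₀ : ℕ, 3 ≤ X₀ ∧ ∀ X : ℕ, X₀ ≤ X →
    ∀ a : ℕ, (((Ioc a (a + X)).filter (At r)).card : ℝ) ≤ C * (X / Real.log X ^ 2) := by
  obtain ⟨r0, hr0, hri⟩ := rough_interval
  obtain ⟨R, hR⟩ : ∃ R : ℕ, R = max r0 (2 * r) := ⟨_, rfl⟩
  have hR1 : r0 ≤ R := by rw [hR]; exact le_max_left _ _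
  have hR2 : 2 * r ≤ R := by rw [hR]; exact le_max_right _ _
  have hRpos : (0 : ℝ) < R := by exact_mod_cast (by omega : 0 < R)
  obtain ⟨C, hC, X₁, hri⟩ := hri R hR1
  have hXr : Tendsto (fun X : ℕ => (X : ℝ)) atTop atTop := tendsto_natCast_atTop_atTop
  have hlogt : Tendsto (fun X : ℕ => Real.log (X : ℝ)) atTop atTop :=
    Real.tendsto_log_atTop.comp hXr
  have hpow : Tendsto (fun X : ℕ => (X : ℝ) ^ (1 / (R : ℝ))) atTop atTop :=
    (tendsto_rpow_atTop (by positivity)).comp hXr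
  have hlp : ∀ᶠ X : ℕ in atTop, Real.log X ^ 4 ≤ X := by
    have h := ((isLittleO_log_rpow_rpow_atTop ((4 : ℕ) : ℝ) (by norm_num : (0 : ℝ) < 1)).comp_tendsto
      hXr).bound (by norm_num : (0 : ℝ) < 1)
    filter_upwards [h, eventually_ge_atTop 1] with X hX hX1
    have hX1' : (1 : ℝ) ≤ X := by exact_mod_cast hX1
    have hl := Real.log_nonneg hX1'
    simp only [Function.comp_def, Real.rpow_natCast, Real.rpow_one, one_mul] at hX
    rw [Real.norm_of_nonneg (by positivity), Real.norm_of_nonneg (by positivity)] at hX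
    exact hX
  obtain ⟨X₂, hX₂⟩ := eventually_atTop.1 (((hlogt.eventually_ge_atTop 1).and
    (hpow.eventually_ge_atTop 3)).and hlp)
  refine ⟨2 * C + 2, by linarith, max (max X₁ X₂) 12, by omega, fun X hX a => ?_⟩
  have hXX₁ : X₁ ≤ X := (le_max_left _ _).trans ((le_max_left _ _).trans hX)
  have hXX₂ : X₂ ≤ X := (le_max_right _ _).trans ((le_max_left _ _).trans hX)
  have hX12 : 12 ≤ X := (le_max_right _ _).trans hX
  obtain ⟨⟨hlog1, hxp⟩, hl4⟩ := hX₂ X hXX₂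
  obtain ⟨y, hy⟩ : ∃ y : ℕ, y = ⌊(X : ℝ) ^ (1 / (R : ℝ))⌋₊ := ⟨_, rfl⟩
  have hy3 : 3 ≤ y := by
    rw [hy]
    exact Nat.le_floor (by push_cast; exact hxp)
  have hyR : y ^ R ≤ X := by
    have h1 : (y : ℝ) ≤ (X : ℝ) ^ (1 / (R : ℝ)) := by
      rw [hy]
      exact Nat.floor_le (by positivity)
    have h2 : (y : ℝ) ^ R ≤ X := by
      calc (y : ℝ) ^ R ≤ ((X : ℝ) ^ (1 / (R : ℝ))) ^ R := pow_le_pow_left₀ (Nat.cast_nonneg _) h1 R
        _ = X := by
          rw [← Real.rpow_natCast, ← Real.rpow_mul (by positivity), one_div,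
            inv_mul_cancel₀ hRpos.ne', Real.rpow_one]
    exact_mod_cast h2
  have hy2r : y ^ (2 * r) ≤ X := (Nat.pow_le_pow_right (by omega) hR2).trans hyR
  have hrX := hri X hXX₁ (a / 6 - 1)
  rw [← hy] at hrX
  obtain ⟨A, hA⟩ : ∃ A : Finset ℕ, A = (Ioc (a / 6 - 1) (a / 6 - 1 + X)).filter
    (fun k => ∀ p ∈ pz y, ¬ Twin.Q p k) := ⟨_, rfl⟩
  rw [← hA] at hrX
  have hsub : (Ioc a (a + X)).filter (At r) ⊆ range (Nat.sqrt X + 1) ∪
      (A.image (fun k => 6 * k - 1) ∪ A.image (fun k => 6 * k + 1)) := by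
    intro p hp
    rw [mem_filter, mem_Ioc] at hp
    obtain ⟨⟨hp1, hp2⟩, hp3⟩ := hp
    rw [mem_union, mem_union, mem_range, mem_image, mem_image]
    rcases Nat.lt_or_ge p (Nat.sqrt X + 1) with h | h
    · exact Or.inl h
    · right
      have hpX : X < p ^ 2 := by
        rw [sq]
        exact Nat.sqrt_lt.1 (by omega)
      obtain ⟨k, hk1, hk2, hk3⟩ := at_rough r X y p hy3 hy2r hr hpX hp3
      have hkA : k ∈ A := by
        rw [hA, mem_filter, mem_Ioc]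
        refine ⟨?_, hk3⟩
        rcases hk2 with h5 | h5 <;> omega
      rcases hk2 with h5 | h5
      · exact Or.inl ⟨k, hkA, h5.symm⟩
      · exact Or.inr ⟨k, hkA, h5.symm⟩
  have h1 : ((Ioc a (a + X)).filter (At r)).card ≤ (Nat.sqrt X + 1) + (A.card + A.card) := by
    refine (card_le_card hsub).trans ((card_union_le _ _).trans ?_)
    rw [card_range]
    exact Nat.add_le_add_left ((card_union_le _ _).trans
      (Nat.add_le_add card_image_le card_image_le)) _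
  have h2 : (((Ioc a (a + X)).filter (At r)).card : ℝ) ≤ ((Nat.sqrt X : ℝ) + 1) + (A.card + A.card) := by
    exact_mod_cast h1
  obtain ⟨L, hL⟩ : ∃ L : ℝ, L = Real.log X := ⟨_, rfl⟩
  rw [← hL] at hlog1 hl4 hrX ⊢
  have hXr12 : (12 : ℝ) ≤ X := by exact_mod_cast hX12
  have hsq : √(X : ℝ) ≤ X / L ^ 2 := by
    rw [Real.sqrt_le_left (by positivity), div_pow, ← pow_mul, le_div_iff₀ (by positivity)]
    calc (X : ℝ) * L ^ (2 * 2) = (X : ℝ) * L ^ 4 := by norm_num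
      _ ≤ (X : ℝ) * X := mul_le_mul_of_nonneg_left hl4 (by positivity)
      _ = (X : ℝ) ^ 2 := by ring
  have hs1 : (Nat.sqrt X : ℝ) ≤ √(X : ℝ) := Real.nat_sqrt_le_real_sqrt
  have hs2 : (1 : ℝ) ≤ √(X : ℝ) := by
    rw [Real.one_le_sqrt]
    linarith
  calc (((Ioc a (a + X)).filter (At r)).card : ℝ) ≤
        ((Nat.sqrt X : ℝ) + 1) + (A.card + A.card) := h2
    _ ≤ (X / L ^ 2 + X / L ^ 2) + (C * (X / L ^ 2) + C * (X / L ^ 2)) := by linarith
    _ = (2 * C + 2) * (X / L ^ 2) := by ring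

end Pool.Agent.TH685.TI
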