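import Pool.Agent.H318R2.Cr.Prod

set_option autoImplicit false

/-! # Two classes modulo every small prime: greedy choice -/

namespace Pool.Agent.TH685.TI

open Finset Pool.Agent.H318R2.Cr

open scoped Classical

/-- `6 c + 1 - 6 m` or `6 c - 1 - 6 m` is divisible by `p` -/
def Hit (p c m : ℕ) : Prop := (p : ℤ) ∣ 6 * (c : ℤ) + 1 - 6 * m ∨ (p : ℤ) ∣ 6 * (c : ℤ) - 1 - 6 * m

theorem exists_inv (p : ℕ) (hp : p.Prime) (h5 : 5 ≤ p) : ∃ u : ℤ, (p : ℤ) ∣ 6 * u - 1 := by
  have h1 : Nat.Coprime 6 p := by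
    have h2 : Nat.Coprime 2 p := (Nat.coprime_primes Nat.prime_two hp).2 (by omega)
    have h3 : Nat.Coprime 3 p := (Nat.coprime_primes Nat.prime_three hp).2 (by omega)
    exact Nat.Coprime.mul_left h2 h3
  have h2 : IsCoprime (6 : ℤ) (p : ℤ) := by exact_mod_cast Nat.isCoprime_iff_coprime.2 h1
  obtain ⟨a, b, hab⟩ := h2
  exact ⟨a, -b, by linarith⟩

/-- a class modulo `p`, as a natural number -/
theorem exists_rep (p : ℕ) (hp : 0 < p) (x : ℤ) : ∃ c : ℕ, c < p ∧ (p : ℤ) ∣ (c : ℤ) - x := by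
  have hp' : (0 : ℤ) < p := by exact_mod_cast hp
  refine ⟨(x % (p : ℤ)).toNat, ?_, ?_⟩
  · have h1 := Int.emod_lt_of_pos x hp'
    have h2 := Int.emod_nonneg x hp'.ne'
    omega
  · have h2 := Int.emod_nonneg x hp'.ne'
    rw [Int.toNat_of_nonneg h2]
    have h4 := Int.emod_add_mul_ediv x (p : ℤ)
    exact ⟨-(x / (p : ℤ)), by linarith⟩

theorem two_hits (p : ℕ) (hp : p.Prime) (h5 : 5 ≤ p) (m : ℕ) :
    2 ≤ ((range p).filter (fun c => Hit p c m)).card := by
  obtain ⟨u, hu⟩ := exists_inv p hp h5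
  obtain ⟨c1, hc1, h1⟩ := exists_rep p hp.pos (m - u)
  obtain ⟨c2, hc2, h2⟩ := exists_rep p hp.pos (m + u)
  have hne : c1 ≠ c2 := by
    rintro rfl
    have h3 : (p : ℤ) ∣ 2 * u := by
      have := dvd_sub h1 h2
      have e : ((c1 : ℤ) - (m - u)) - ((c1 : ℤ) - (m + u)) = 2 * u := by ring
      rwa [e] at this
    have h4 : (p : ℤ) ∣ 2 := by
      have h5 := dvd_sub (h3.mul_left 6) (hu.mul_left 2)
      have e : 6 * (2 * u) - 2 * (6 * u - 1) = 2 := by ring
      rwa [e] at h5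
    have h6 : p ∣ 2 := by exact_mod_cast h4
    have := Nat.le_of_dvd (by norm_num) h6
    omega
  have hsub : ({c1, c2} : Finset ℕ) ⊆ (range p).filter (fun c => Hit p c m) := by
    intro c hc
    rw [mem_insert, mem_singleton] at hc
    rw [mem_filter, mem_range]
    rcases hc with rfl | rfl
    · refine ⟨hc1, Or.inl ?_⟩
      have h3 := dvd_sub (h1.mul_left 6) hu
      have e : 6 * ((c : ℤ) - (m - u)) - (6 * u - 1) = 6 * (c : ℤ) + 1 - 6 * m := by ring
      rwa [e] at h3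
    · refine ⟨hc2, Or.inr ?_⟩
      have h3 := dvd_add (h2.mul_left 6) hu
      have e : 6 * ((c : ℤ) - (m + u)) + (6 * u - 1) = 6 * (c : ℤ) - 1 - 6 * m := by ring
      rwa [e] at h3
  have := card_le_card hsub
  rwa [card_pair hne] at this

/-- one prime: the best class -/
theorem one_two (p : ℕ) (hp : p.Prime) (h5 : 5 ≤ p) (R : Finset ℕ) : ∃ c : ℕ,
    ((R.filter (fun m => ¬ Hit p c m)).card : ℝ) ≤ R.card * (1 - 2 / (p : ℝ)) := by
  have hp0 : (0 : ℝ) < p := by exact_mod_cast hp.pos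
  have hsum : 2 * R.card ≤ ∑ c ∈ range p, (R.filter (fun m => Hit p c m)).card := by
    have h1 : ∑ c ∈ range p, (R.filter (fun m => Hit p c m)).card =
        ∑ m ∈ R, ((range p).filter (fun c => Hit p c m)).card := by
      simp only [card_filter]
      rw [sum_comm]
    rw [h1]
    calc 2 * R.card = ∑ m ∈ R, 2 := by rw [sum_const, smul_eq_mul, mul_comm]
      _ ≤ _ := sum_le_sum fun m _ => two_hits p hp h5 m
  obtain ⟨c, _, hc⟩ : ∃ c ∈ range p, 2 * (R.card : ℝ) / p ≤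
      ((R.filter (fun m => Hit p c m)).card : ℝ) := by
    by_contra hcon
    push Not at hcon
    have h1 : ((∑ c ∈ range p, (R.filter (fun m => Hit p c m)).card : ℕ) : ℝ) <
        ∑ c ∈ range p, 2 * (R.card : ℝ) / p := by
      push_cast
      exact sum_lt_sum_of_nonempty ⟨0, mem_range.2 hp.pos⟩ hcon
    rw [sum_const, card_range, nsmul_eq_mul, mul_div_cancel₀ _ hp0.ne'] at h1
    have h2 : ((2 * R.card : ℕ) : ℝ) ≤
        ((∑ c ∈ range p, (R.filter (fun m => Hit p c m)).card : ℕ) : ℝ) := by exact_mod_cast hsum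
    push_cast at h2 h1
    linarith
  refine ⟨c, ?_⟩
  have h3 : ((R.filter (fun m => Hit p c m)).card : ℝ) +
      ((R.filter (fun m => ¬ Hit p c m)).card : ℝ) = R.card := by
    exact_mod_cast card_filter_add_card_filter_not (s := R) _
  have h4 : (R.card : ℝ) * (1 - 2 / (p : ℝ)) = R.card - 2 * (R.card : ℝ) / p := by ring
  rw [h4]
  linarith

/-- all primes of `S` -/
theorem greedy_two (S : Finset ℕ) (hS : ∀ p ∈ S, p.Prime ∧ 5 ≤ p) : ∀ R : Finset ℕ, ∃ b : ℕ → ℕ,
    ((R.filter (fun m => ∀ p ∈ S, ¬ Hit p (b p) m)).card : ℝ) ≤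
      R.card * ∏ p ∈ S, (1 - 2 / (p : ℝ)) := by
  induction S using Finset.induction_on with
  | empty => intro A; exact ⟨fun _ => 0, by simp⟩
  | insert p S hpS ih =>
    intro A
    obtain ⟨hp, hp5⟩ := hS p (mem_insert_self _ _)
    obtain ⟨c, hc⟩ := one_two p hp hp5 A
    obtain ⟨b, hb⟩ := ih (fun q hq => hS q (mem_insert_of_mem hq))
      (A.filter (fun m => ¬ Hit p c m))
    refine ⟨Function.update b p c, ?_⟩
    have h8 : A.filter (fun m => ∀ q ∈ insert p S, ¬ Hit q (Function.update b p c q) m) ⊆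
        (A.filter (fun m => ¬ Hit p c m)).filter (fun m => ∀ q ∈ S, ¬ Hit q (b q) m) := by
      intro x hx
      rw [mem_filter] at hx
      rw [mem_filter, mem_filter]
      refine ⟨⟨hx.1, ?_⟩, ?_⟩
      · have := hx.2 p (mem_insert_self _ _)
        rwa [Function.update_self] at this
      · intro q hq
        have h9 : q ≠ p := fun h => hpS (h ▸ hq)
        have := hx.2 q (mem_insert_of_mem hq)
        rwa [Function.update_of_ne h9] at this
    have h0 : 0 ≤ ∏ q ∈ S, (1 - 2 / (q : ℝ)) := prod_nonneg fun q hq => by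
      have h5 : (5 : ℝ) ≤ q := by exact_mod_cast (hS q (mem_insert_of_mem hq)).2
      have : 2 / (q : ℝ) ≤ 1 := by rw [div_le_one (by linarith)]; linarith
      linarith
    rw [prod_insert hpS]
    calc _ ≤ (((A.filter (fun m => ¬ Hit p c m)).filter
          (fun m => ∀ q ∈ S, ¬ Hit q (b q) m)).card : ℝ) := by
            exact_mod_cast card_le_card h8
      _ ≤ _ := hb
      _ ≤ (A.card * (1 - 2 / (p : ℝ))) * ∏ q ∈ S, (1 - 2 / (q : ℝ)) := by gcongr
      _ = _ := by ring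

theorem prod_two (v : ℕ) :
    ∏ p ∈ (Pz v).filter (fun p => 5 ≤ p), (1 - 2 / (p : ℝ)) ≤ 16 * V v ^ 2 := by
  have h1 : ∏ p ∈ (Pz v).filter (fun p => 5 ≤ p), (1 - 2 / (p : ℝ)) ≤
      ∏ p ∈ (Pz v).filter (fun p => 5 ≤ p), (1 - 1 / (p : ℝ)) ^ 2 := by
    apply Finset.prod_le_prod
    · intro p hp
      have h5 : (5 : ℝ) ≤ p := by exact_mod_cast (mem_filter.1 hp).2
      have : 2 / (p : ℝ) ≤ 1 := by rw [div_le_one (by linarith)]; linarith
      linarith
    · intro p hp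
      have h2 : (1 - 1 / (p : ℝ)) ^ 2 = 1 - 2 / (p : ℝ) + (1 / (p : ℝ)) ^ 2 := by ring
      rw [h2]
      have := sq_nonneg (1 / (p : ℝ))
      linarith
  rw [prod_pow] at h1
  have h6 : V v = (∏ p ∈ (Pz v).filter (fun p => 5 ≤ p), (1 - 1 / (p : ℝ))) *
      ∏ p ∈ (Pz v).filter (fun p => ¬ 5 ≤ p), (1 - 1 / (p : ℝ)) := by
    unfold V
    rw [prod_filter_mul_prod_filter_not]
  have h7 : (1 / 4 : ℝ) ≤ ∏ p ∈ (Pz v).filter (fun p => ¬ 5 ≤ p), (1 - 1 / (p : ℝ)) := by
    have hc : ((Pz v).filter (fun p => ¬ 5 ≤ p)).card ≤ 2 := by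
      have : (Pz v).filter (fun p => ¬ 5 ≤ p) ⊆ {2, 3} := by
        intro p hp
        rw [mem_filter, mem_Pz] at hp
        rw [mem_insert, mem_singleton]
        have h1 := hp.1.1.two_le
        have h2 : p ≠ 4 := by
          rintro rfl
          exact absurd hp.1.1 (by norm_num)
        omega
      exact (card_le_card this).trans (by decide)
    calc (1 / 4 : ℝ) = (1 / 2 : ℝ) ^ 2 := by norm_num
      _ ≤ (1 / 2 : ℝ) ^ ((Pz v).filter (fun p => ¬ 5 ≤ p)).card :=
          pow_le_pow_of_le_one (by norm_num) (by norm_num) hc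
      _ = ∏ p ∈ (Pz v).filter (fun p => ¬ 5 ≤ p), (1 / 2 : ℝ) := by rw [prod_const]
      _ ≤ _ := by
        apply Finset.prod_le_prod
        · intro _ _; norm_num
        · intro p hp
          have h3 : (2 : ℝ) ≤ p := by exact_mod_cast (mem_Pz.1 (mem_filter.1 hp).1).1.two_le
          have : 1 / (p : ℝ) ≤ 1 / 2 := one_div_le_one_div_of_le (by norm_num) h3
          linarith
  have h8 : 0 ≤ ∏ p ∈ (Pz v).filter (fun p => 5 ≤ p), (1 - 1 / (p : ℝ)) :=
    prod_nonneg fun p hp => (one_sub_inv_pos (mem_Pz.1 (mem_filter.1 hp).1).1).le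
  have h9 : ∏ p ∈ (Pz v).filter (fun p => 5 ≤ p), (1 - 1 / (p : ℝ)) ≤ 4 * V v := by
    rw [h6]
    nlinarith
  calc _ ≤ _ := h1
    _ ≤ (4 * V v) ^ 2 := by gcongr
    _ = _ := by ring

end Pool.Agent.TH685.TI
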