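import Pool.Agent.TH685.TI.Sq

set_option autoImplicit false
set_option maxHeartbeats 1000000

/-! # Sums of a prime and a very small value of a quadratic polynomial -/

namespace Pool.Agent.TH685.W

open Finset Filter Pool.Agent.H197R2.PG Pool.Agent.TH685.Sq

lemma w_inj (w : ℕ → ℕ) (g e : ℕ) (hg : 1 ≤ g)
    (hdist : ∀ a b, Nat.dist (w a) (w b) = g * (Nat.dist a b * (a + b + e))) {a b : ℕ} (ha : 1 ≤ a)
    (h : w a = w b) : a = b := by
  have h1 := hdist a b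
  rw [h, Nat.dist_self] at h1
  rcases Nat.mul_eq_zero.1 h1.symm with h2 | h2
  · omega
  · rcases Nat.mul_eq_zero.1 h2 with h3 | h3
    · exact Nat.eq_of_dist_eq_zero h3
    · omega

theorem avg_w (w : ℕ → ℕ) (g e : ℕ) (hg : 1 ≤ g) (he : e ≤ 1)
    (hdist : ∀ a b, Nat.dist (w a) (w b) = g * (Nat.dist a b * (a + b + e))) :
    ∃ C : ℝ, 1 ≤ C ∧ ∀ (M : ℕ) (S : Finset ℕ), S ⊆ Icc 1 M →
    ∑ z ∈ (S.image w).offDiag, gg (2 * Nat.dist z.1 z.2) ≤ C * (M : ℝ) ^ 2 := by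
  classical
  obtain ⟨C, hC, hmom⟩ := moment_two
  have hgg := one_le_gg (2 * g)
  refine ⟨gg (2 * g) * (5 * C), by nlinarith, fun M S hS => ?_⟩
  have hcardS : (#S : ℝ) ≤ M := by
    have := card_le_card hS
    rw [Nat.card_Icc, Nat.add_sub_cancel] at this
    exact_mod_cast this
  have hsub : (S.image w).offDiag ⊆ S.offDiag.image (fun z : ℕ × ℕ => (w z.1, w z.2)) := by
    intro z hz
    rw [mem_offDiag, mem_image, mem_image] at hz
    obtain ⟨⟨a, ha, hae⟩, ⟨b, hb, hbe⟩, hne⟩ := hz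
    rw [mem_image]
    refine ⟨(a, b), ?_, ?_⟩
    · rw [mem_offDiag]
      refine ⟨ha, hb, ?_⟩
      rintro h
      apply hne
      have h' : a = b := h
      rw [← hae, ← hbe, h']
    · exact Prod.ext hae hbe
  have h1 : ∑ z ∈ (S.image w).offDiag, gg (2 * Nat.dist z.1 z.2) ≤
      ∑ z ∈ S.offDiag.image (fun z : ℕ × ℕ => (w z.1, w z.2)), gg (2 * Nat.dist z.1 z.2) :=
    Finset.sum_le_sum_of_subset_of_nonneg hsub (fun z _ _ => by linarith [one_le_gg (2 * Nat.dist z.1 z.2)])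
  refine h1.trans ?_
  rw [Finset.sum_image (fun z hz z' _ h => by
    rw [mem_coe, mem_offDiag] at hz
    have h2 := congrArg Prod.fst h
    have h3 := congrArg Prod.snd h
    exact Prod.ext (w_inj w g e hg hdist (mem_Icc.1 (hS hz.1)).1 h2)
      (w_inj w g e hg hdist (mem_Icc.1 (hS hz.2.1)).1 h3))]
  have h2 : ∀ z ∈ S.offDiag, gg (2 * Nat.dist (w z.1) (w z.2)) ≤
      gg (2 * g) * (gg (Nat.dist z.1 z.2) ^ 2 + gg (z.1 + z.2 + e) ^ 2) := by
    intro z hz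
    rw [mem_offDiag] at hz
    have hz1 := mem_Icc.1 (hS hz.1)
    have hd : 0 < Nat.dist z.1 z.2 := Nat.dist_pos_of_ne hz.2.2
    rw [hdist, ← mul_assoc]
    have h3 := gg_mul_le (2 * g) (Nat.dist z.1 z.2 * (z.1 + z.2 + e)) (by omega)
      (Nat.mul_pos hd (by omega))
    have h4 := gg_mul_le (Nat.dist z.1 z.2) (z.1 + z.2 + e) hd (by omega)
    refine h3.trans ?_
    apply mul_le_mul_of_nonneg_left _ (by linarith)
    refine h4.trans ?_
    nlinarith [sq_nonneg (gg (Nat.dist z.1 z.2) - gg (z.1 + z.2 + e)),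
      sq_nonneg (gg (Nat.dist z.1 z.2)), sq_nonneg (gg (z.1 + z.2 + e))]
  refine (Finset.sum_le_sum h2).trans ?_
  rw [← Finset.mul_sum, Finset.sum_add_distrib]
  have h3 := sum_dist_le S M hS (fun n => gg n ^ 2) (fun n => sq_nonneg _)
  have h4 : ∑ z ∈ S.offDiag, gg (z.1 + z.2 + e) ^ 2 ≤ #S * (C * ((3 * M : ℕ) : ℝ)) := by
    have h5 : ∑ z ∈ S.offDiag, gg (z.1 + z.2 + e) ^ 2 ≤ ∑ z ∈ S ×ˢ S, gg (z.1 + z.2 + e) ^ 2 := by
      apply Finset.sum_le_sum_of_subset_of_nonneg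
      · intro z hz
        rw [mem_offDiag] at hz
        rw [mem_product]
        exact ⟨hz.1, hz.2.1⟩
      · intro z _ _
        positivity
    refine h5.trans ?_
    rw [Finset.sum_product, ← nsmul_eq_mul, ← Finset.sum_const]
    apply Finset.sum_le_sum
    intro a ha
    have ha1 := mem_Icc.1 (hS ha)
    refine le_trans ?_ (hmom (3 * M))
    rw [← Finset.sum_image (f := fun n => gg n ^ 2) (g := fun b => a + b + e) (fun b _ b' _ h => by
      simp only at h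
      omega)]
    apply Finset.sum_le_sum_of_subset_of_nonneg
    · intro n hn
      obtain ⟨b, hb, rfl⟩ := mem_image.1 hn
      have hb1 := mem_Icc.1 (hS hb)
      rw [mem_Icc]
      omega
    · intro n _ _
      positivity
  have h5 := hmom M
  have hM0 : (0 : ℝ) ≤ M := Nat.cast_nonneg _
  have hC0 : 0 ≤ C := by linarith
  have h6 : 2 * (#S : ℝ) * ∑ h ∈ Icc 1 M, gg h ^ 2 ≤ 2 * M * (C * M) := by
    apply mul_le_mul (by linarith) h5
    · exact Finset.sum_nonneg fun _ _ => sq_nonneg _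
    · positivity
  have h7 : (#S : ℝ) * (C * ((3 * M : ℕ) : ℝ)) ≤ M * (C * ((3 * M : ℕ) : ℝ)) :=
    mul_le_mul_of_nonneg_right hcardS (by positivity)
  push_cast at h4 h7
  have h8 : ∑ z ∈ S.offDiag, gg (Nat.dist z.1 z.2) ^ 2 ≤ 2 * M * (C * M) := h3.trans h6
  calc gg (2 * g) * (∑ z ∈ S.offDiag, gg (Nat.dist z.1 z.2) ^ 2 + ∑ z ∈ S.offDiag, gg (z.1 + z.2 + e) ^ 2) ≤
        gg (2 * g) * (2 * M * (C * M) + M * (C * (3 * M))) := by
        apply mul_le_mul_of_nonneg_left _ (by linarith)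
        linarith
    _ = gg (2 * g) * (5 * C) * (M : ℝ) ^ 2 := by ring

theorem small_w (w : ℕ → ℕ) (g e : ℕ) (hg : 1 ≤ g) (he : e ≤ 1)
    (hdist : ∀ a b, Nat.dist (w a) (w b) = g * (Nat.dist a b * (a + b + e)))
    (hw : ∀ m, 1 ≤ m → 3 ≤ w m ∧ w m % 2 = 1 ∧ w m ≤ 3 * m ^ 2) (β δ : ℝ) (hβ : 0 < β) (hδ : 0 < δ) : ∃ c : ℝ, 0 < c ∧ ∀ A : Set ℕ,
    (∃ y0 : ℕ, ∀ y : ℕ, y0 ≤ y → ∃ S : Finset ℕ, S ⊆ Icc 1 y ∧ (∀ m ∈ S, m ∈ A) ∧
      β * y ≤ #S) →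
    ∃ x0 : ℕ, ∀ x : ℕ, x0 ≤ x → ∃ T : Finset ℕ, T ⊆ Icc 3 x ∧ c * x ≤ #T ∧
      ∀ n ∈ T, ∃ m ∈ A, ∃ q : ℕ, q.Prime ∧ (m : ℝ) ≤ δ * Real.log x ∧ w m + q = 2 * n := by
  classical
  obtain ⟨C1, hC1, hsq⟩ := avg_w w g e hg he hdist
  obtain ⟨C2, hC2, u0, hsm⟩ := second_moment
  obtain ⟨c1, hc1⟩ : ∃ c1 : ℝ, c1 = β * δ / 8 := ⟨_, rfl⟩
  have hc10 : 0 < c1 := by rw [hc1]; positivity
  obtain ⟨D, hD⟩ : ∃ D : ℝ, D = C2 * C1 * δ ^ 2 := ⟨_, rfl⟩
  have hD0 : 0 < D := by rw [hD]; positivity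
  refine ⟨c1 / (1 + D / c1), by positivity, fun A hd => ?_⟩
  obtain ⟨y0, hd⟩ := hd
  have hlogt : Tendsto (fun x : ℕ => Real.log (x : ℝ)) atTop atTop :=
    Real.tendsto_log_atTop.comp tendsto_natCast_atTop_atTop
  obtain ⟨x0, hx0⟩ := eventually_atTop.mp ((hlogt.eventually_ge_atTop
    (max ((y0 + 2) / δ) (max 1 (8 / (β * δ))))).and ((ev_sq (2 * δ) (by positivity)).and
      (QQ_card.and ((eventually_ge_atTop u0).and (eventually_ge_atTop 10)))))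
  refine ⟨x0, fun x hx => ?_⟩
  obtain ⟨hLbig, hx16, hQ, hxu, hx10⟩ := hx0 x hx
  obtain ⟨L, hL⟩ : ∃ L : ℝ, L = Real.log (x : ℝ) := ⟨_, rfl⟩
  rw [← hL] at hLbig hx16 hQ ⊢
  have hL1 : (y0 + 2) / δ ≤ L := (le_max_left _ _).trans hLbig
  have hL2 : 1 ≤ L := (le_max_left _ _).trans ((le_max_right _ _).trans hLbig)
  have hL3 : 8 / (β * δ) ≤ L := (le_max_right _ _).trans ((le_max_right _ _).trans hLbig)
  rw [div_le_iff₀ hδ] at hL1
  rw [div_le_iff₀ (by positivity)] at hL3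
  have hxpos : (0 : ℝ) < x := by exact_mod_cast (by omega : 0 < x)
  obtain ⟨M, hM⟩ : ∃ M : ℕ, M = ⌊δ * L⌋₊ := ⟨_, rfl⟩
  have hMle : (M : ℝ) ≤ δ * L := by rw [hM]; exact Nat.floor_le (by positivity)
  have hMge : δ * L - 1 ≤ M := by
    have := Nat.lt_floor_add_one (δ * L)
    rw [← hM] at this
    linarith
  have hy00 : (0 : ℝ) ≤ y0 := Nat.cast_nonneg _
  have hMy0 : y0 ≤ M := by
    have : (y0 : ℝ) ≤ M := by linarith
    exact_mod_cast this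
  have hMhalf : δ * L / 2 ≤ M := by linarith
  obtain ⟨S0, hS0, hS0A, hS0c⟩ := hd M hMy0
  obtain ⟨S, hS⟩ : ∃ S : Finset ℕ, S = S0.erase 1 := ⟨_, rfl⟩
  have hSc : (#S0 : ℝ) - 1 ≤ #S := by
    have h1 := Finset.pred_card_le_card_erase (s := S0) (a := 1)
    rw [← hS] at h1
    have h2 : (#S0 : ℝ) ≤ #S + 1 := by
      have : #S0 ≤ #S + 1 := by omega
      exact_mod_cast this
    linarith
  have hSM : S ⊆ Icc 1 M := by
    rw [hS]
    exact (erase_subset _ _).trans hS0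
  have hSA : ∀ m ∈ S, m ∈ A := by
    intro m hm
    rw [hS, mem_erase] at hm
    exact hS0A m hm.2
  have hSlow : β * δ * L / 4 ≤ #S := by
    have h1 : β * (δ * L / 2) ≤ #S0 := le_trans (mul_le_mul_of_nonneg_left hMhalf hβ.le) hS0c
    have h2 : 8 ≤ β * δ * L := by linarith
    linarith
  -- the squares
  obtain ⟨Q, hQd⟩ : ∃ Q : Finset ℕ, Q = S.image w := ⟨_, rfl⟩
  have hQcard : #Q = #S := by
    rw [hQd]
    exact card_image_of_injOn (fun a ha b hb h => w_inj w g e hg hdist (mem_Icc.1 (hSM ha)).1 h)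
  have hQsub : Q ⊆ Icc 1 (3 * M ^ 2) := by
    intro a ha
    rw [hQd, mem_image] at ha
    obtain ⟨m, hm, rfl⟩ := ha
    have := mem_Icc.1 (hSM hm)
    rw [mem_Icc]
    obtain ⟨w1, w2, w3⟩ := hw m this.1
    have w4 := Nat.pow_le_pow_left this.2 2
    exact ⟨by omega, by omega⟩
  have hQodd : ∀ a ∈ Q, 3 ≤ a ∧ a % 2 = 1 := by
    intro a ha
    rw [hQd, mem_image] at ha
    obtain ⟨m, hm, rfl⟩ := ha
    obtain ⟨w1, w2, w3⟩ := hw m (mem_Icc.1 (hSM hm)).1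
    exact ⟨w1, w2⟩
  have hYx : 2 * ((3 * M ^ 2 : ℕ) : ℝ) ≤ (x : ℝ) ^ (1 / 16 : ℝ) := by
    push_cast
    refine le_trans ?_ hx16
    have h1 := pow_le_pow_left₀ (Nat.cast_nonneg M) hMle 2
    have h2 : 2 * (2 * δ * L) ^ 2 = 8 * (δ * L) ^ 2 := by ring
    rw [h2]
    have h3 : 0 ≤ (M : ℝ) ^ 2 := sq_nonneg _
    linarith
  have hmain := hsm x (3 * M ^ 2) Q hxu hYx hQsub hQodd
  have havg := hsq M S hSM
  rw [← hQd] at havg
  rw [← hL, hQcard] at hmain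
  obtain ⟨t, ht⟩ : ∃ t : ℝ, t = (#S : ℝ) * #(QQ x) := ⟨_, rfl⟩
  rw [← ht] at hmain
  have ht1 : c1 * x ≤ t := by
    rw [ht, hc1]
    calc β * δ / 8 * x = (β * δ * L / 4) * (x / (2 * L)) := by
          field_simp
          norm_num
      _ ≤ (#S : ℝ) * #(QQ x) := mul_le_mul hSlow hQ (by positivity) (Nat.cast_nonneg _)
  have htpos : 0 < t := lt_of_lt_of_le (by positivity) ht1
  have hZ : C2 * (∑ z ∈ Q.offDiag, gg (2 * Nat.dist z.1 z.2)) * x / L ^ 2 ≤ D * x := by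
    have h1 : C2 * (∑ z ∈ Q.offDiag, gg (2 * Nat.dist z.1 z.2)) * x / L ^ 2 ≤
        C2 * (C1 * (δ * L) ^ 2) * x / L ^ 2 := by
      have h2 : (M : ℝ) ^ 2 ≤ (δ * L) ^ 2 := pow_le_pow_left₀ (Nat.cast_nonneg M) hMle 2
      have h3 : ∑ z ∈ Q.offDiag, gg (2 * Nat.dist z.1 z.2) ≤ C1 * (δ * L) ^ 2 :=
        havg.trans (mul_le_mul_of_nonneg_left h2 (by linarith))
      gcongr
    refine h1.trans (le_of_eq ?_)
    rw [hD]
    field_simp
  refine ⟨RR Q x, ?_, ?_, ?_⟩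
  · unfold RR
    exact Finset.filter_subset _ _
  · have h1 : t ^ 2 ≤ #(RR Q x) * (t * (1 + D / c1)) := by
      refine hmain.trans ?_
      apply mul_le_mul_of_nonneg_left _ (Nat.cast_nonneg _)
      have h2 : D * x ≤ t * (D / c1) := by
        calc D * x = (c1 * x) * (D / c1) := by field_simp
          _ ≤ t * (D / c1) := mul_le_mul_of_nonneg_right ht1 (by positivity)
      calc t + C2 * (∑ z ∈ Q.offDiag, gg (2 * Nat.dist z.1 z.2)) * x / L ^ 2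
          ≤ t + t * (D / c1) := by linarith
        _ = t * (1 + D / c1) := by ring
    have h2 : t ≤ #(RR Q x) * (1 + D / c1) := by
      have h3 : t * t ≤ t * (#(RR Q x) * (1 + D / c1)) := by
        calc t * t = t ^ 2 := by ring
          _ ≤ #(RR Q x) * (t * (1 + D / c1)) := h1
          _ = t * (#(RR Q x) * (1 + D / c1)) := by ring
      exact le_of_mul_le_mul_left h3 htpos
    have h4 : 0 < 1 + D / c1 := by positivity
    rw [div_mul_eq_mul_div, div_le_iff₀ h4]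
    linarith
  · intro n hn
    unfold RR at hn
    obtain ⟨a, ha, q, hq, hqa⟩ := (mem_filter.mp hn).2
    rw [hQd, mem_image] at ha
    obtain ⟨m, hm, rfl⟩ := ha
    have h1 := mem_Icc.1 (hSM hm)
    refine ⟨m, hSA m hm, q, hq, ?_, hqa⟩
    have h2 : (m : ℝ) ≤ M := by exact_mod_cast h1.2
    linarith

theorem lower_w (f : ℕ → ℕ) (ε : ℝ) (hε : 0 < ε) : ∃ c : ℝ, 0 < c ∧ ∃ X₀ : ℕ, ∀ X : ℕ, X₀ ≤ X → ∀ Y : ℕ,
    (Set.ncard {n : ℕ | Y < n ∧ n ≤ Y + X ∧ ∃ p m : ℕ, p.Prime ∧ p + f m = n ∧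
      (m : ℝ) ≤ c * Real.log X} : ℝ) ≤ ε * X := by
  obtain ⟨C, hC, hbt⟩ := Pool.Agent.Helper601.brun_titchmarsh
  obtain ⟨c, hc⟩ : ∃ c : ℝ, c = ε / (2 * C) := ⟨_, rfl⟩
  have hc0 : 0 < c := by rw [hc]; positivity
  have hlogt : Tendsto (fun x : ℕ => Real.log (x : ℝ)) atTop atTop :=
    Real.tendsto_log_atTop.comp tendsto_natCast_atTop_atTop
  obtain ⟨X₀, hX₀⟩ := eventually_atTop.1 ((hlogt.eventually_ge_atTop (1 / c)).and
    (eventually_ge_atTop 2))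
  refine ⟨c, hc0, X₀, fun X hX Y => ?_⟩
  obtain ⟨h1, h2⟩ := hX₀ X hX
  have hXr : (2 : ℝ) ≤ X := by exact_mod_cast h2
  obtain ⟨L, hL⟩ : ∃ L : ℝ, L = Real.log X := ⟨_, rfl⟩
  rw [← hL] at h1 ⊢
  have hLpos : 0 < L := by rw [hL]; exact Real.log_pos (by linarith)
  rw [div_le_iff₀ hc0] at h1
  obtain ⟨M, hM⟩ : ∃ M : ℕ, M = ⌊c * L⌋₊ := ⟨_, rfl⟩
  have hMle : (M : ℝ) ≤ c * L := by rw [hM]; exact Nat.floor_le (by positivity)
  obtain ⟨F, hF⟩ : ∃ F : ℕ → Finset ℕ, ∀ m : ℕ, F m =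
    (range X).filter (fun k : ℕ => Nat.Prime (Y + 1 - f m + k * 1)) := ⟨_, fun _ => rfl⟩
  obtain ⟨B, hB⟩ : ∃ B : Finset ℕ, B = (range (M + 1)).biUnion (fun m : ℕ =>
    (F m).image (fun k : ℕ => Y + 1 - f m + k * 1 + f m)) := ⟨_, rfl⟩
  have hBc : (B.card : ℝ) ≤ ε * X := by
    have h3 : B.card ≤ ∑ m ∈ range (M + 1), (F m).card := by
      rw [hB]
      exact card_biUnion_le.trans (sum_le_sum fun m _ => card_image_le)
    have h4 : (B.card : ℝ) ≤ ∑ m ∈ range (M + 1), ((F m).card : ℝ) := by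
      exact_mod_cast h3
    have h5 : ∑ m ∈ range (M + 1), ((F m).card : ℝ) ≤ ∑ m ∈ range (M + 1), C * X / L := by
      apply sum_le_sum
      intro m _
      rw [hL, hF m]
      exact hbt (Y + 1 - f m) 1 X h2 (Or.inl rfl)
    rw [sum_const, card_range, nsmul_eq_mul] at h5
    have h6 : ((M + 1 : ℕ) : ℝ) ≤ 2 * (c * L) := by
      push_cast
      linarith
    calc (B.card : ℝ) ≤ ((M + 1 : ℕ) : ℝ) * (C * X / L) := h4.trans h5
      _ ≤ 2 * (c * L) * (C * X / L) := by gcongr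
      _ = (2 * C * c) * X := by field_simp
      _ = ε * X := by rw [hc]; field_simp
  have hsub : {n : ℕ | Y < n ∧ n ≤ Y + X ∧ ∃ p m : ℕ, p.Prime ∧ p + f m = n ∧
      (m : ℝ) ≤ c * L} ⊆ (B : Set ℕ) := by
    rintro n ⟨hn1, hn2, p, m, hp, hpm, hm⟩
    have hmM : m ≤ M := by
      rw [hM]
      exact Nat.le_floor hm
    have hp1 := hp.pos
    rw [mem_coe, hB, mem_biUnion]
    refine ⟨m, mem_range.2 (by omega), ?_⟩
    rw [mem_image]
    have hle : Y + 1 - f m ≤ p := by omega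
    refine ⟨p - (Y + 1 - f m), ?_, ?_⟩
    · rw [hF m, mem_filter, mem_range]
      have e : Y + 1 - f m + (p - (Y + 1 - f m)) * 1 = p := by omega
      rw [e]
      exact ⟨by omega, hp⟩
    · omega
  have h5 := Set.ncard_le_ncard hsub (Finset.finite_toSet B)
  rw [Set.ncard_coe_finset] at h5
  have h6 : (Set.ncard {n : ℕ | Y < n ∧ n ≤ Y + X ∧ ∃ p m : ℕ, p.Prime ∧ p + f m = n ∧
      (m : ℝ) ≤ c * L} : ℝ) ≤ B.card := by exact_mod_cast h5
  exact h6.trans hBc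

open Classical in
theorem upper_w (f : ℕ → ℕ) (g e : ℕ) (hg : 1 ≤ g) (he : e ≤ 1)
    (hdist : ∀ a b, Nat.dist (f a + 1) (f b + 1) = g * (Nat.dist a b * (a + b + e)))
    (hf : ∀ m, 1 ≤ m → 2 ≤ f m ∧ f m % 2 = 0 ∧ f m + 1 ≤ 3 * m ^ 2) (β δ : ℝ) (hβ : 0 < β) (hδ : 0 < δ) : ∃ c : ℝ, 0 < c ∧ ∀ A : Set ℕ,
    (∀ᶠ y : ℕ in atTop, β * y ≤ Set.ncard {m : ℕ | m ∈ A ∧ 1 ≤ m ∧ m ≤ y}) →
    ∀ᶠ x : ℕ in atTop, c * x ≤ Set.ncard {n : ℕ | n ≤ x ∧ Odd n ∧ ∃ p m : ℕ, p.Prime ∧ m ∈ A ∧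
      p + f m = n ∧ (m : ℝ) ≤ δ * Real.log n} := by
  obtain ⟨c, hc, hs⟩ := small_w (fun m => f m + 1) g e hg he hdist (fun m hm => by
      obtain ⟨h1, h2, h3⟩ := hf m hm
      exact ⟨by omega, by omega, h3⟩) β (δ / 2) hβ (by positivity)
  refine ⟨c / 8, by positivity, fun A hd => ?_⟩
  obtain ⟨y0, hd⟩ := eventually_atTop.1 hd
  obtain ⟨x0, hs⟩ := hs A ⟨y0, fun y hy => by
    refine ⟨(Icc 1 y).filter (fun m => m ∈ A), filter_subset _ _,
      fun m hm => (mem_filter.1 hm).2, ?_⟩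
    refine (hd y hy).trans ?_
    have h1 : {m : ℕ | m ∈ A ∧ 1 ≤ m ∧ m ≤ y} ⊆ (((Icc 1 y).filter (fun m => m ∈ A) : Finset ℕ) : Set ℕ) := by
      rintro m ⟨hm1, hm2, hm3⟩
      rw [mem_coe, mem_filter, mem_Icc]
      exact ⟨⟨hm2, hm3⟩, hm1⟩
    have h2 := Set.ncard_le_ncard h1 (Finset.finite_toSet _)
    rw [Set.ncard_coe_finset] at h2
    exact_mod_cast h2⟩
  obtain ⟨w0, hw0⟩ := exists_nat_ge (16 / c ^ 2)
  filter_upwards [eventually_ge_atTop (2 * x0 + 2 * w0 + 40)] with X hX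
  obtain ⟨x, hx⟩ : ∃ x : ℕ, x = X / 2 := ⟨_, rfl⟩
  obtain ⟨T, hT1, hT2, hT3⟩ := hs x (by omega)
  have hx20 : 20 ≤ x := by omega
  have hxw : w0 ≤ x := by omega
  have hxr : (20 : ℝ) ≤ x := by exact_mod_cast hx20
  have hwr : (w0 : ℝ) ≤ x := by exact_mod_cast hxw
  have hXx : (X : ℝ) ≤ 2 * x + 1 := by
    have : X ≤ 2 * x + 1 := by omega
    exact_mod_cast this
  -- the elements which are not too small
  have hbig : c / 2 * x ≤ ((T.filter (fun n => x < n ^ 2)).card : ℝ) := by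
    have h1 : T.card ≤ (T.filter (fun n => x < n ^ 2)).card + Nat.sqrt x := by
      have h2 := card_filter_add_card_filter_not (s := T) (fun n => x < n ^ 2)
      have h3 : (T.filter (fun n => ¬ x < n ^ 2)).card ≤ (Icc 1 (Nat.sqrt x)).card := by
        apply card_le_card
        intro n hn
        rw [mem_filter] at hn
        have h4 := mem_Icc.1 (hT1 hn.1)
        rw [mem_Icc]
        refine ⟨by omega, ?_⟩
        rw [Nat.le_sqrt']
        exact not_lt.1 hn.2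
      rw [Nat.card_Icc, Nat.add_sub_cancel] at h3
      omega
    have h2 : (T.card : ℝ) ≤ ((T.filter (fun n => x < n ^ 2)).card : ℝ) + (Nat.sqrt x : ℝ) := by
      exact_mod_cast h1
    have h3 : (Nat.sqrt x : ℝ) ≤ √(x : ℝ) := Real.nat_sqrt_le_real_sqrt
    have h4 : √(x : ℝ) ≤ c / 2 * x := by
      rw [Real.sqrt_le_left (by positivity)]
      have h5 : 16 / c ^ 2 ≤ x := hw0.trans hwr
      rw [div_le_iff₀ (by positivity)] at h5
      have h6 : (x : ℝ) * 16 ≤ x * (x * c ^ 2) := mul_le_mul_of_nonneg_left h5 (by positivity)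
      nlinarith
    linarith
  obtain ⟨G, hG⟩ : ∃ G : Set ℕ, G = {n : ℕ | n ≤ X ∧ Odd n ∧ ∃ p m : ℕ, p.Prime ∧ m ∈ A ∧
      p + f m = n ∧ (m : ℝ) ≤ δ * Real.log n} := ⟨_, rfl⟩
  rw [← hG]
  have hGfin : G.Finite := by
    rw [hG]
    exact (Set.finite_Iic X).subset (fun n hn => hn.1)
  have hsub : (((T.filter (fun n => x < n ^ 2)).image (fun n => 2 * n - 1) : Finset ℕ) : Set ℕ) ⊆ G := by
    intro N hN
    rw [mem_coe, mem_image] at hN
    obtain ⟨n, hn, rfl⟩ := hN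
    rw [mem_filter] at hn
    have h1 := mem_Icc.1 (hT1 hn.1)
    obtain ⟨m, hmA, q, hq, hmL, hmq⟩ := hT3 n hn.1
    rw [hG]
    have hmq' : f m + 1 + q = 2 * n := hmq
    refine ⟨by omega, ⟨n - 1, by omega⟩, q, m, hq, hmA, by omega, ?_⟩
    have h2 : (x : ℝ) < (n : ℝ) ^ 2 := by exact_mod_cast hn.2
    have h3 : Real.log x ≤ 2 * Real.log n := by
      have := Real.log_le_log (by linarith) h2.le
      rw [Real.log_pow] at this
      exact_mod_cast this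
    have h4 : Real.log n ≤ Real.log ((2 * n - 1 : ℕ) : ℝ) := by
      have hn3 : (3 : ℝ) ≤ n := by exact_mod_cast h1.1
      apply Real.log_le_log (by linarith)
      have : n ≤ 2 * n - 1 := by omega
      exact_mod_cast this
    calc (m : ℝ) ≤ δ / 2 * Real.log x := hmL
      _ ≤ δ / 2 * (2 * Real.log n) := by gcongr
      _ = δ * Real.log n := by ring
      _ ≤ δ * Real.log ((2 * n - 1 : ℕ) : ℝ) := by gcongr
  have h5 := Set.ncard_le_ncard hsub hGfin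
  rw [Set.ncard_coe_finset, card_image_of_injOn (fun a ha a' ha' h => by
    rw [mem_coe, mem_filter] at ha ha'
    have h1 := mem_Icc.1 (hT1 ha.1)
    have h2 := mem_Icc.1 (hT1 ha'.1)
    have h' : 2 * a - 1 = 2 * a' - 1 := h
    omega)] at h5
  have h6 : ((T.filter (fun n => x < n ^ 2)).card : ℝ) ≤ Set.ncard G := by exact_mod_cast h5
  refine le_trans ?_ (hbig.trans h6)
  nlinarith

end Pool.Agent.TH685.W
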